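import Pool.Agent.Q148.FN.Tc

/-! Boxes for the smallest prime factor. -/

set_option autoImplicit false

namespace Pool.Agent.Q148.FN

open Finset Filter
open Pool.Agent.W23.DC
open Pool.Agent.Y882
open Pool.Agent.Q148.BA (PP mem_PP)

/-- the edges -/
noncomputable def xx (n : ℕ) (u ρ : ℝ) (j : ℕ) : ℝ := (n : ℝ) ^ u * (1 + ρ) ^ j

/-- the largest integer below the edge -/
noncomputable def ed (n : ℕ) (u ρ : ℝ) (j : ℕ) : ℕ := ⌈xx n u ρ j⌉₊ - 1

/-- the number of the boxes -/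
noncomputable def JJ (n : ℕ) (u ρ : ℝ) : ℕ := ⌊(1 / 3 - u) * Real.log n / Real.log (1 + ρ)⌋₊ + 1

/-- the primes of a box -/
noncomputable def bx (n : ℕ) (u ρ : ℝ) (j : ℕ) : Finset ℕ := (Ioc (ed n u ρ j) (ed n u ρ (j + 1))).filter Nat.Prime

theorem xx_pos (n : ℕ) (hn : 1 ≤ n) (u ρ : ℝ) (hρ : 0 < ρ) (j : ℕ) : 0 < xx n u ρ j := by
  have : (0 : ℝ) < n := by exact_mod_cast hn
  unfold xx
  positivity

theorem mem_bx (n : ℕ) (hn : 1 ≤ n) (u ρ : ℝ) (hρ : 0 < ρ) (j q : ℕ) :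
    q ∈ bx n u ρ j ↔ q.Prime ∧ xx n u ρ j ≤ q ∧ (q : ℝ) < xx n u ρ (j + 1) := by
  have h1 := xx_pos n hn u ρ hρ j
  have h2 := xx_pos n hn u ρ hρ (j + 1)
  have h3 : 0 < ⌈xx n u ρ j⌉₊ := Nat.ceil_pos.2 h1
  have h4 : 0 < ⌈xx n u ρ (j + 1)⌉₊ := Nat.ceil_pos.2 h2
  unfold bx ed
  rw [mem_filter, mem_Ioc]
  constructor
  · rintro ⟨⟨h5, h6⟩, h7⟩
    refine ⟨h7, Nat.ceil_le.1 (by omega), Nat.lt_ceil.1 (by omega)⟩
  · rintro ⟨h5, h6, h7⟩
    have h8 := Nat.ceil_le.2 h6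
    have h9 := Nat.lt_ceil.2 h7
    exact ⟨⟨by omega, by omega⟩, h5⟩

theorem xx_mono (n : ℕ) (hn : 1 ≤ n) (u ρ : ℝ) (hρ : 0 < ρ) {i j : ℕ} (hij : i ≤ j) : xx n u ρ i ≤ xx n u ρ j := by
  have : (0 : ℝ) < n := by exact_mod_cast hn
  unfold xx
  apply mul_le_mul_of_nonneg_left _ (by positivity)
  exact pow_le_pow_right₀ (by linarith) hij

/-- the exponents of the edges -/
theorem xx_exp (n : ℕ) (hn : 3 ≤ n) (u ρ : ℝ) (hρ : 0 < ρ) (hu : u < 1 / 3) (j : ℕ) (hj : j < JJ n u ρ) :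
    ∃ θ : ℝ, u ≤ θ ∧ θ ≤ 1 / 3 ∧ xx n u ρ j = (n : ℝ) ^ θ ∧ xx n u ρ (j + 1) = (n : ℝ) ^ θ * (1 + ρ) := by
  have hnr : (3 : ℝ) ≤ n := by exact_mod_cast hn
  have hn0 : (0 : ℝ) < n := by linarith
  have hl : 0 < Real.log n := Real.log_pos (by linarith)
  have hlr : 0 < Real.log (1 + ρ) := Real.log_pos (by linarith)
  refine ⟨u + j * Real.log (1 + ρ) / Real.log n, ?_, ?_, ?_, ?_⟩
  · have : 0 ≤ j * Real.log (1 + ρ) / Real.log n := by positivity
    linarith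
  · have h1 : j ≤ ⌊(1 / 3 - u) * Real.log n / Real.log (1 + ρ)⌋₊ := by
      unfold JJ at hj
      omega
    have h2 : (j : ℝ) ≤ (1 / 3 - u) * Real.log n / Real.log (1 + ρ) :=
      le_trans (by exact_mod_cast h1) (Nat.floor_le (div_nonneg (mul_nonneg (by linarith) hl.le) hlr.le))
    rw [le_div_iff₀ hlr] at h2
    have h3 : j * Real.log (1 + ρ) / Real.log n ≤ 1 / 3 - u := by
      rw [div_le_iff₀ hl]
      exact h2
    linarith
  · unfold xx
    rw [Real.rpow_add hn0]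
    congr 1
    rw [← Real.exp_log (show 0 < (n : ℝ) ^ (j * Real.log (1 + ρ) / Real.log n) by positivity),
      Real.log_rpow hn0, div_mul_cancel₀ _ hl.ne', ← Real.log_pow, Real.exp_log (by positivity)]
  · unfold xx
    rw [Real.rpow_add hn0, pow_succ]
    have : (n : ℝ) ^ (j * Real.log (1 + ρ) / Real.log n) = (1 + ρ) ^ j := by
      rw [← Real.exp_log (show 0 < (n : ℝ) ^ (j * Real.log (1 + ρ) / Real.log n) by positivity),
        Real.log_rpow hn0, div_mul_cancel₀ _ hl.ne', ← Real.log_pow, Real.exp_log (by positivity)]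
    rw [this]
    ring

/-- every prime of the range is in a box -/
theorem ex_box (n : ℕ) (hn : 3 ≤ n) (u ρ : ℝ) (hρ : 0 < ρ) (hu : u < 1 / 3) (q : ℕ) (hq : q.Prime)
    (h1 : (n : ℝ) ^ u ≤ q) (h2 : (q : ℝ) ≤ (n : ℝ) ^ (1 / 3 : ℝ)) : ∃ j < JJ n u ρ, q ∈ bx n u ρ j := by
  have hnr : (3 : ℝ) ≤ n := by exact_mod_cast hn
  have hn0 : (0 : ℝ) < n := by linarith
  have hl : 0 < Real.log n := Real.log_pos (by linarith)
  have hlr : 0 < Real.log (1 + ρ) := Real.log_pos (by linarith)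
  have hq0 : (0 : ℝ) < q := by exact_mod_cast hq.pos
  have g1 : u * Real.log n ≤ Real.log q := by
    rw [← Real.log_rpow hn0]
    exact Real.log_le_log (by positivity) h1
  have g2 : Real.log q ≤ 1 / 3 * Real.log n := by
    rw [← Real.log_rpow hn0]
    exact Real.log_le_log hq0 h2
  obtain ⟨y, hy⟩ : ∃ y : ℝ, y = (Real.log q - u * Real.log n) / Real.log (1 + ρ) := ⟨_, rfl⟩
  have hy0 : 0 ≤ y := by
    rw [hy]
    exact div_nonneg (by linarith) hlr.le
  have hyl : y * Real.log (1 + ρ) = Real.log q - u * Real.log n := by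
    rw [hy, div_mul_cancel₀ _ hlr.ne']
  have hx : ∀ k : ℕ, Real.log (xx n u ρ k) = u * Real.log n + k * Real.log (1 + ρ) := by
    intro k
    unfold xx
    rw [Real.log_mul (by positivity) (by positivity), Real.log_rpow hn0, Real.log_pow]
  refine ⟨⌊y⌋₊, ?_, ?_⟩
  · unfold JJ
    apply Nat.lt_succ_of_le
    apply Nat.floor_le_floor
    rw [hy]
    apply div_le_div_of_nonneg_right _ hlr.le
    linarith
  · rw [mem_bx n (by omega) u ρ hρ]
    refine ⟨hq, ?_, ?_⟩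
    · rw [← Real.log_le_log_iff (xx_pos n (by omega) u ρ hρ _) hq0, hx]
      have := mul_le_mul_of_nonneg_right (Nat.floor_le hy0) hlr.le
      linarith
    · rw [← Real.log_lt_log_iff hq0 (xx_pos n (by omega) u ρ hρ _), hx]
      have := mul_lt_mul_of_pos_right (Nat.lt_floor_add_one y) hlr
      push_cast
      linarith

theorem II_le (u : ℝ) (hu1 : 1 / 4 ≤ u) (hu2 : u < 1 / 3) : II u ≤ 1 := by
  unfold II
  have h0 : ∫ x in u..(1 / 3 : ℝ), GG x / x ≤ ∫ _x in u..(1 / 3 : ℝ), (4 : ℝ) := by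
    apply intervalIntegral.integral_mono_on hu2.le (GG_div_int u (1 / 3) hu1 hu2.le (by norm_num)) (by simp)
    intro x hx
    have h1 : (1 : ℝ) / 4 ≤ x := hu1.trans hx.1
    have h2 := GG_le_one x h1 hx.2
    rw [div_le_iff₀ (by linarith)]
    linarith
  refine h0.trans ?_
  rw [intervalIntegral.integral_const, smul_eq_mul]
  linarith

/-- **the mass** -/
theorem mass (u η : ℝ) (hu1 : 1 / 4 ≤ u) (hu2 : u < 1 / 3) (hη : 0 < η) (hη1 : η ≤ 1) :
    ∃ ρ : ℝ, 0 < ρ ∧ ρ ≤ 1 / 10 ∧ ∃ N0 : ℕ, ∀ n : ℕ, N0 ≤ n →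
      ∑ j ∈ range (JJ n u ρ), ((bx n u ρ j).card : ℝ) * ((TT n (xx n u ρ j)).card : ℝ) ≤
        (II u + η) * ((n : ℝ) / Real.log n) := by
  classical
  obtain ⟨ω, β, hω0, hω1, hβ0, hβ1, hcont, N1, H1⟩ := outer u (η / 4) hu1 hu2 (by linarith)
  obtain ⟨N2, H2⟩ := card_TT (ω / 2) (by linarith) (by linarith)
  obtain ⟨ρ, hρ⟩ : ∃ ρ : ℝ, ρ = η / 10 := ⟨_, rfl⟩
  have hρ0 : 0 < ρ := by rw [hρ]; positivity
  have hρ1 : ρ ≤ 1 / 10 := by rw [hρ]; linarith
  have hlr : 0 < Real.log (1 + ρ) := Real.log_pos (by linarith)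
  obtain ⟨N3, H3⟩ := eventually_atTop.1 ((tendsto_natCast_atTop_atTop (R := ℝ)).eventually
    (Real.tendsto_log_atTop.eventually_ge_atTop (Real.log (1 + ρ) / β)))
  refine ⟨ρ, hρ0, hρ1, max (max N1 N2) (max N3 3), fun n hn => ?_⟩
  have hn1 : N1 ≤ n := ((le_max_left _ _).trans (le_max_left _ _)).trans hn
  have hn2 : N2 ≤ n := ((le_max_right _ _).trans (le_max_left _ _)).trans hn
  have hn3 : N3 ≤ n := ((le_max_left _ _).trans (le_max_right _ _)).trans hn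
  have hn4 : 3 ≤ n := ((le_max_right _ _).trans (le_max_right _ _)).trans hn
  have hnr : (3 : ℝ) ≤ n := by exact_mod_cast hn4
  have hn0 : (0 : ℝ) < n := by linarith
  have hl : 0 < Real.log n := Real.log_pos (by linarith)
  have f1 := H1 n hn1
  have f3 := H3 n hn3
  rw [div_le_iff₀ hβ0] at f3
  -- one box
  have hq : ∀ j < JJ n u ρ, ∀ q ∈ bx n u ρ j, ∃ θ : ℝ, u ≤ θ ∧ θ ≤ 1 / 3 ∧ xx n u ρ j = (n : ℝ) ^ θ ∧
      θ ≤ tt n q ∧ tt n q ≤ θ + β ∧ (q : ℝ) ≤ (n : ℝ) ^ θ * (1 + ρ) ∧ (2 : ℝ) ≤ q ∧ tt n q < 1 / 3 + β ∧ q.Prime := by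
    intro j hj q hq
    obtain ⟨θ, g1, g2, g3, g4⟩ := xx_exp n hn4 u ρ hρ0 hu2 j hj
    rw [mem_bx n (by omega) u ρ hρ0, g3, g4] at hq
    obtain ⟨g5, g6, g7⟩ := hq
    have hq2 : (2 : ℝ) ≤ q := by exact_mod_cast g5.two_le
    have hq0 : (0 : ℝ) < q := by linarith
    have g8 : θ ≤ tt n q := by
      unfold tt
      rw [le_div_iff₀ hl, ← Real.log_rpow hn0]
      exact Real.log_le_log (by positivity) g6
    have g9 : tt n q < θ + β := by
      unfold tt
      rw [div_lt_iff₀ hl]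
      have h1 := Real.log_lt_log hq0 g7
      rw [Real.log_mul (by positivity) (by linarith), Real.log_rpow hn0] at h1
      linarith
    exact ⟨θ, g1, g2, g3, g8, g9.le, g7.le, hq2, by linarith, g5⟩
  have hbox : ∀ j ∈ range (JJ n u ρ), ((bx n u ρ j).card : ℝ) * ((TT n (xx n u ρ j)).card : ℝ) ≤
      (1 + ρ) * ((n : ℝ) / Real.log n) * ∑ q ∈ bx n u ρ j, 1 / ((q : ℝ) - 1) * (GG (tt n q) + ω) := by
    intro j hj
    rw [mem_range] at hj
    obtain ⟨θ, g1, g2, g3, g4⟩ := xx_exp n hn4 u ρ hρ0 hu2 j hj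
    have hx0 : 0 < (n : ℝ) ^ θ := by positivity
    have h1 := H2 n hn2 θ (by linarith) g2
    rw [g3, mul_sum]
    have hG0 := GG_nonneg θ (by linarith) g2
    have h2 : ((bx n u ρ j).card : ℝ) = ∑ _q ∈ bx n u ρ j, (1 : ℝ) := by simp
    rw [h2, sum_mul]
    apply sum_le_sum
    intro q hqj
    obtain ⟨θ', k1, k2, k3, k4, k5, k6, k7, k8, _⟩ := hq j hj q hqj
    have hθ : θ' = θ := by
      rw [g3] at k3
      have h3 := congrArg Real.log k3
      rw [Real.log_rpow hn0, Real.log_rpow hn0] at h3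
      exact (mul_right_cancel₀ hl.ne' h3).symm
    rw [hθ] at k4 k5 k6
    rw [one_mul]
    refine h1.trans ?_
    have h3 : GG θ + ω / 2 ≤ GG (tt n q) + ω := by
      have h4 := hcont θ ⟨by linarith, by linarith⟩ (tt n q) ⟨by linarith, by linarith⟩ (by
        rw [abs_sub_comm, abs_of_nonneg (by linarith)]
        linarith)
      have h5 := (abs_le.1 h4).2
      linarith
    have h4 : 1 / (n : ℝ) ^ θ ≤ (1 + ρ) * (1 / ((q : ℝ) - 1)) := by
      rw [mul_one_div, div_le_div_iff₀ hx0 (by linarith)]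
      have h5 : (1 + ρ) * (n : ℝ) ^ θ = (n : ℝ) ^ θ * (1 + ρ) := by ring
      rw [h5]
      linarith
    calc (n : ℝ) / ((n : ℝ) ^ θ * Real.log n) * (GG θ + ω / 2) =
        ((n : ℝ) / Real.log n) * ((1 / (n : ℝ) ^ θ) * (GG θ + ω / 2)) := by field_simp
      _ ≤ ((n : ℝ) / Real.log n) * (((1 + ρ) * (1 / ((q : ℝ) - 1))) * (GG (tt n q) + ω)) := by
          apply mul_le_mul_of_nonneg_left _ (by positivity)
          apply mul_le_mul h4 h3 (by linarith)
          apply mul_nonneg (by linarith)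
          exact div_nonneg zero_le_one (by linarith)
      _ = _ := by ring
  refine (sum_le_sum hbox).trans ?_
  rw [← mul_sum]
  have hdis : Set.PairwiseDisjoint (↑(range (JJ n u ρ))) (fun j => bx n u ρ j) := by
    intro i _ j _ hij
    rw [Function.onFun, disjoint_left]
    intro q hqi hqj
    rw [mem_bx n (by omega) u ρ hρ0] at hqi hqj
    rcases lt_or_gt_of_ne hij with h | h
    · have := xx_mono n (by omega) u ρ hρ0 (show i + 1 ≤ j by omega)
      linarith [hqi.2.2, hqj.2.1]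
    · have := xx_mono n (by omega) u ρ hρ0 (show j + 1 ≤ i by omega)
      linarith [hqj.2.2, hqi.2.1]
  have h5 : ∑ j ∈ range (JJ n u ρ), ∑ q ∈ bx n u ρ j, 1 / ((q : ℝ) - 1) * (GG (tt n q) + ω) ≤
      ∑ q ∈ pr n u (1 / 3 + β), 1 / ((q : ℝ) - 1) * (GG (tt n q) + ω) := by
    rw [← sum_biUnion hdis]
    apply sum_le_sum_of_subset_of_nonneg
    · intro q hq'
      rw [mem_biUnion] at hq'
      obtain ⟨j, hj, hqj⟩ := hq'
      obtain ⟨θ, k1, k2, k3, k4, k5, k6, k7, k8, k9⟩ := hq j (mem_range.1 hj) q hqj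
      unfold pr
      rw [mem_filter, mem_Icc]
      refine ⟨⟨k9.one_le, ?_⟩, k9, by linarith, k8⟩
      have hq0 : (0 : ℝ) < q := by linarith
      have h6 : Real.log q ≤ Real.log n := by
        have h7 : tt n q ≤ 1 := by linarith
        unfold tt at h7
        rw [div_le_iff₀ hl] at h7
        linarith
      have h8 := (Real.log_le_log_iff hq0 hn0).1 h6
      exact_mod_cast h8
    · intro q hqp _
      unfold pr at hqp
      rw [mem_filter] at hqp
      obtain ⟨_, hqp', k1, k2⟩ := hqp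
      have hq2 : (2 : ℝ) ≤ q := by exact_mod_cast hqp'.two_le
      apply mul_nonneg (div_nonneg zero_le_one (by linarith))
      rcases le_or_gt (tt n q) (1 / 3) with h6 | h6
      · have := GG_nonneg (tt n q) (by linarith) h6
        linarith
      · have h7 := hcont (1 / 3) ⟨by norm_num, by norm_num⟩ (tt n q) ⟨by linarith, by linarith⟩ (by
          rw [abs_sub_comm, abs_of_nonneg (by linarith)]
          linarith)
        have h8 := GG_nonneg (1 / 3) (by norm_num) le_rfl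
        have h9 := (abs_le.1 h7).2
        linarith
  have hII := II_le u hu1 hu2
  have hA : 0 ≤ (1 + ρ) * ((n : ℝ) / Real.log n) := by positivity
  refine (mul_le_mul_of_nonneg_left (h5.trans f1) hA).trans ?_
  have h6 : (1 + ρ) * ((n : ℝ) / Real.log n) * (II u + η / 4) = ((1 + ρ) * (II u + η / 4)) * ((n : ℝ) / Real.log n) := by
    ring
  rw [h6]
  apply mul_le_mul_of_nonneg_right _ (by positivity)
  have h7 : ρ * (II u + η / 4) ≤ ρ * 2 := mul_le_mul_of_nonneg_left (by linarith) hρ0.le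
  have h8 : (1 + ρ) * (II u + η / 4) = II u + η / 4 + ρ * (II u + η / 4) := by ring
  rw [h8]
  have h9 : 10 * ρ = η := by rw [hρ]; ring
  linarith

end Pool.Agent.Q148.FN
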