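import Pool.Agent.Q148.FN.Cons

/-! Goldbach's problem: all even `n ≤ X` outside a set of at most `K (log X)^B` elements. -/

set_option autoImplicit false

namespace Pool.Agent.Q148.FN

open Finset Filter
open Pool.Agent.Q148.BA (PP mem_PP card_pf sing_ge)
open Pool.Agent.H560R3.GB (sing)

/-- representations as a sum of two primes -/
noncomputable def r2 (n : ℕ) : ℝ := (((PP n).filter (fun p => (n - p).Prime)).card : ℝ)

open Classical in
/-- the number of the primes `p < n` such that `n - p` has no prime factor below `z` -/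
noncomputable def ral (n : ℕ) (z : ℝ) : ℝ :=
  (((PP n).filter (fun p => p < n ∧ ∀ q : ℕ, q.Prime → q ∣ n - p → z ≤ q)).card : ℝ)

theorem r2_eq (n : ℕ) : r2 n = pairs n n := by
  unfold r2 pairs
  congr 2
  apply filter_congr
  intro p hp
  rw [mem_PP] at hp
  rw [Nat.dist_eq_sub_of_le hp.2]

theorem ral_eq (n : ℕ) (z : ℝ) : ral n z = almost n n z := by
  classical
  unfold ral almost
  congr 2
  apply filter_congr
  intro p hp
  rw [mem_PP] at hp
  rw [Nat.dist_eq_sub_of_le hp.2]
  constructor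
  · rintro ⟨h1, h2⟩
    exact ⟨h1.ne, h2⟩
  · rintro ⟨h1, h2⟩
    exact ⟨lt_of_le_of_ne hp.2 h1, h2⟩

theorem almost_anti (a y : ℕ) (z w : ℝ) (h : z ≤ w) : almost a y w ≤ almost a y z := by
  classical
  unfold almost
  have : (PP y).filter (fun p => p ≠ a ∧ ∀ q : ℕ, q.Prime → q ∣ Nat.dist p a → w ≤ q) ⊆
      (PP y).filter (fun p => p ≠ a ∧ ∀ q : ℕ, q.Prime → q ∣ Nat.dist p a → z ≤ q) := by
    intro p hp
    rw [mem_filter] at hp ⊢
    exact ⟨hp.1, hp.2.1, fun q hq hqd => h.trans (hp.2.2 q hq hqd)⟩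
  exact_mod_cast card_le_card this

/-- the uniform statement -/
theorem uniform (u ε : ℝ) (hu1 : 5 / 36 ≤ u) (hu2 : u < 5 / 18) (hε : 0 < ε) (hε1 : ε ≤ 1) :
    ∃ (B : ℕ) (C : ℝ), 0 < C ∧
    ∀ N : ℕ, 3 ≤ N → ∃ Ex : Finset ℕ, (Ex.card : ℝ) ≤ C * Real.log N ^ B ∧
    ∀ a : ℕ, 1 ≤ a → a ≤ N → a ∉ Ex → Even a → ∀ y : ℕ, y ≤ N →
      pairs a y ≤ (18 / 5 * y + ε * N) * (sing a / Real.log N ^ 2) ∧
      (18 / 5 * Real.log (5 / (9 * u) - 1) * y - ε * N) * (sing a / Real.log N ^ 2) ≤
        almost a y ((N : ℝ) ^ u) := by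
  obtain ⟨B, C, hC, H⟩ := both _ _ (upperG ε hε hε1) (lowerG u ε hu1 hu2 hε hε1)
  refine ⟨B, C, hC, fun N hN => ?_⟩
  obtain ⟨Ex, h1, h2⟩ := H N hN
  exact ⟨Ex, h1, fun a ha haN haE hae y hy => ⟨(h2 a ha haN haE).1 hae y hy, (h2 a ha haN haE).2 hae y hy⟩⟩

open Classical in
/-- **Goldbach** -/
theorem goldbach (u ε : ℝ) (hu1 : 5 / 36 ≤ u) (hu2 : u < 5 / 18) (hε : 0 < ε) (hε1 : ε ≤ 1) :
    ∃ (B : ℕ) (K : ℝ), ∀ X : ℕ, 3 ≤ X → (((Icc 1 X).filter (fun n : ℕ => Even n ∧
      ¬ (r2 n ≤ (18 / 5 + ε) * (sing n * n / Real.log n ^ 2) ∧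
        (18 / 5 * Real.log (5 / (9 * u) - 1) - ε) * (sing n * n / Real.log n ^ 2) ≤
          ral n ((n : ℝ) ^ u)))).card : ℝ) ≤ K * Real.log X ^ B := by
  obtain ⟨B, C, hC, H⟩ := uniform u (ε / 4) hu1 hu2 (by linarith) (by linarith)
  have hu0 : 0 < u := by linarith
  obtain ⟨c, hc⟩ : ∃ c : ℝ, c = 18 / 5 * Real.log (5 / (9 * u) - 1) := ⟨_, rfl⟩
  rw [← hc] at H ⊢
  have hlog0 : 5 / (9 * u) = 5 / 9 / u := by field_simp
  have hc0 : 0 ≤ c := by
    rw [hc, hlog0]
    have : 2 < 5 / 9 / u := by rw [lt_div_iff₀ hu0]; linarith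
    have := Real.log_nonneg (show 1 ≤ 5 / 9 / u - 1 by linarith)
    positivity
  have hc4 : c ≤ 4 := by
    rw [hc, hlog0]
    have h1 : 5 / 9 / u ≤ 4 := by rw [div_le_iff₀ hu0]; linarith
    have h0 : 2 < 5 / 9 / u := by rw [lt_div_iff₀ hu0]; linarith
    have h2 : Real.log (5 / 9 / u - 1) ≤ Real.log 3 := Real.log_le_log (by linarith) (by linarith)
    have h3 : Real.log 3 ≤ 1.11 := by
      have := Real.exp_one_gt_d9
      rw [Real.log_le_iff_le_exp (by norm_num)]
      have h4 : Real.exp 1.11 = Real.exp 1 * Real.exp 0.11 := by rw [← Real.exp_add]; norm_num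
      have h5 := Real.add_one_le_exp (0.11 : ℝ)
      rw [h4]
      nlinarith
    linarith
  obtain ⟨X₀, hX₀⟩ := eventually_atTop.1 ((tendsto_natCast_atTop_atTop (R := ℝ)).eventually
    (Real.tendsto_log_atTop.eventually_ge_atTop (13 / ε + 2)))
  obtain ⟨K, hK⟩ := Pool.Agent.W23.UB.dyadic (P := fun n : ℕ => Even n ∧
      ¬ (r2 n ≤ (18 / 5 + ε) * (sing n * n / Real.log n ^ 2) ∧
        (c - ε) * (sing n * n / Real.log n ^ 2) ≤ ral n ((n : ℝ) ^ u)))
    (C := C) (B := B) (X₀ := max X₀ 4) hC.le (by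
      intro X hX
      have hX4 : 4 ≤ X := (le_max_right _ _).trans hX
      have hXr : (4 : ℝ) ≤ X := by exact_mod_cast hX4
      have hLX := hX₀ X ((le_max_left _ _).trans hX)
      obtain ⟨Ex, h1, h2⟩ := H X (by omega)
      refine le_trans ?_ h1
      have hsub : (Icc 1 X).filter (fun n : ℕ => X < 2 * n ∧ (Even n ∧
        ¬ (r2 n ≤ (18 / 5 + ε) * (sing n * n / Real.log n ^ 2) ∧
        (c - ε) * (sing n * n / Real.log n ^ 2) ≤ ral n ((n : ℝ) ^ u)))) ⊆ Ex := by
        intro n hn
        rw [mem_filter, mem_Icc] at hn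
        obtain ⟨⟨g1, g2⟩, g3, g4, g5⟩ := hn
        by_contra hE
        apply g5
        obtain ⟨k1, k2⟩ := h2 n g1 g2 hE g4 n g2
        have hn2 : 3 ≤ n := by omega
        have hnr : (3 : ℝ) ≤ n := by exact_mod_cast hn2
        have hn0 : (0 : ℝ) < n := by linarith
        have hnX : (n : ℝ) ≤ X := by exact_mod_cast g2
        have hX2n : (X : ℝ) ≤ 2 * n := by exact_mod_cast g3.le
        obtain ⟨L, hL⟩ : ∃ L : ℝ, L = Real.log X := ⟨_, rfl⟩
        obtain ⟨l, hl⟩ : ∃ l : ℝ, l = Real.log n := ⟨_, rfl⟩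
        rw [← hL] at hLX k1 k2
        rw [← hl]
        have hl0 : 0 < l := by rw [hl]; exact Real.log_pos (by linarith)
        have hlL : l ≤ L := by rw [hl, hL]; exact Real.log_le_log hn0 hnX
        have hLl : L ≤ l + 0.7 := by
          rw [hL, hl]
          calc Real.log X ≤ Real.log (2 * n) := Real.log_le_log (by linarith) hX2n
            _ = Real.log 2 + Real.log n := Real.log_mul (by norm_num) hn0.ne'
            _ ≤ _ := by linarith [Real.log_two_lt_d9]
        have hL0 : 0 < L := by linarith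
        have hs := sing_ge n
        have hs0 : 0 < sing n := by linarith
        constructor
        · rw [r2_eq]
          refine k1.trans ?_
          calc (18 / 5 * (n : ℝ) + ε / 4 * X) * (sing n / L ^ 2) ≤
              ((18 / 5 + ε) * n) * (sing n / l ^ 2) := by
                apply mul_le_mul _ _ (by positivity) (by positivity)
                · have : ε / 4 * X ≤ ε / 4 * (2 * n) := mul_le_mul_of_nonneg_left hX2n (by positivity)
                  have : 0 ≤ ε * (n : ℝ) := by positivity
                  linarith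
                · apply div_le_div_of_nonneg_left hs0.le (by positivity)
                  exact pow_le_pow_left₀ hl0.le hlL 2
            _ = _ := by ring
        · rcases le_or_gt (c - ε) 0 with h0 | h0
          · have h3 : 0 ≤ ral n ((n : ℝ) ^ u) := Nat.cast_nonneg _
            refine le_trans ?_ h3
            apply mul_nonpos_of_nonpos_of_nonneg h0
            positivity
          · rw [ral_eq]
            have h3 : almost n n ((X : ℝ) ^ u) ≤ almost n n ((n : ℝ) ^ u) :=
              almost_anti n n _ _ (Real.rpow_le_rpow hn0.le hnX hu0.le)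
            refine le_trans ?_ (k2.trans h3)
            have hq : L ^ 2 ≤ (1 + ε / 8) * l ^ 2 := by
              have h4 : 13 ≤ ε * L := by
                have : 13 / ε ≤ L := by linarith
                rw [div_le_iff₀ hε] at this
                linarith
              have h5 : 0 ≤ L - 0.7 := by
                have : 0 ≤ 13 / ε := by positivity
                linarith
              have h6 : (L - 0.7) ^ 2 ≤ l ^ 2 := pow_le_pow_left₀ h5 (by linarith) 2
              have h7 : (1 + ε / 8) * (L - 0.7) ^ 2 ≤ (1 + ε / 8) * l ^ 2 :=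
                mul_le_mul_of_nonneg_left h6 (by positivity)
              refine le_trans ?_ h7
              have h8 : (1 + ε / 8) * (L - 0.7) ^ 2 = L ^ 2 + ((ε * L) * L / 8 - 1.4 * L - 1.4 * (ε * L) / 8) +
                  0.49 * (1 + ε / 8) := by ring
              rw [h8]
              have h9 : 13 * L ≤ (ε * L) * L := mul_le_mul_of_nonneg_right h4 hL0.le
              have h10 : ε * L ≤ 1 * L := mul_le_mul_of_nonneg_right hε1 hL0.le
              have h11 : 0 ≤ 0.49 * (1 + ε / 8) := by positivity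
              linarith
            have hq2 : sing n / l ^ 2 ≤ (1 + ε / 8) * (sing n / L ^ 2) := by
              rw [div_le_iff₀ (by positivity)]
              have h4 : (1 + ε / 8) * (sing n / L ^ 2) * l ^ 2 = sing n * (((1 + ε / 8) * l ^ 2) / L ^ 2) := by
                field_simp
              rw [h4]
              apply le_mul_of_one_le_right hs0.le
              rw [one_le_div (by positivity)]
              exact hq
            calc (c - ε) * (sing n * n / l ^ 2) = ((c - ε) * n) * (sing n / l ^ 2) := by ring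
              _ ≤ ((c - ε) * n) * ((1 + ε / 8) * (sing n / L ^ 2)) :=
                  mul_le_mul_of_nonneg_left hq2 (by positivity)
              _ = ((c - ε) * (1 + ε / 8) * n) * (sing n / L ^ 2) := by ring
              _ ≤ (c * n - ε / 4 * X) * (sing n / L ^ 2) := by
                  apply mul_le_mul_of_nonneg_right _ (by positivity)
                  have h4 : (c - ε) * (1 + ε / 8) ≤ c - ε / 2 := by nlinarith
                  have h5 := mul_le_mul_of_nonneg_right h4 hn0.le
                  have h6 : ε / 4 * X ≤ ε / 4 * (2 * n) := mul_le_mul_of_nonneg_left hX2n (by positivity)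
                  linarith
      exact_mod_cast card_le_card hsub)
  exact ⟨B + 1, K, hK⟩

end Pool.Agent.Q148.FN
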