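import Pool.Agent.Q148.FN.Sw2
import Pool.Agent.Q148.FN.Gb

/-! Chen's theorem with large prime factors, for all but a power of `log X` even numbers. -/

set_option autoImplicit false

namespace Pool.Agent.Q148.FN

open Finset Filter
open Pool.Agent.Q148.BA (PP mem_PP sing_ge)
open Pool.Agent.H560R3.GB (sing)

open Classical in
/-- the number of the primes `p < n` such that `n - p` is a prime or a product of two primes and has no prime
factor below `z` -/
noncomputable def ch (n : ℕ) (z : ℝ) : ℝ :=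
  (((PP n).filter (fun p => p < n ∧ ((n - p).Prime ∨ ∃ q r : ℕ, q.Prime ∧ r.Prime ∧ n - p = q * r) ∧
    ∀ q : ℕ, q.Prime → q ∣ n - p → z ≤ q)).card : ℝ)

open Classical in
theorem ral_le (n : ℕ) (hn : 3 ≤ n) (u : ℝ) (hu : 1 / 4 ≤ u) :
    ral n ((n : ℝ) ^ u) ≤ ch n ((n : ℝ) ^ u) + Tr n u + 1 := by
  have hnr : (3 : ℝ) ≤ n := by exact_mod_cast hn
  have hn0 : (0 : ℝ) < n := by linarith
  have hsub : (PP n).filter (fun p => p < n ∧ ∀ q : ℕ, q.Prime → q ∣ n - p → (n : ℝ) ^ u ≤ q) ⊆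
      ((PP n).filter (fun p => p < n ∧ ((n - p).Prime ∨ ∃ q r : ℕ, q.Prime ∧ r.Prime ∧ n - p = q * r) ∧
        ∀ q : ℕ, q.Prime → q ∣ n - p → (n : ℝ) ^ u ≤ q) ∪
      (PP n).filter (fun p => ∃ q r s : ℕ, q.Prime ∧ r.Prime ∧ s.Prime ∧ (n : ℝ) ^ u ≤ q ∧ q ≤ r ∧ r ≤ s ∧
        n = p + q * (r * s))) ∪ {n - 1} := by
    intro p hp
    rw [mem_filter] at hp
    obtain ⟨hp0, hp1, hp2⟩ := hp
    rw [mem_union, mem_union, mem_filter, mem_filter, mem_singleton]
    obtain ⟨m, hm⟩ : ∃ m : ℕ, m = n - p := ⟨_, rfl⟩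
    rw [← hm] at hp2 ⊢
    have hm0 : 0 < m := by omega
    by_cases c1 : m = 1
    · right
      omega
    left
    have q1 := Nat.minFac_prime c1
    obtain ⟨m1, hm1⟩ := Nat.minFac_dvd m
    have b1 := hp2 _ q1 (Nat.minFac_dvd m)
    by_cases c2 : m1 = 1
    · left
      rw [c2, mul_one] at hm1
      refine ⟨hp0, hp1, Or.inl ?_, hp2⟩
      rw [hm1]
      exact q1
    have hd1 : m1 ∣ m := ⟨m.minFac, by rw [mul_comm]; exact hm1⟩
    have q2 := Nat.minFac_prime c2
    obtain ⟨m2, hm2⟩ := Nat.minFac_dvd m1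
    have b2 := hp2 _ q2 ((Nat.minFac_dvd m1).trans hd1)
    have l1 : m.minFac ≤ m1.minFac := Nat.minFac_le_of_dvd q2.two_le ((Nat.minFac_dvd m1).trans hd1)
    by_cases c3 : m2 = 1
    · left
      rw [c3, mul_one] at hm2
      refine ⟨hp0, hp1, Or.inr ⟨m.minFac, m1.minFac, q1, q2, ?_⟩, hp2⟩
      rw [← hm2]
      exact hm1
    have hd2 : m2 ∣ m1 := ⟨m1.minFac, by rw [mul_comm]; exact hm2⟩
    have q3 := Nat.minFac_prime c3
    obtain ⟨m3, hm3⟩ := Nat.minFac_dvd m2
    have b3 := hp2 _ q3 ((Nat.minFac_dvd m2).trans (hd2.trans hd1))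
    have l2 : m1.minFac ≤ m2.minFac := Nat.minFac_le_of_dvd q3.two_le ((Nat.minFac_dvd m2).trans hd2)
    by_cases c4 : m3 = 1
    · right
      rw [c4, mul_one] at hm3
      refine ⟨hp0, m.minFac, m1.minFac, m2.minFac, q1, q2, q3, b1, l1, l2, ?_⟩
      rw [← hm3, ← hm2, ← hm1, hm]
      omega
    exfalso
    have hd3 : m3 ∣ m2 := ⟨m2.minFac, by rw [mul_comm]; exact hm3⟩
    have q4 := Nat.minFac_prime c4
    have b4 := hp2 _ q4 ((Nat.minFac_dvd m3).trans (hd3.trans (hd2.trans hd1)))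
    have hm30 : m3 ≠ 0 := by
      rintro rfl
      rw [mul_zero] at hm3
      rw [hm3, mul_zero] at hm2
      rw [hm2, mul_zero] at hm1
      omega
    have b5 : (n : ℝ) ^ u ≤ m3 := b4.trans (by exact_mod_cast Nat.minFac_le (Nat.pos_of_ne_zero hm30))
    have z0 : 0 ≤ (n : ℝ) ^ u := by positivity
    have h1 : (n : ℝ) ^ u * ((n : ℝ) ^ u * ((n : ℝ) ^ u * (n : ℝ) ^ u)) ≤ m := by
      rw [hm1, hm2, hm3]
      push_cast
      apply mul_le_mul b1 _ (by positivity) (by positivity)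
      apply mul_le_mul b2 _ (by positivity) (by positivity)
      exact mul_le_mul b3 b5 (by positivity) (by positivity)
    have h2 : (n : ℝ) ≤ (n : ℝ) ^ u * ((n : ℝ) ^ u * ((n : ℝ) ^ u * (n : ℝ) ^ u)) := by
      rw [← Real.rpow_add hn0, ← Real.rpow_add hn0, ← Real.rpow_add hn0]
      calc (n : ℝ) = (n : ℝ) ^ (1 : ℝ) := (Real.rpow_one _).symm
        _ ≤ (n : ℝ) ^ (u + (u + (u + u))) := Real.rpow_le_rpow_of_exponent_le (by linarith) (by linarith)
    have h3 : (n : ℝ) ≤ m := h2.trans h1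
    have h4 : n ≤ m := by exact_mod_cast h3
    have h5 := (mem_PP.1 hp0).1.pos
    omega
  have h1 := (card_le_card hsub).trans ((card_union_le _ _).trans (Nat.add_le_add_right (card_union_le _ _) _))
  rw [card_singleton] at h1
  unfold ral ch Tr
  exact_mod_cast h1

open Classical in
/-- **Chen's theorem with large prime factors** for all but a power of `log X` even numbers `n ≤ X` -/
theorem chenLarge (u ε : ℝ) (hu1 : 1 / 4 ≤ u) (hu2 : u < 5 / 18) (hε : 0 < ε) (hε1 : ε ≤ 1) :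
    ∃ (B : ℕ) (K : ℝ), ∀ X : ℕ, 3 ≤ X → (((Icc 1 X).filter (fun n : ℕ => Even n ∧
      ¬ (18 / 5 * Real.log (5 / (9 * u) - 1) - 401 / 100 * II u - ε) * (sing n * n / Real.log n ^ 2) ≤
          ch n ((n : ℝ) ^ u))).card : ℝ) ≤ K * Real.log X ^ B := by
  obtain ⟨B, K, HG⟩ := goldbach u (ε / 4) (by linarith) hu2 (by linarith) (by linarith)
  obtain ⟨N1, HS⟩ := sw u (ε / 4) hu1 (by linarith) (by linarith) (by linarith)
  have e1 := Pool.Agent.H398R2.BV.ev_log (4 / ε) 2 1 (by norm_num)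
  obtain ⟨N2, H2⟩ := eventually_atTop.1 ((tendsto_natCast_atTop_atTop (R := ℝ)).eventually e1)
  obtain ⟨N0, hN0⟩ : ∃ N0 : ℕ, N0 = max (max N1 N2) 3 := ⟨_, rfl⟩
  refine ⟨B, max K 0 + N0, fun X hX => ?_⟩
  have hXr : (3 : ℝ) ≤ X := by exact_mod_cast hX
  have hlX : 1 ≤ Real.log X := by
    rw [Real.le_log_iff_exp_le (by linarith)]
    linarith [Real.exp_one_lt_d9]
  have hl : 1 ≤ Real.log X ^ B := one_le_pow₀ hlX
  have hsub : (Icc 1 X).filter (fun n : ℕ => Even n ∧
      ¬ (18 / 5 * Real.log (5 / (9 * u) - 1) - 401 / 100 * II u - ε) * (sing n * n / Real.log n ^ 2) ≤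
          ch n ((n : ℝ) ^ u)) ⊆
      (Icc 1 X).filter (fun n : ℕ => Even n ∧
      ¬ (r2 n ≤ (18 / 5 + ε / 4) * (sing n * n / Real.log n ^ 2) ∧
        (18 / 5 * Real.log (5 / (9 * u) - 1) - ε / 4) * (sing n * n / Real.log n ^ 2) ≤
          ral n ((n : ℝ) ^ u))) ∪ range N0 := by
    intro n hn
    rw [mem_filter] at hn
    obtain ⟨h1, h2, h3⟩ := hn
    rw [mem_union, mem_filter, mem_range]
    by_contra hc
    push Not at hc
    obtain ⟨hc1, hc2⟩ := hc
    obtain ⟨g1, g2⟩ := hc1 h1 h2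
    apply h3
    rw [hN0] at hc2
    have hn1 : N1 ≤ n := ((le_max_left _ _).trans (le_max_left _ _)).trans hc2
    have hn2 : N2 ≤ n := ((le_max_right _ _).trans (le_max_left _ _)).trans hc2
    have hn3 : 3 ≤ n := (le_max_right _ _).trans hc2
    have hnr : (3 : ℝ) ≤ n := by exact_mod_cast hn3
    have hn0 : (0 : ℝ) < n := by linarith
    have g3 := HS n hn1 h2
    have g4 := ral_le n hn3 u hu1
    have g5 := H2 n hn2
    rw [Real.rpow_one] at g5
    have hL0 : 0 < Real.log n := Real.log_pos (by linarith)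
    have hsa := sing_ge n
    have g6 : 1 ≤ ε / 4 * (sing n * n / Real.log n ^ 2) := by
      have k1 : (n : ℝ) / Real.log n ^ 2 ≤ sing n * n / Real.log n ^ 2 := by
        apply div_le_div_of_nonneg_right _ (by positivity)
        exact le_mul_of_one_le_left hn0.le hsa
      have k2 : 4 / ε ≤ n / Real.log n ^ 2 := by
        rw [le_div_iff₀ (by positivity)]
        exact g5
      have k3 : ε / 4 * (4 / ε) ≤ ε / 4 * (sing n * n / Real.log n ^ 2) :=
        mul_le_mul_of_nonneg_left (k2.trans k1) (by positivity)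
      have k4 : ε / 4 * (4 / ε) = 1 := by field_simp
      linarith
    obtain ⟨S, hS⟩ : ∃ S : ℝ, S = sing n * n / Real.log n ^ 2 := ⟨_, rfl⟩
    rw [← hS] at g2 g3 g6 ⊢
    have hS0 : 0 ≤ S := by rw [hS]; positivity
    have k5 : (18 / 5 * Real.log (5 / (9 * u) - 1) - 401 / 100 * II u - ε) * S =
      (18 / 5 * Real.log (5 / (9 * u) - 1) - ε / 4) * S - (401 / 100 * II u + ε / 4) * S - ε / 4 * S -
        ε / 4 * S := by ring
    have k6 : 0 ≤ ε / 4 * S := by positivity
    rw [k5]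
    linarith
  have h1 := (card_le_card hsub).trans (card_union_le _ _)
  rw [card_range] at h1
  have h2 : (((Icc 1 X).filter (fun n : ℕ => Even n ∧
      ¬ (18 / 5 * Real.log (5 / (9 * u) - 1) - 401 / 100 * II u - ε) * (sing n * n / Real.log n ^ 2) ≤
          ch n ((n : ℝ) ^ u))).card : ℝ) ≤ (((Icc 1 X).filter (fun n : ℕ => Even n ∧
      ¬ (r2 n ≤ (18 / 5 + ε / 4) * (sing n * n / Real.log n ^ 2) ∧
        (18 / 5 * Real.log (5 / (9 * u) - 1) - ε / 4) * (sing n * n / Real.log n ^ 2) ≤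
          ral n ((n : ℝ) ^ u)))).card : ℝ) + N0 := by exact_mod_cast h1
  have h3 := HG X hX
  refine h2.trans ?_
  have h4 : K * Real.log X ^ B ≤ max K 0 * Real.log X ^ B :=
    mul_le_mul_of_nonneg_right (le_max_left _ _) (by positivity)
  have h5 : (N0 : ℝ) * 1 ≤ N0 * Real.log X ^ B := mul_le_mul_of_nonneg_left hl (Nat.cast_nonneg _)
  rw [add_mul]
  linarith

/-- an upper bound for the logarithm -/
theorem log_up (y : ℝ) (h1 : 1 ≤ y) (h2 : y ≤ 4) : Real.log y ≤ 3 * (y - 1) / (y + 2) := by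
  have d0 : ∀ x : ℝ, 1 < x → HasDerivAt (fun x : ℝ => 3 * (x - 1) / (x + 2) - Real.log x)
      (((3 * 1) * (x + 2) - 3 * (x - 1) * 1) / (x + 2) ^ 2 - x⁻¹) x := by
    intro x hx
    have h3 : x + 2 ≠ 0 := by linarith
    have h4 : x ≠ 0 := by linarith
    have a1 : HasDerivAt (fun x : ℝ => 3 * (x - 1)) (3 * 1) x := ((hasDerivAt_id x).sub_const 1).const_mul 3
    have a2 : HasDerivAt (fun x : ℝ => x + 2) 1 x := (hasDerivAt_id x).add_const 2
    exact (a1.fun_div a2 h3).fun_sub (Real.hasDerivAt_log h4)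
  have key : MonotoneOn (fun x : ℝ => 3 * (x - 1) / (x + 2) - Real.log x) (Set.Icc 1 4) := by
    apply monotoneOn_of_deriv_nonneg (convex_Icc 1 4)
    · apply ContinuousOn.sub
      · apply ContinuousOn.div (by fun_prop) (by fun_prop)
        intro x hx
        have := hx.1
        linarith
      · apply Real.continuousOn_log.mono
        intro x hx
        simp only [Set.mem_compl_iff, Set.mem_singleton_iff]
        have := hx.1
        linarith
    · intro x hx
      rw [interior_Icc] at hx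
      exact (d0 x hx.1).differentiableAt.differentiableWithinAt
    · intro x hx
      rw [interior_Icc] at hx
      have h3 : x + 2 ≠ 0 := by linarith [hx.1]
      have h4 : x ≠ 0 := by linarith [hx.1]
      have hx0 : 0 < x := by linarith [hx.1]
      have d1 := d0 x hx.1
      rw [d1.deriv]
      have h5 : ((3 * 1) * (x + 2) - 3 * (x - 1) * 1) / (x + 2) ^ 2 - x⁻¹ =
          ((x - 1) * (4 - x)) / (x * (x + 2) ^ 2) := by
        field_simp
        ring
      rw [h5]
      apply div_nonneg _ (by positivity)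
      exact mul_nonneg (by linarith [hx.1]) (by linarith [hx.2])
  have h3 := key (Set.mem_Icc.2 ⟨le_rfl, by norm_num⟩) (Set.mem_Icc.2 ⟨h1, h2⟩) h1
  simp only [sub_self, mul_zero, zero_div, Real.log_one] at h3
  linarith

/-- an upper bound for the integral -/
theorem II_up (u : ℝ) (hu1 : 1 / 4 ≤ u) (hu2 : u < 1 / 3) :
    II u ≤ 3 * Real.log ((1 / 3) / u) + 6 * Real.log ((2 / 3) / (1 - u)) := by
  have hu0 : 0 < u := by linarith
  unfold II
  have hd : ∀ x ∈ Set.uIcc u (1 / 3 : ℝ), HasDerivAt (fun x : ℝ => 3 * Real.log x + 6 * Real.log (1 - x))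
      (3 * x⁻¹ + 6 * ((-1) / (1 - x))) x := by
    intro x hx
    rw [Set.uIcc_of_le hu2.le] at hx
    have h1 : x ≠ 0 := by linarith [hx.1]
    have h2 : 1 - x ≠ 0 := by linarith [hx.2]
    apply HasDerivAt.add
    · exact (Real.hasDerivAt_log h1).const_mul 3
    · apply HasDerivAt.const_mul
      have := ((hasDerivAt_id x).const_sub 1).log h2
      exact this
  have hcont : ContinuousOn (fun x : ℝ => 3 * x⁻¹ + 6 * ((-1) / (1 - x))) (Set.uIcc u (1 / 3 : ℝ)) := by
    rw [Set.uIcc_of_le hu2.le]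
    apply ContinuousOn.add
    · apply ContinuousOn.mul continuousOn_const
      apply ContinuousOn.inv₀ continuousOn_id
      intro x hx
      have := hx.1
      simp only [id]
      linarith
    · apply ContinuousOn.mul continuousOn_const
      apply ContinuousOn.div continuousOn_const (by fun_prop)
      intro x hx
      have := hx.2
      linarith
  have hint : IntervalIntegrable (fun x : ℝ => 3 * x⁻¹ + 6 * ((-1) / (1 - x))) MeasureTheory.volume u (1 / 3) :=
    hcont.intervalIntegrable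
  have h1 : ∫ x in u..(1 / 3 : ℝ), GG x / x ≤ ∫ x in u..(1 / 3 : ℝ), (3 * x⁻¹ + 6 * ((-1) / (1 - x))) := by
    apply intervalIntegral.integral_mono_on hu2.le (GG_div_int u (1 / 3) hu1 hu2.le (by norm_num)) hint
    intro x hx
    have hx0 : 0 < x := by linarith [hx.1]
    have hx1 : 0 < 1 - x := by linarith [hx.2]
    have h2 := log_up ((1 - 2 * x) / x) (by rw [le_div_iff₀ hx0]; linarith [hx.2])
      (by rw [div_le_iff₀ hx0]; linarith [hx.1])
    have h3 : 3 * ((1 - 2 * x) / x - 1) / ((1 - 2 * x) / x + 2) = 3 * (1 - 3 * x) := by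
      field_simp
      ring
    rw [h3] at h2
    unfold GG
    rw [div_div, div_le_iff₀ (by positivity)]
    refine h2.trans (le_of_eq ?_)
    field_simp
    ring
  refine h1.trans (le_of_eq ?_)
  rw [intervalIntegral.integral_eq_sub_of_hasDerivAt hd hint]
  have e1 : Real.log ((1 / 3) / u) = Real.log (1 / 3) - Real.log u := Real.log_div (by norm_num) hu0.ne'
  have e2 : Real.log ((2 / 3) / (1 - u)) = Real.log (2 / 3) - Real.log (1 - u) :=
    Real.log_div (by norm_num) (by linarith)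
  rw [e1, e2, show (1 : ℝ) - 1 / 3 = 2 / 3 by norm_num]
  ring

/-- the constant at `u = 1 / 4` -/
theorem num4 : 9 / 100 + 1 / 1000 ≤ 18 / 5 * Real.log (5 / (9 * (1 / 4 : ℝ)) - 1) - 401 / 100 * II (1 / 4) := by
  have h1 := II_up (1 / 4) (by norm_num) (by norm_num)
  have h2 : 3 * Real.log ((1 / 3) / (1 / 4 : ℝ)) + 6 * Real.log ((2 / 3) / (1 - 1 / 4 : ℝ)) =
      3 * Real.log (256 / 243) := by
    rw [show (256 / 243 : ℝ) = ((1 / 3) / (1 / 4 : ℝ)) * ((2 / 3) / (1 - 1 / 4 : ℝ)) ^ 2 by norm_num]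
    rw [Real.log_mul (by norm_num) (by norm_num), Real.log_pow]
    push_cast
    ring
  have h3 : Real.log (256 / 243) ≤ 522 / 10000 := by
    rw [Real.log_le_iff_le_exp (by norm_num)]
    refine le_trans ?_ (Real.quadratic_le_exp_of_nonneg (by norm_num))
    norm_num
  have h4 : (5 / (9 * (1 / 4 : ℝ)) - 1) = 1 + 2 / 9 := by norm_num
  have h5 := Real.le_log_one_add_of_nonneg (show (0 : ℝ) ≤ 2 / 9 by norm_num)
  rw [h4]
  norm_num at h5
  linarith

/-- the constant at `u = 129 / 500` -/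
theorem num : 1 / 200 + 1 / 1000 ≤ 18 / 5 * Real.log (5 / (9 * (129 / 500 : ℝ)) - 1) - 401 / 100 * II (129 / 500) := by
  have h1 := II_up (129 / 500) (by norm_num) (by norm_num)
  have h2 : 3 * Real.log ((1 / 3) / (129 / 500 : ℝ)) + 6 * Real.log ((2 / 3) / (1 - 129 / 500 : ℝ)) =
      3 * Real.log (1.0429625 + (((1 / 3) / (129 / 500 : ℝ)) * ((2 / 3) / (1 - 129 / 500 : ℝ)) ^ 2 - 1.0429625)) := by
    rw [show (1.0429625 + (((1 / 3) / (129 / 500 : ℝ)) * ((2 / 3) / (1 - 129 / 500 : ℝ)) ^ 2 - 1.0429625) : ℝ) =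
      ((1 / 3) / (129 / 500 : ℝ)) * ((2 / 3) / (1 - 129 / 500 : ℝ)) ^ 2 by ring]
    rw [Real.log_mul (by norm_num) (by norm_num), Real.log_pow]
    push_cast
    ring
  have h3 : Real.log (1.0429625 + (((1 / 3) / (129 / 500 : ℝ)) * ((2 / 3) / (1 - 129 / 500 : ℝ)) ^ 2 - 1.0429625)) ≤
      421 / 10000 := by
    rw [Real.log_le_iff_le_exp (by norm_num)]
    refine le_trans ?_ (Real.quadratic_le_exp_of_nonneg (by norm_num))
    norm_num
  have h4 : (5 / (9 * (129 / 500 : ℝ)) - 1) = 1 + 178 / 1161 := by norm_num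
  have h5 := Real.le_log_one_add_of_nonneg (show (0 : ℝ) ≤ 178 / 1161 by norm_num)
  rw [h4]
  norm_num at h5
  linarith

end Pool.Agent.Q148.FN
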