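import Pool.Agent.Q148.FN.Main
import Pool.Agent.W23.UBe
import Pool.Agent.Y882.JR.Lim
import Pool.Agent.W366.DC.SFX
import Pool.Agent.Y445.JRB.Buch

/-! Consequences: pairs of primes and primes with an almost prime, for all but `(log N)^B` of the `a ≤ N`. -/

set_option autoImplicit false

namespace Pool.Agent.Q148.FN

open Finset Filter
open Pool.Agent.W23.DC
open Pool.Agent.Y882
open Pool.Agent.Q148.BA (PP mem_PP card_pf sing_ge)
open Pool.Agent.Q148.KJ (PZ_mem)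
open Pool.Agent.H560R3.GB (sing)

/-- the number of the primes `p ≤ y` for which `|p - a|` is a prime -/
noncomputable def pairs (a y : ℕ) : ℝ := (((PP y).filter (fun p => (Nat.dist p a).Prime)).card : ℝ)

open Classical in
/-- the number of the primes `p ≤ y`, `p ≠ a`, such that all the prime factors of `|p - a|` are at least `z` -/
noncomputable def almost (a y : ℕ) (z : ℝ) : ℝ :=
  (((PP y).filter (fun p => p ≠ a ∧ ∀ q : ℕ, q.Prime → q ∣ Nat.dist p a → z ≤ q)).card : ℝ)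

theorem SG_le_almost (N a y : ℕ) (hN : 2 ≤ N) (ζ : ℝ) (hζ : ζ ≤ 1) : SG N a y ζ ≤ almost a y ((N : ℝ) ^ ζ) := by
  classical
  unfold SG almost Om
  have hNr : (2 : ℝ) ≤ N := by exact_mod_cast hN
  have : ((PP y).filter (fun p => ¬ p ∣ a)).filter (fun p => ∀ q ∈ PZ N ζ, ¬ q ∣ Nat.dist p a) ⊆
      (PP y).filter (fun p => p ≠ a ∧ ∀ q : ℕ, q.Prime → q ∣ Nat.dist p a → (N : ℝ) ^ ζ ≤ q) := by
    intro p hp
    rw [mem_filter, mem_filter] at hp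
    rw [mem_filter]
    refine ⟨hp.1.1, ?_, ?_⟩
    · rintro rfl
      exact hp.1.2 dvd_rfl
    · intro q hq hqd
      by_contra hc
      push Not at hc
      apply hp.2 q _ hqd
      rw [PZ_eq_PP N hN ζ hζ, mem_PP]
      refine ⟨hq, ?_⟩
      have := Nat.lt_ceil.2 hc
      omega
  exact_mod_cast card_le_card this

theorem pairs_le_SG (N a y : ℕ) (hN : 2 ≤ N) (ha : 1 ≤ a) (haN : a ≤ N) (ζ : ℝ) :
    pairs a y ≤ SG N a y ζ + (2 * Real.log N + (2 * (N : ℝ) ^ ζ + 3)) := by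
  classical
  have hNr : (2 : ℝ) ≤ N := by exact_mod_cast hN
  obtain ⟨z, hz⟩ : ∃ z : ℕ, z = ⌈(N : ℝ) ^ ζ⌉₊ := ⟨_, rfl⟩
  have hsub : (PP y).filter (fun p => (Nat.dist p a).Prime) ⊆
      ((Om a y).filter (fun p => ∀ q ∈ PZ N ζ, ¬ q ∣ Nat.dist p a) ∪ a.primeFactors) ∪
        Icc (a - z) (a + z) := by
    intro p hp
    rw [mem_filter] at hp
    rw [mem_union, mem_union]
    by_cases h1 : p ∣ a
    · left; right
      rw [Nat.mem_primeFactors]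
      exact ⟨(mem_PP.1 hp.1).1, h1, by omega⟩
    by_cases h2 : ∀ q ∈ PZ N ζ, ¬ q ∣ Nat.dist p a
    · left; left
      unfold Om
      rw [mem_filter, mem_filter]
      exact ⟨⟨hp.1, h1⟩, h2⟩
    · right
      push Not at h2
      obtain ⟨q, hq, hqd⟩ := h2
      obtain ⟨g1, g2, g3⟩ := PZ_mem N hN ζ q hq
      have h3 := (Nat.prime_dvd_prime_iff_eq g1 hp.2).1 hqd
      have h4 : Nat.dist p a < z := by
        rw [← h3, hz]
        exact Nat.lt_ceil.2 g3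
      unfold Nat.dist at h4
      rw [mem_Icc]
      omega
  have h1 := card_le_card hsub
  have h2 : (((Om a y).filter (fun p => ∀ q ∈ PZ N ζ, ¬ q ∣ Nat.dist p a) ∪ a.primeFactors) ∪
        Icc (a - z) (a + z)).card ≤ ((Om a y).filter (fun p => ∀ q ∈ PZ N ζ, ¬ q ∣ Nat.dist p a)).card +
        a.primeFactors.card + (2 * z + 1) := by
    refine (card_union_le _ _).trans ?_
    apply Nat.add_le_add (card_union_le _ _)
    rw [Nat.card_Icc]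
    omega
  have h3 := card_pf a N ha haN
  have h4 : (z : ℝ) < (N : ℝ) ^ ζ + 1 := by rw [hz]; exact Nat.ceil_lt_add_one (by positivity)
  have h5 : (((PP y).filter (fun p => (Nat.dist p a).Prime)).card : ℝ) ≤
      (((Om a y).filter (fun p => ∀ q ∈ PZ N ζ, ¬ q ∣ Nat.dist p a)).card : ℝ) +
        (a.primeFactors.card : ℝ) + (2 * z + 1) := by exact_mod_cast h1.trans h2
  unfold pairs SG
  linarith

/-- small `N` -/
theorem small (P : ℕ → ℕ → Prop) (h : ∃ (B : ℕ) (C : ℝ) (N0 : ℕ), 0 < C ∧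
    ∀ N : ℕ, N0 ≤ N → ∃ Ex : Finset ℕ, (Ex.card : ℝ) ≤ C * Real.log N ^ B ∧
    ∀ a : ℕ, 1 ≤ a → a ≤ N → a ∉ Ex → P N a) : ∃ (B : ℕ) (C : ℝ), 0 < C ∧
    ∀ N : ℕ, 3 ≤ N → ∃ Ex : Finset ℕ, (Ex.card : ℝ) ≤ C * Real.log N ^ B ∧
    ∀ a : ℕ, 1 ≤ a → a ≤ N → a ∉ Ex → P N a := by
  obtain ⟨B, C, N0, hC, H⟩ := h
  refine ⟨B, C + N0, by positivity, fun N hN => ?_⟩
  have hNr : (3 : ℝ) ≤ N := by exact_mod_cast hN
  have hlN : 1 ≤ Real.log N := by
    rw [Real.le_log_iff_exp_le (by linarith)]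
    linarith [Real.exp_one_lt_d9]
  have hl : 1 ≤ Real.log N ^ B := one_le_pow₀ hlN
  have hN0 : (0 : ℝ) ≤ N0 := Nat.cast_nonneg _
  rcases le_or_gt N0 N with h | h
  · obtain ⟨Ex, h1, h2⟩ := H N h
    refine ⟨Ex, h1.trans ?_, h2⟩
    apply mul_le_mul_of_nonneg_right _ (by positivity)
    linarith
  · refine ⟨Icc 1 N, ?_, fun a ha haN haE => absurd (mem_Icc.2 ⟨ha, haN⟩) haE⟩
    rw [Nat.card_Icc, Nat.add_sub_cancel]
    have h1 : (N : ℝ) ≤ N0 := by exact_mod_cast h.le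
    have h2 : (N : ℝ) ≤ C + N0 := by linarith
    calc (N : ℝ) ≤ (C + N0) * 1 := by linarith
      _ ≤ (C + N0) * Real.log N ^ B := mul_le_mul_of_nonneg_left hl (by linarith)

/-- two properties at once -/
theorem both (P Q : ℕ → ℕ → Prop) (h : ∃ (B : ℕ) (C : ℝ), 0 < C ∧
    ∀ N : ℕ, 3 ≤ N → ∃ Ex : Finset ℕ, (Ex.card : ℝ) ≤ C * Real.log N ^ B ∧
    ∀ a : ℕ, 1 ≤ a → a ≤ N → a ∉ Ex → P N a) (h' : ∃ (B : ℕ) (C : ℝ), 0 < C ∧
    ∀ N : ℕ, 3 ≤ N → ∃ Ex : Finset ℕ, (Ex.card : ℝ) ≤ C * Real.log N ^ B ∧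
    ∀ a : ℕ, 1 ≤ a → a ≤ N → a ∉ Ex → Q N a) : ∃ (B : ℕ) (C : ℝ), 0 < C ∧
    ∀ N : ℕ, 3 ≤ N → ∃ Ex : Finset ℕ, (Ex.card : ℝ) ≤ C * Real.log N ^ B ∧
    ∀ a : ℕ, 1 ≤ a → a ≤ N → a ∉ Ex → P N a ∧ Q N a := by
  classical
  obtain ⟨B, C, hC, H⟩ := h
  obtain ⟨B', C', hC', H'⟩ := h'
  refine ⟨B + B', C + C', by positivity, fun N hN => ?_⟩
  have hNr : (3 : ℝ) ≤ N := by exact_mod_cast hN
  have hlN : 1 ≤ Real.log N := by
    rw [Real.le_log_iff_exp_le (by linarith)]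
    linarith [Real.exp_one_lt_d9]
  obtain ⟨Ex, h1, h2⟩ := H N hN
  obtain ⟨Ex', h1', h2'⟩ := H' N hN
  refine ⟨Ex ∪ Ex', ?_, fun a ha haN haE => ?_⟩
  · have h3 : ((Ex ∪ Ex').card : ℝ) ≤ Ex.card + Ex'.card := by exact_mod_cast card_union_le _ _
    have h4 : C * Real.log N ^ B ≤ C * Real.log N ^ (B + B') :=
      mul_le_mul_of_nonneg_left (pow_le_pow_right₀ hlN (by omega)) hC.le
    have h5 : C' * Real.log N ^ B' ≤ C' * Real.log N ^ (B + B') :=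
      mul_le_mul_of_nonneg_left (pow_le_pow_right₀ hlN (by omega)) hC'.le
    rw [add_mul]
    linarith
  · rw [mem_union] at haE
    push Not at haE
    exact ⟨h2 a ha haN haE.1, h2' a ha haN haE.2⟩

theorem SFu : ∃ F f : ℝ → ℝ, SF (2 * Real.exp Real.eulerMascheroniConstant) F f := by
  obtain ⟨A0, F, f, hSF⟩ := Pool.Agent.W366.DC.SFX
  have hA : A0 = 2 * Real.exp Real.eulerMascheroniConstant :=
    Pool.Agent.Y882.JR.A0_eq Pool.Agent.Y445.JRB.t hSF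
  rw [hA] at hSF
  exact ⟨F, f, hSF⟩

theorem ee : Real.exp Real.eulerMascheroniConstant * Real.exp (-Real.eulerMascheroniConstant) = 1 := by
  rw [← Real.exp_add, add_neg_cancel, Real.exp_zero]

/-- **prime pairs**: the constant `18 / 5` -/
theorem upperG (ε : ℝ) (hε : 0 < ε) (hε1 : ε ≤ 1) : ∃ (B : ℕ) (C : ℝ), 0 < C ∧
    ∀ N : ℕ, 3 ≤ N → ∃ Ex : Finset ℕ, (Ex.card : ℝ) ≤ C * Real.log N ^ B ∧
    ∀ a : ℕ, 1 ≤ a → a ≤ N → a ∉ Ex → Even a → ∀ y : ℕ, y ≤ N →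
      pairs a y ≤ (18 / 5 * y + ε * N) * (sing a / Real.log N ^ 2) := by
  apply small (fun N a => Even a → ∀ y : ℕ, y ≤ N →
      pairs a y ≤ (18 / 5 * y + ε * N) * (sing a / Real.log N ^ 2))
  obtain ⟨F, f, hSF⟩ := SFu
  obtain ⟨τ, hτ⟩ : ∃ τ : ℝ, τ = 5 / 9 - ε / 40 := ⟨_, rfl⟩
  have hτ1 : 1 / 2 ≤ τ := by rw [hτ]; linarith
  have hτ2 : τ < 5 / 9 := by rw [hτ]; linarith
  have hs : τ / (τ / 2) = 2 := by field_simp
  obtain ⟨B, C, N0, hC, H⟩ := goldT _ F f hSF τ (τ / 2) (ε / 4) hτ1 hτ2 (by linarith) (by linarith)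
    (by rw [hs, hSF.f2 2 (by norm_num) (by norm_num)]) (by linarith) (by linarith)
  have hF2 : F (τ / (τ / 2)) * (Real.exp (-Real.eulerMascheroniConstant) / (τ / 2)) = 2 / τ := by
    rw [hs, hSF.F3 2 (by norm_num) (by norm_num)]
    have := ee
    have hτ0 : τ ≠ 0 := by linarith
    field_simp
    linarith
  rw [hF2] at H
  have h2τ : 2 / τ ≤ 18 / 5 + ε / 4 := by
    rw [div_le_iff₀ (by linarith), hτ]
    nlinarith
  have e1 := Pool.Agent.H398R2.BV.ev_log (40 / ε) 3 (1 / 9) (by norm_num)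
  have e2 := Real.tendsto_log_atTop.eventually_ge_atTop 1
  obtain ⟨N1, H1⟩ := eventually_atTop.1 ((tendsto_natCast_atTop_atTop (R := ℝ)).eventually (e1.and e2))
  refine ⟨B, C, max (max N0 N1) 3, hC, fun N hN => ?_⟩
  obtain ⟨Ex, hEx, HE⟩ := H N ((le_max_left _ _).trans ((le_max_left _ _).trans hN))
  obtain ⟨f1, f2⟩ := H1 N ((le_max_right _ _).trans ((le_max_left _ _).trans hN))
  have hN3 : 3 ≤ N := (le_max_right _ _).trans hN
  have hNr : (3 : ℝ) ≤ N := by exact_mod_cast hN3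
  have hN0 : (0 : ℝ) < N := by linarith
  refine ⟨Ex, hEx, fun a ha haN haE hae y hyN => ?_⟩
  have h1 := (HE a ha haN hae haE y hyN).2
  have h2 := pairs_le_SG N a y (by omega) ha haN (τ / 2)
  obtain ⟨L, hL⟩ : ∃ L : ℝ, L = Real.log N := ⟨_, rfl⟩
  rw [← hL] at f1 f2 h1 h2 ⊢
  have hL0 : 0 < L := by linarith
  have hsa := sing_ge a
  have hyNr : (y : ℝ) ≤ N := by exact_mod_cast hyN
  have h3 : 2 * L + (2 * (N : ℝ) ^ (τ / 2) + 3) ≤ ε / 2 * N * (sing a / L ^ 2) := by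
    have g1 : (N : ℝ) ^ (τ / 2) ≤ (N : ℝ) ^ (5 / 18 : ℝ) :=
      Real.rpow_le_rpow_of_exponent_le (by linarith) (by linarith)
    have g2 : 1 ≤ (N : ℝ) ^ (5 / 18 : ℝ) := Real.one_le_rpow (by linarith) (by norm_num)
    have g3 : ε / 2 * N * (1 / L ^ 2) ≤ ε / 2 * N * (sing a / L ^ 2) := by
      apply mul_le_mul_of_nonneg_left _ (by positivity)
      exact div_le_div_of_nonneg_right hsa (by positivity)
    refine le_trans ?_ g3
    have g4 : 2 * L + (2 * (N : ℝ) ^ (τ / 2) + 3) ≤ 10 * (L * (N : ℝ) ^ (5 / 18 : ℝ)) := by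
      have g5 : L * 1 ≤ L * (N : ℝ) ^ (5 / 18 : ℝ) := mul_le_mul_of_nonneg_left g2 hL0.le
      have g6 : 1 * (N : ℝ) ^ (5 / 18 : ℝ) ≤ L * (N : ℝ) ^ (5 / 18 : ℝ) :=
        mul_le_mul_of_nonneg_right f2 (by positivity)
      linarith
    refine g4.trans ?_
    rw [mul_one_div, le_div_iff₀ (by positivity)]
    have g5 : 40 / ε * L ^ 3 ≤ (N : ℝ) ^ (1 / 9 : ℝ) := by
      rw [hL]; rw [hL] at f1; exact f1
    have g6 : (N : ℝ) = (N : ℝ) ^ (1 / 9 : ℝ) * ((N : ℝ) ^ (5 / 18 : ℝ) * (N : ℝ) ^ (11 / 18 : ℝ)) := by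
      rw [← Real.rpow_add hN0, ← Real.rpow_add hN0]
      norm_num
    have g7 : 1 ≤ (N : ℝ) ^ (11 / 18 : ℝ) := Real.one_le_rpow (by linarith) (by norm_num)
    have g8 : 40 / ε * L ^ 3 * (N : ℝ) ^ (5 / 18 : ℝ) ≤ N := by
      calc 40 / ε * L ^ 3 * (N : ℝ) ^ (5 / 18 : ℝ) ≤ (N : ℝ) ^ (1 / 9 : ℝ) * (N : ℝ) ^ (5 / 18 : ℝ) :=
            mul_le_mul_of_nonneg_right g5 (by positivity)
        _ ≤ (N : ℝ) ^ (1 / 9 : ℝ) * ((N : ℝ) ^ (5 / 18 : ℝ) * (N : ℝ) ^ (11 / 18 : ℝ)) := by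
            apply mul_le_mul_of_nonneg_left _ (by positivity)
            exact le_mul_of_one_le_right (by positivity) g7
        _ = N := g6.symm
    have g9 : 10 * (L * (N : ℝ) ^ (5 / 18 : ℝ)) * L ^ 2 =
        ε / 4 * (40 / ε * L ^ 3 * (N : ℝ) ^ (5 / 18 : ℝ)) := by
      field_simp
      ring
    rw [g9]
    have g10 : ε / 4 * (40 / ε * L ^ 3 * (N : ℝ) ^ (5 / 18 : ℝ)) ≤ ε / 4 * N :=
      mul_le_mul_of_nonneg_left g8 (by positivity)
    have g11 : 0 ≤ ε / 4 * N := by positivity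
    linarith
  obtain ⟨T, hT⟩ : ∃ T : ℝ, T = sing a / L ^ 2 := ⟨_, rfl⟩
  have hT0 : 0 < T := by rw [hT]; positivity
  rw [← hT] at h1 h3 ⊢
  have h4 : (2 / τ * y + ε / 4 * N) * T ≤ (18 / 5 * y + ε / 2 * N) * T := by
    apply mul_le_mul_of_nonneg_right _ hT0.le
    have h5 : 2 / τ * y ≤ (18 / 5 + ε / 4) * y := mul_le_mul_of_nonneg_right h2τ (Nat.cast_nonneg _)
    have h6 : ε / 4 * y ≤ ε / 4 * N := mul_le_mul_of_nonneg_left hyNr (by positivity)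
    linarith
  have h5 : (18 / 5 * y + ε * N) * T = (18 / 5 * y + ε / 2 * N) * T + ε / 2 * N * T := by ring
  rw [h5]
  linarith

/-- **almost primes**: no prime factor below `N ^ u`, `u < 5 / 18` -/
theorem lowerG (u ε : ℝ) (hu1 : 5 / 36 ≤ u) (hu2 : u < 5 / 18) (hε : 0 < ε) (hε1 : ε ≤ 1) :
    ∃ (B : ℕ) (C : ℝ), 0 < C ∧
    ∀ N : ℕ, 3 ≤ N → ∃ Ex : Finset ℕ, (Ex.card : ℝ) ≤ C * Real.log N ^ B ∧
    ∀ a : ℕ, 1 ≤ a → a ≤ N → a ∉ Ex → Even a → ∀ y : ℕ, y ≤ N →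
      (18 / 5 * Real.log (5 / (9 * u) - 1) * y - ε * N) * (sing a / Real.log N ^ 2) ≤
        almost a y ((N : ℝ) ^ u) := by
  apply small (fun N a => Even a → ∀ y : ℕ, y ≤ N →
      (18 / 5 * Real.log (5 / (9 * u) - 1) * y - ε * N) * (sing a / Real.log N ^ 2) ≤
        almost a y ((N : ℝ) ^ u))
  obtain ⟨F, f, hSF⟩ := SFu
  have hu0 : 0 < u := by linarith
  have h59 : 2 < 5 / 9 / u := by rw [lt_div_iff₀ hu0]; linarith
  have hlog0 : 5 / (9 * u) = 5 / 9 / u := by field_simp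
  rw [hlog0]
  -- the level
  obtain ⟨τ, t1, t2, t3, t4⟩ : ∃ τ : ℝ, 1 / 2 ≤ τ ∧ τ < 5 / 9 ∧ 2 * u ≤ τ ∧
      Real.log (5 / 9 / u - 1) - ε / 8 ≤ Real.log (τ / u - 1) := by
    have hc : ContinuousAt (fun τ : ℝ => Real.log (τ / u - 1)) (5 / 9) := by
      apply ContinuousAt.log
      · fun_prop
      · linarith
    have h1 := hc.eventually (lt_mem_nhds (show Real.log (5 / 9 / u - 1) - ε / 8 < Real.log (5 / 9 / u - 1) by linarith))
    have h2 : ∀ᶠ τ : ℝ in nhds (5 / 9), 1 / 2 < τ := lt_mem_nhds (by norm_num)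
    have h3 : ∀ᶠ τ : ℝ in nhds (5 / 9), 2 * u < τ := lt_mem_nhds (by linarith)
    have h4 := (h1.and (h2.and h3)).filter_mono (nhdsWithin_le_nhds (s := Set.Iio (5 / 9 : ℝ)))
    have h5 : ∀ᶠ τ : ℝ in nhdsWithin (5 / 9) (Set.Iio (5 / 9 : ℝ)), τ < 5 / 9 := self_mem_nhdsWithin
    obtain ⟨τ, ⟨g1, g2, g3⟩, g4⟩ := (h4.and h5).exists
    exact ⟨τ, g2.le, g4, g3.le, g1.le⟩
  have hs2 : 2 ≤ τ / u := by rw [le_div_iff₀ hu0]; linarith
  have hs4 : τ / u ≤ 4 := by rw [div_le_iff₀ hu0]; linarith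
  have hlt0 : 0 ≤ Real.log (τ / u - 1) := Real.log_nonneg (by linarith)
  have hfs := hSF.f4 (τ / u) hs2 hs4
  have hf0 : 0 ≤ f (τ / u) := by
    rw [hfs]
    positivity
  obtain ⟨B, C, N0, hC, H⟩ := goldT _ F f hSF τ u (ε / 4) t1 t2 hu0 (by linarith) hf0 (by linarith) (by linarith)
  have hF2 : f (τ / u) * (Real.exp (-Real.eulerMascheroniConstant) / u) = 2 / τ * Real.log (τ / u - 1) := by
    rw [hfs]
    have h1 := ee
    have hτ0 : τ ≠ 0 := by linarith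
    have hu0' : u ≠ 0 := hu0.ne'
    have h2 : 2 * Real.exp Real.eulerMascheroniConstant * Real.log (τ / u - 1) / (τ / u) *
        (Real.exp (-Real.eulerMascheroniConstant) / u) =
        (Real.exp Real.eulerMascheroniConstant * Real.exp (-Real.eulerMascheroniConstant)) *
          (2 / τ * Real.log (τ / u - 1)) := by
      field_simp
    rw [h2, h1, one_mul]
  rw [hF2] at H
  have h2τ : 18 / 5 * Real.log (5 / 9 / u - 1) - ε / 2 ≤ 2 / τ * Real.log (τ / u - 1) := by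
    have h1 : 18 / 5 ≤ 2 / τ := by rw [le_div_iff₀ (by linarith)]; linarith
    have h2 : 18 / 5 * Real.log (τ / u - 1) ≤ 2 / τ * Real.log (τ / u - 1) :=
      mul_le_mul_of_nonneg_right h1 hlt0
    linarith
  refine ⟨B, C, max N0 3, hC, fun N hN => ?_⟩
  obtain ⟨Ex, hEx, HE⟩ := H N ((le_max_left _ _).trans hN)
  have hN3 : 3 ≤ N := (le_max_right _ _).trans hN
  have hNr : (3 : ℝ) ≤ N := by exact_mod_cast hN3
  have hlN : 0 < Real.log N := Real.log_pos (by linarith)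
  refine ⟨Ex, hEx, fun a ha haN haE hae y hyN => ?_⟩
  have h1 := (HE a ha haN hae haE y hyN).1
  have h2 := SG_le_almost N a y (by omega) u (by linarith)
  refine le_trans ?_ (h1.trans h2)
  have hsa := sing_ge a
  apply mul_le_mul_of_nonneg_right _ (by positivity)
  have hyNr : (y : ℝ) ≤ N := by exact_mod_cast hyN
  have h3 := mul_le_mul_of_nonneg_right h2τ (Nat.cast_nonneg (α := ℝ) y)
  have h4 : ε / 2 * y ≤ ε / 2 * N := mul_le_mul_of_nonneg_left hyNr (by positivity)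
  have h5 : 0 ≤ ε / 4 * N := by positivity
  linarith

end Pool.Agent.Q148.FN
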