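import Pool.Agent.Q148.FN.Pt
import Pool.Agent.Q148.KJ.Norm
import Pool.Agent.Q148.BA.Dn
import Pool.Agent.W378.DC.MP

/-! The densities of the shifted primes for the linear sieve. -/

set_option autoImplicit false

namespace Pool.Agent.Q148.FN

open Finset Filter
open Pool.Agent.W23.DC
open Pool.Agent.Y882
open Pool.Agent.Q148.BA (gh gh_prime PP mem_PP V1 V_form sing_cmp P3 D3 D3_ge P3_pos card_big)
open Pool.Agent.Q148.KJ (PZ_mem mert)
open Pool.Agent.H560R3.GB (sing)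

/-- Mertens' formula for the densities -/
theorem mer_gh (ε₁ ζ η : ℝ) (hε₁ : 0 < ε₁) (hζ1 : ζ ≤ 1) (hη : 0 < η) : ∃ N0 : ℕ, ∀ N : ℕ, N0 ≤ N →
    ∀ a : ℕ, 1 ≤ a → a ≤ N → Mer (pr N ε₁ ζ) (tt N) (gh a) ε₁ ζ η := by
  classical
  obtain ⟨N1, H1⟩ := Pool.Agent.W378.DC.MP ε₁ (η / 2) hε₁ (by linarith)
  obtain ⟨K, hK⟩ : ∃ K : ℕ, K = ⌈2 / ε₁⌉₊ + 1 := ⟨_, rfl⟩
  have hK1 : 2 / ε₁ < K := by
    have := Nat.le_ceil (2 / ε₁)
    rw [hK]
    push_cast
    linarith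
  have hK0 : (0 : ℝ) ≤ K := Nat.cast_nonneg _
  have ev : ∀ᶠ N : ℕ in atTop, 4 + 2 * K / η ≤ (N : ℝ) ^ (ε₁ / 2) :=
    tendsto_natCast_atTop_atTop.eventually ((tendsto_rpow_atTop (by linarith)).eventually_ge_atTop _)
  obtain ⟨N2, H2⟩ := eventually_atTop.1 (ev.and (eventually_ge_atTop 3))
  refine ⟨max N1 N2, fun N hN a ha haN x y hx hxy hy => ?_⟩
  obtain ⟨e1, e2⟩ := H2 N ((le_max_right _ _).trans hN)
  have hNr : (3 : ℝ) ≤ N := by exact_mod_cast e2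
  have hN0 : (0 : ℝ) < N := by linarith
  have hx0 : 0 < x := lt_of_lt_of_le hε₁ hx
  have h1 := H1 N ((le_max_left _ _).trans hN) x y hx hxy (hy.trans hζ1)
  have hfil : (pr N ε₁ ζ).filter (fun p => x ≤ tt N p ∧ tt N p < y) = pr N x y := by
    ext p
    unfold pr
    rw [mem_filter, mem_filter, mem_filter]
    constructor
    · rintro ⟨⟨h2, h3, h4, h5⟩, h6, h7⟩
      exact ⟨h2, h3, h6, h7⟩
    · rintro ⟨h2, h3, h6, h7⟩
      exact ⟨⟨h2, h3, by linarith, by linarith⟩, h6, h7⟩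
  rw [hfil]
  -- the number of prime factors
  obtain ⟨z, hz⟩ : ∃ z : ℕ, z = ⌈(N : ℝ) ^ (ε₁ / 2)⌉₊ := ⟨_, rfl⟩
  have hzN : (N : ℝ) ^ (ε₁ / 2) ≤ z := by rw [hz]; exact Nat.le_ceil _
  have hz1 : 1 ≤ z := by
    have : (1 : ℝ) ≤ z := by
      have : (0 : ℝ) ≤ 2 * K / η := by positivity
      linarith
    exact_mod_cast this
  have hNe : (z : ℝ) < (N : ℝ) ^ ε₁ := by
    have h3 : (z : ℝ) < (N : ℝ) ^ (ε₁ / 2) + 1 := by rw [hz]; exact Nat.ceil_lt_add_one (by positivity)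
    have h4 : (N : ℝ) ^ ε₁ = (N : ℝ) ^ (ε₁ / 2) * (N : ℝ) ^ (ε₁ / 2) := by
      rw [← Real.rpow_add hN0]
      congr 1
      ring
    have : (0 : ℝ) ≤ 2 * K / η := by positivity
    rw [h4]
    nlinarith
  have hbig : a < z ^ K := by
    have h3 : (a : ℝ) < (z : ℝ) ^ K := by
      calc (a : ℝ) ≤ (N : ℝ) ^ (1 : ℝ) := by rw [Real.rpow_one]; exact_mod_cast haN
        _ < (N : ℝ) ^ ((ε₁ / 2) * K) := by
            apply Real.rpow_lt_rpow_of_exponent_lt (by linarith)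
            rw [div_lt_iff₀ hε₁] at hK1
            linarith
        _ = ((N : ℝ) ^ (ε₁ / 2)) ^ K := by rw [Real.rpow_mul hN0.le, Real.rpow_natCast]
        _ ≤ (z : ℝ) ^ K := pow_le_pow_left₀ (by positivity) hzN _
    exact_mod_cast h3
  have hcard := card_big a z K ha hbig hz1
  have hlarge : ∀ p ∈ pr N x y, p.Prime ∧ (N : ℝ) ^ ε₁ ≤ p := by
    intro p hp
    unfold pr at hp
    rw [mem_filter] at hp
    obtain ⟨_, h1, h2, h3⟩ := hp
    refine ⟨h1, ?_⟩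
    by_contra hc
    push Not at hc
    exact absurd ((tt_lt N p ε₁ (by omega) h1.pos).2 hc) (not_lt.2 (hx.trans h2))
  have hdiff : ∑ p ∈ pr N x y, gh a p = ∑ p ∈ pr N x y, 1 / ((p : ℝ) - 1) -
      ∑ p ∈ (pr N x y).filter (fun p => p ∣ a), 1 / ((p : ℝ) - 1) := by
    rw [sum_filter, ← sum_sub_distrib]
    apply sum_congr rfl
    intro p hp
    rw [gh_prime (hlarge p hp).1]
    split_ifs <;> ring
  have hsm : |∑ p ∈ (pr N x y).filter (fun p => p ∣ a), 1 / ((p : ℝ) - 1)| ≤ η / 2 := by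
    refine (abs_sum_le_sum_abs _ _).trans ?_
    have h3 : ∀ p ∈ (pr N x y).filter (fun p => p ∣ a), |1 / ((p : ℝ) - 1)| ≤
        1 / (2 * K / η + 1) := by
      intro p hp
      rw [mem_filter] at hp
      have h4 := (hlarge p hp.1).2
      have h5 : (4 + 2 * K / η : ℝ) ≤ p := by
        have : (z : ℝ) ≤ p := hNe.le.trans h4
        linarith
      have h6 : (0 : ℝ) ≤ 2 * K / η := by positivity
      rw [abs_of_nonneg (div_nonneg zero_le_one (by linarith))]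
      exact one_div_le_one_div_of_le (by linarith) (by linarith)
    calc ∑ p ∈ (pr N x y).filter (fun p => p ∣ a), |1 / ((p : ℝ) - 1)| ≤
        ∑ _p ∈ (pr N x y).filter (fun p => p ∣ a), 1 / (2 * K / η + 1) := sum_le_sum h3
      _ = ((pr N x y).filter (fun p => p ∣ a)).card * (1 / (2 * K / η + 1)) := by
          rw [sum_const, nsmul_eq_mul]
      _ ≤ K * (1 / (2 * K / η + 1)) := by
          apply mul_le_mul_of_nonneg_right _ (by positivity)
          have h4 : ((pr N x y).filter (fun p => p ∣ a)) ⊆ a.primeFactors.filter (fun p => z < p) := by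
            intro p hp
            rw [mem_filter] at hp
            obtain ⟨h5, h6⟩ := hlarge p hp.1
            rw [mem_filter, Nat.mem_primeFactors]
            refine ⟨⟨h5, hp.2, by omega⟩, ?_⟩
            have : (z : ℝ) < p := hNe.trans_le h6
            exact_mod_cast this
          exact_mod_cast (card_le_card h4).trans hcard
      _ ≤ η / 2 := by
          rw [mul_one_div, div_le_iff₀ (by positivity)]
          have h5 : η / 2 * (2 * K / η + 1) = K + η / 2 := by field_simp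
          rw [h5]
          linarith
  rw [hdiff]
  rw [abs_le] at h1 hsm ⊢
  constructor <;> linarith [h1.1, h1.2, hsm.1, hsm.2]

/-- the primes of the sieving range are an initial segment -/
theorem PZ_eq_PP (N : ℕ) (hN : 2 ≤ N) (ζ : ℝ) (hζ1 : ζ ≤ 1) : PZ N ζ = PP (⌈(N : ℝ) ^ ζ⌉₊ - 1) := by
  have hNr : (2 : ℝ) ≤ N := by exact_mod_cast hN
  have hp : 0 < ⌈(N : ℝ) ^ ζ⌉₊ := Nat.ceil_pos.2 (by positivity)
  ext p
  rw [mem_PP]
  constructor
  · intro h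
    obtain ⟨h1, h2, h3⟩ := PZ_mem N hN ζ p h
    refine ⟨h1, ?_⟩
    have : p < ⌈(N : ℝ) ^ ζ⌉₊ := Nat.lt_ceil.2 h3
    omega
  · rintro ⟨h1, h2⟩
    have h3 : (p : ℝ) < (N : ℝ) ^ ζ := by
      apply Nat.lt_ceil.1
      omega
    unfold PZ
    rw [mem_filter, mem_Icc]
    refine ⟨⟨h1.one_le, ?_⟩, h1, (tt_lt N p ζ hN h1.pos).2 h3⟩
    have h4 : (N : ℝ) ^ ζ ≤ N := by
      calc (N : ℝ) ^ ζ ≤ (N : ℝ) ^ (1 : ℝ) := Real.rpow_le_rpow_of_exponent_le (by linarith) hζ1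
        _ = N := Real.rpow_one _
    have : (p : ℝ) ≤ N := by linarith
    exact_mod_cast this

/-- the sieve product -/
theorem V_gh (ζ κ : ℝ) (hζ : 0 < ζ) (hζ1 : ζ ≤ 1) (hκ : 0 < κ) (hκ1 : κ ≤ 1) : ∃ N0 : ℕ, ∀ N : ℕ, N0 ≤ N →
    ∀ a : ℕ, 1 ≤ a → a ≤ N → Even a →
      (1 - κ) * (sing a * Real.exp (-Real.eulerMascheroniConstant) / (ζ * Real.log N)) ≤
        ∏ p ∈ PZ N ζ, (1 - gh a p) ∧
      ∏ p ∈ PZ N ζ, (1 - gh a p) ≤
        (1 + κ) * (sing a * Real.exp (-Real.eulerMascheroniConstant) / (ζ * Real.log N)) := by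
  classical
  obtain ⟨N1, H1⟩ := mert ζ (κ / 4) hζ hζ1 (by linarith)
  obtain ⟨K, hK⟩ : ∃ K : ℕ, K = ⌈2 / ζ⌉₊ + 1 := ⟨_, rfl⟩
  have hK1 : 2 / ζ < K := by
    have := Nat.le_ceil (2 / ζ)
    rw [hK]
    push_cast
    linarith
  have t1 : Tendsto (fun z : ℝ => (1 + 1 / (z - 2)) ^ K) atTop (nhds ((1 + 0) ^ K)) := by
    apply Tendsto.pow
    apply Tendsto.const_add
    exact (tendsto_const_nhds (x := (1 : ℝ))).div_atTop (tendsto_atTop_add_const_right _ (-2) tendsto_id)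
  rw [add_zero, one_pow] at t1
  have e1 := t1.eventually_le_const (show (1 : ℝ) < 1 + κ / 4 by linarith)
  have e2 : ∀ᶠ z : ℝ in atTop, 8 / κ + 4 ≤ z := eventually_ge_atTop _
  have t2 : Tendsto (fun N : ℝ => N ^ ζ - 1) atTop atTop :=
    tendsto_atTop_add_const_right _ (-1) (tendsto_rpow_atTop hζ)
  obtain ⟨Z, hZ⟩ := eventually_atTop.1 (e1.and e2)
  have e3 := t2.eventually_ge_atTop Z
  have e4 : ∀ᶠ N : ℝ in atTop, 4 ≤ N ^ (ζ / 2) := (tendsto_rpow_atTop (by linarith)).eventually_ge_atTop _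
  obtain ⟨N2, H2⟩ := eventually_atTop.1 ((tendsto_natCast_atTop_atTop (R := ℝ)).eventually (e3.and e4))
  refine ⟨max (max N1 N2) 3, fun N hN a ha haN hae => ?_⟩
  obtain ⟨f3, f4⟩ := H2 N ((le_max_right _ _).trans ((le_max_left _ _).trans hN))
  have hN3 : 3 ≤ N := (le_max_right _ _).trans hN
  have hNr : (3 : ℝ) ≤ N := by exact_mod_cast hN3
  have hN0 : (0 : ℝ) < N := by linarith
  have hlN : 0 < Real.log N := Real.log_pos (by linarith)
  obtain ⟨z, hz⟩ : ∃ z : ℕ, z = ⌈(N : ℝ) ^ ζ⌉₊ - 1 := ⟨_, rfl⟩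
  have hcp : 0 < ⌈(N : ℝ) ^ ζ⌉₊ := Nat.ceil_pos.2 (by positivity)
  have hzr : (N : ℝ) ^ ζ - 1 ≤ z := by
    have h1 := Nat.le_ceil ((N : ℝ) ^ ζ)
    have h2 : (z : ℝ) = (⌈(N : ℝ) ^ ζ⌉₊ : ℝ) - 1 := by
      rw [hz, Nat.cast_sub hcp]
      norm_num
    linarith
  obtain ⟨g1, g2⟩ := hZ z (f3.trans hzr)
  have hκ8 : 0 < 8 / κ := by positivity
  have hz4 : (4 : ℝ) ≤ z := by linarith
  have hz3 : 3 ≤ z := by
    have : (3 : ℝ) ≤ z := by linarith
    exact_mod_cast this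
  have hzz : (N : ℝ) ^ (ζ / 2) ≤ z := by
    refine le_trans ?_ hzr
    have h4 : (N : ℝ) ^ ζ = (N : ℝ) ^ (ζ / 2) * (N : ℝ) ^ (ζ / 2) := by
      rw [← Real.rpow_add hN0]
      congr 1
      ring
    rw [h4]
    nlinarith
  have hbig : a < z ^ K := by
    have h3 : (a : ℝ) < (z : ℝ) ^ K := by
      calc (a : ℝ) ≤ (N : ℝ) ^ (1 : ℝ) := by rw [Real.rpow_one]; exact_mod_cast haN
        _ < (N : ℝ) ^ ((ζ / 2) * K) := by
            apply Real.rpow_lt_rpow_of_exponent_lt (by linarith)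
            rw [div_lt_iff₀ hζ] at hK1
            linarith
        _ = ((N : ℝ) ^ (ζ / 2)) ^ K := by rw [Real.rpow_mul hN0.le, Real.rpow_natCast]
        _ ≤ (z : ℝ) ^ K := pow_le_pow_left₀ (by positivity) hzz _
    exact_mod_cast h3
  obtain ⟨c1, c2⟩ := sing_cmp a z K ha hbig hz3
  obtain ⟨m1, m2⟩ := H1 N ((le_max_left _ _).trans ((le_max_left _ _).trans hN))
  have hPZ := PZ_eq_PP N (by omega) ζ hζ1
  rw [← hz] at hPZ
  rw [hPZ] at m1 m2 ⊢
  rw [V_form a z hae (by omega)]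
  have hV : V1 z = ∏ p ∈ PP z, (1 - 1 / (p : ℝ)) := rfl
  rw [← hV] at m1 m2
  obtain ⟨Q, hQ⟩ : ∃ Q, Q = 2 * P3 z * D3 a z := ⟨_, rfl⟩
  rw [← hQ] at c1 c2 ⊢
  obtain ⟨m, hm⟩ : ∃ m, m = Real.exp (-Real.eulerMascheroniConstant) / (ζ * Real.log N) := ⟨_, rfl⟩
  rw [← hm] at m1 m2
  have hm0 : 0 < m := by rw [hm]; positivity
  have e : sing a * Real.exp (-Real.eulerMascheroniConstant) / (ζ * Real.log N) = sing a * m := by
    rw [hm]; ring
  rw [e]
  have hQ0 : 0 ≤ Q := by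
    rw [hQ]
    have := P3_pos z
    have := D3_ge a z
    positivity
  have hs0 : 0 ≤ sing a := le_trans (by
    apply mul_nonneg hQ0
    rw [sub_nonneg, div_le_one (by linarith)]
    linarith) c1
  have hQ1 : (1 - κ / 4) * sing a ≤ Q := by
    have h1 : sing a ≤ Q * (1 + κ / 4) := c2.trans (mul_le_mul_of_nonneg_left g1 hQ0)
    have h2 : (1 - κ / 4) * sing a ≤ (1 - κ / 4) * (Q * (1 + κ / 4)) :=
      mul_le_mul_of_nonneg_left h1 (by linarith)
    have h3 : (1 - κ / 4) * (Q * (1 + κ / 4)) = Q - κ ^ 2 / 16 * Q := by ring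
    have h4 : 0 ≤ κ ^ 2 / 16 * Q := by positivity
    linarith
  have hQ2 : Q ≤ (1 + κ / 4) * sing a := by
    have h1 : 1 / (z : ℝ) ≤ κ / 8 := by
      rw [div_le_iff₀ (by linarith)]
      have h2 : κ / 8 * (8 / κ + 4) ≤ κ / 8 * z := mul_le_mul_of_nonneg_left g2 (by positivity)
      have h3 : κ / 8 * (8 / κ + 4) = 1 + κ / 2 := by field_simp; ring
      linarith
    have h2 : Q * (1 - κ / 8) ≤ sing a := by
      refine le_trans ?_ c1
      apply mul_le_mul_of_nonneg_left _ hQ0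
      linarith
    have h3 : (1 + κ / 4) * (Q * (1 - κ / 8)) ≤ (1 + κ / 4) * sing a :=
      mul_le_mul_of_nonneg_left h2 (by linarith)
    nlinarith
  have hV0 : 0 ≤ V1 z := le_trans (by
    apply mul_nonneg _ hm0.le
    linarith) m1
  constructor
  · calc (1 - κ) * (sing a * m) ≤ ((1 - κ / 4) * m) * ((1 - κ / 4) * sing a) := by
          have h1 : (1 - κ) ≤ (1 - κ / 4) * (1 - κ / 4) := by nlinarith
          have h2 := mul_le_mul_of_nonneg_right h1 (mul_nonneg hs0 hm0.le)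
          calc (1 - κ) * (sing a * m) ≤ (1 - κ / 4) * (1 - κ / 4) * (sing a * m) := h2
            _ = _ := by ring
      _ ≤ V1 z * Q := by
          apply mul_le_mul m1 hQ1 (mul_nonneg (by linarith) hs0) hV0
  · calc V1 z * Q ≤ ((1 + κ / 4) * m) * ((1 + κ / 4) * sing a) := by
          apply mul_le_mul m2 hQ2 hQ0 (by positivity)
      _ = ((1 + κ / 4) * (1 + κ / 4)) * (sing a * m) := by ring
      _ ≤ (1 + κ) * (sing a * m) := by
          apply mul_le_mul_of_nonneg_right _ (mul_nonneg hs0 hm0.le)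
          nlinarith

end Pool.Agent.Q148.FN
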