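import Pool.Agent.Q148.FN.Core
import Pool.Agent.H442R2.FX.AsmY

/-! The moduli of the linear sieve of level `N^τ`, `τ < 5/9`, are factorable. -/

set_option autoImplicit false

open Finset Filter

namespace Pool.Agent.Q148.FN

open Pool.Agent.W23.DC
open Pool.Agent.Y882
open Pool.Agent.H442R2.FX
open Pool.Agent.H300R2.WEH

open Classical in
/-- the moduli at the level `θ` -/
noncomputable def SS (θ δ : ℝ) (N : ℕ) : Finset ℕ :=
  (Icc 1 ⌊(N : ℝ) ^ θ⌋₊).filter (fun d => d ≤ ⌊(N : ℝ) ^ (49 / 100 : ℝ)⌋₊ ∨ FacD N θ δ d)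

/-- the sizes -/
theorem sz_eq (N e : ℕ) (he : Squarefree e) (h0 : e ≠ 0) : sz (tt N) e = Real.log e / Real.log N := by
  unfold sz tt
  rw [← sum_div]
  congr 1
  have h1 := Nat.prod_primeFactors_of_squarefree he
  have h2 : (e : ℝ) = ∏ p ∈ e.primeFactors, (p : ℝ) := by
    rw [← Nat.cast_prod, h1]
  conv_rhs => rw [h2]
  rw [Real.log_prod]
  intro p hp
  have := (Nat.prime_of_mem_primeFactors hp).ne_zero
  exact_mod_cast this

/-- the grid point above `x` -/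
theorem grid (κ x : ℝ) (hκ : 0 < κ) : ∃ i : ℕ, x ≤ 1 / 2 + i * κ ∧ (i = 0 ∨ 1 / 2 + i * κ < x + κ) ∧
    i ≤ ⌈(x - 1 / 2) / κ⌉₊ := by
  refine ⟨⌈(x - 1 / 2) / κ⌉₊, ?_, ?_, le_rfl⟩
  · have h1 := Nat.le_ceil ((x - 1 / 2) / κ)
    rw [div_le_iff₀ hκ] at h1
    linarith
  · rcases le_or_gt x (1 / 2) with h | h
    · left
      rw [Nat.ceil_eq_zero]
      exact div_nonpos_of_nonpos_of_nonneg (by linarith) hκ.le
    · right
      have h1 := Nat.ceil_lt_add_one (show 0 ≤ (x - 1 / 2) / κ from div_nonneg (by linarith) hκ.le)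
      have h2 := mul_lt_mul_of_pos_right h1 hκ
      rw [add_mul, div_mul_cancel₀ _ hκ.ne', one_mul] at h2
      linarith

/-- **factorability** -/
theorem fac_mem (τ : ℝ) (hτ1 : 1 / 2 ≤ τ) (hτ2 : τ < 5 / 9) (N : ℕ) (hN : 2 ≤ N) (d e : ℕ)
    (hde : Squarefree (d * e)) (hd : (d : ℝ) ≤ (N : ℝ) ^ ((5 - 9 * τ) / 20)) (he : WFac (tt N) τ e) :
    ∃ i : ℕ, i ≤ ⌈(τ + (5 - 9 * τ) / 20 - 1 / 2) / ((5 - 9 * τ) / 20)⌉₊ ∧
      d * e ∈ SS (1 / 2 + i * ((5 - 9 * τ) / 20)) ((5 - 9 * τ) / 20) N := by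
  classical
  obtain ⟨κ, hκd⟩ : ∃ κ : ℝ, κ = (5 - 9 * τ) / 20 := ⟨_, rfl⟩
  rw [← hκd] at hd ⊢
  have hκ : 0 < κ := by rw [hκd]; linarith
  have hNr : (2 : ℝ) ≤ N := by exact_mod_cast hN
  have hN0 : (0 : ℝ) < N := by linarith
  have hL : 0 < Real.log N := Real.log_pos (by linarith)
  have hde0 : d * e ≠ 0 := hde.ne_zero
  have hd0 : d ≠ 0 := left_ne_zero_of_mul hde0
  have he0 : e ≠ 0 := right_ne_zero_of_mul hde0
  have hds : Squarefree d := hde.squarefree_of_dvd (dvd_mul_right d e)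
  have hes : Squarefree e := hde.squarefree_of_dvd (dvd_mul_left e d)
  have hd0' : (0 : ℝ) < d := by exact_mod_cast Nat.pos_of_ne_zero hd0
  have he0' : (0 : ℝ) < e := by exact_mod_cast Nat.pos_of_ne_zero he0
  have hlog : ∀ (m : ℕ) (c : ℝ), 0 < m → ((m : ℝ) ≤ (N : ℝ) ^ c ↔ Real.log m / Real.log N ≤ c) := by
    intro m c hm
    have hm0 : (0 : ℝ) < m := by exact_mod_cast hm
    rw [div_le_iff₀ hL, ← Real.log_rpow hN0, Real.log_le_log_iff hm0 (by positivity)]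
  have hlog2 : ∀ (m : ℕ) (c : ℝ), 0 < m → ((N : ℝ) ^ c ≤ m ↔ c ≤ Real.log m / Real.log N) := by
    intro m c hm
    have hm0 : (0 : ℝ) < m := by exact_mod_cast hm
    rw [le_div_iff₀ hL, ← Real.log_rpow hN0, Real.log_le_log_iff (by positivity) hm0]
  obtain ⟨x, hx⟩ : ∃ x : ℝ, x = Real.log ((d * e : ℕ) : ℝ) / Real.log N := ⟨_, rfl⟩
  have hxde : x = Real.log d / Real.log N + Real.log e / Real.log N := by
    rw [hx, Nat.cast_mul, Real.log_mul hd0'.ne' he0'.ne', add_div]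
  have h1 : Real.log d / Real.log N ≤ κ := (hlog d κ (Nat.pos_of_ne_zero hd0)).1 hd
  have hsplit : ∀ u v : ℕ, u * v = e → sz (tt N) u = Real.log u / Real.log N ∧
      sz (tt N) v = Real.log v / Real.log N ∧ 0 < u ∧
      Real.log e / Real.log N = Real.log u / Real.log N + Real.log v / Real.log N := by
    intro u v huv
    have hu0 : u ≠ 0 := by rintro rfl; rw [zero_mul] at huv; exact he0 huv.symm
    have hv0 : v ≠ 0 := by rintro rfl; rw [mul_zero] at huv; exact he0 huv.symm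
    have hu : Squarefree u := hes.squarefree_of_dvd ⟨v, huv.symm⟩
    have hv : Squarefree v := hes.squarefree_of_dvd ⟨u, by rw [mul_comm, huv]⟩
    refine ⟨sz_eq N u hu hu0, sz_eq N v hv hv0, Nat.pos_of_ne_zero hu0, ?_⟩
    have : (e : ℝ) = u * v := by rw [← Nat.cast_mul, huv]
    rw [this, Real.log_mul (by exact_mod_cast hu0) (by exact_mod_cast hv0), add_div]
  have h2 : Real.log e / Real.log N ≤ τ := by
    obtain ⟨u, v, huv, hu, hv⟩ := he τ 0 (by linarith) le_rfl (by ring)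
    obtain ⟨s1, s2, _, s3⟩ := hsplit u v huv
    rw [s3, ← s1, ← s2]
    linarith
  have hxτ : x ≤ τ + κ := by rw [hxde]; linarith
  obtain ⟨i, g1, g2, g3⟩ := grid κ x hκ
  obtain ⟨θ, hθ⟩ : ∃ θ : ℝ, θ = 1 / 2 + i * κ := ⟨_, rfl⟩
  have hi0 : (0 : ℝ) ≤ i * κ := by positivity
  refine ⟨i, g3.trans (Nat.ceil_mono ?_), ?_⟩
  · apply div_le_div_of_nonneg_right _ hκ.le
    linarith
  rw [← hθ] at g1 g2 ⊢
  unfold SS
  rw [mem_filter, mem_Icc]
  have hpos : 0 < d * e := Nat.pos_of_ne_zero hde0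
  have hdeθ : ((d * e : ℕ) : ℝ) ≤ (N : ℝ) ^ θ := (hlog _ θ hpos).2 (by rw [← hx]; exact g1)
  refine ⟨⟨hpos, Nat.le_floor hdeθ⟩, ?_⟩
  by_cases hsm : d * e ≤ ⌊(N : ℝ) ^ (49 / 100 : ℝ)⌋₊
  · exact Or.inl hsm
  right
  have hx49 : 49 / 100 ≤ x := by
    rw [hx]
    apply (hlog2 _ _ hpos).1
    by_contra hc
    push Not at hc
    exact hsm (Nat.le_floor hc.le)
  -- the parameter
  have hθlo : 1 / 2 ≤ θ := by rw [hθ]; linarith
  have hθhi : θ ≤ τ + 2 * κ := by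
    rcases g2 with h | h
    · rw [hθ, h]
      push_cast
      linarith
    · linarith
  obtain ⟨u, v, huv, hu, hv⟩ := he (4 - 7 * θ - κ) (τ - (4 - 7 * θ - κ)) (by linarith) (by linarith) (by ring)
  obtain ⟨s1, s2, hupos, s3⟩ := hsplit u v huv
  rw [s1] at hu
  rw [s2] at hv
  refine ⟨hde, u, Dvd.dvd.mul_left ⟨v, huv.symm⟩ d, ?_, ?_⟩
  · apply (hlog2 u _ hupos).2
    have h3 : x - κ - (τ - (4 - 7 * θ - κ)) ≤ Real.log u / Real.log N := by
      rw [hxde, s3]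
      linarith
    refine le_trans ?_ h3
    rcases g2 with h | h
    · have hθ2 : θ = 1 / 2 := by rw [hθ, h]; push_cast; ring
      rw [hθ2]
      linarith
    · linarith
  · exact (hlog u _ hupos).2 hu

end Pool.Agent.Q148.FN
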