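import Pool.Agent.Q148.FN.Fac
import Pool.Agent.Q148.FN.Dens
import Pool.Agent.W23.UBd

/-! The linear sieve at every level `τ < 5/9` for the numbers `|p - a|`, for all but `(log N)^B` of the `a ≤ N`. -/

set_option autoImplicit false

namespace Pool.Agent.Q148.FN

open Finset Filter
open Pool.Agent.W23.DC
open Pool.Agent.Y882
open Pool.Agent.H442R2.FX
open Pool.Agent.H300R2.WEH
open Pool.Agent.Q148.BA (gh gh_prime gh_mul gh_one PP mem_PP card_pf)
open Pool.Agent.Q148.KJ (PZ_mem)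

/-- few exceptions for the finitely many sets of moduli -/
theorem levelSS (τ : ℝ) (hτ1 : 1 / 2 ≤ τ) (hτ2 : τ < 5 / 9) (U : ℕ) : ∃ (M B : ℕ) (C : ℝ), 0 < C ∧
    M = ⌈(τ + (5 - 9 * τ) / 20 - 1 / 2) / ((5 - 9 * τ) / 20)⌉₊ ∧ ∀ N : ℕ, 3 ≤ N →
    ∃ Ex : Finset ℕ, (Ex.card : ℝ) ≤ C * Real.log N ^ B ∧ ∀ a : ℕ, 1 ≤ a → a ≤ N → a ∉ Ex → ∀ i ≤ M,
      ∑ d ∈ (SS (1 / 2 + i * ((5 - 9 * τ) / 20)) ((5 - 9 * τ) / 20) N).filter (fun d => Nat.Coprime a d),
        errMax N d a ≤ N / Real.log N ^ U := by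
  classical
  obtain ⟨κ, hκd⟩ : ∃ κ : ℝ, κ = (5 - 9 * τ) / 20 := ⟨_, rfl⟩
  rw [← hκd]
  have hκ : 0 < κ := by rw [hκd]; linarith
  obtain ⟨M, hM⟩ : ∃ M : ℕ, M = ⌈(τ + κ - 1 / 2) / κ⌉₊ := ⟨_, rfl⟩
  have hMκ : M * κ < τ + 2 * κ - 1 / 2 := by
    have h1 := Nat.ceil_lt_add_one (show 0 ≤ (τ + κ - 1 / 2) / κ from div_nonneg (by linarith) hκ.le)
    rw [← hM] at h1
    have h2 := mul_lt_mul_of_pos_right h1 hκ
    rw [add_mul, div_mul_cancel₀ _ hκ.ne', one_mul] at h2
    linarith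
  have key : ∀ i : ℕ, ∃ (B : ℕ) (C : ℝ), 0 < C ∧ (i ≤ M → ∀ N : ℕ, 3 ≤ N →
      (((Icc 1 N).filter (fun a : ℕ => (N : ℝ) / Real.log N ^ U <
        ∑ d ∈ (SS (1 / 2 + i * κ) κ N).filter (fun d => Nat.Coprime a d), errMax N d a)).card : ℝ) ≤
        C * Real.log N ^ B) := by
    intro i
    by_cases hi : i ≤ M
    · have hi' : (i : ℝ) ≤ M := by exact_mod_cast hi
      have h1 : (1 : ℝ) / 2 ≤ 1 / 2 + i * κ := by
        have : 0 ≤ i * κ := by positivity
        linarith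
      have h2 : 1 / 2 + i * κ < 5 / 9 := by
        have : i * κ ≤ M * κ := mul_le_mul_of_nonneg_right hi' hκ.le
        linarith
      have hS1 : ∀ N, 3 ≤ N → SS (1 / 2 + i * κ) κ N ⊆ Icc 1 ⌊(N : ℝ) ^ (1 / 2 + i * κ)⌋₊ :=
        fun N _ => filter_subset _ _
      have hS2 : ∀ N, 3 ≤ N → ∀ d ∈ SS (1 / 2 + i * κ) κ N, ⌊(N : ℝ) ^ (49 / 100 : ℝ)⌋₊ < d →
          FacD N (1 / 2 + i * κ) κ d := by
        intro N _ d hd hlt
        unfold SS at hd
        rw [mem_filter] at hd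
        rcases hd.2 with h | h
        · omega
        · exact h
      have hfin := finalS CF_thm (1 / 2 + i * κ) κ h1 h2 hκ _ hS1 hS2
      obtain ⟨B, C, hC, H⟩ := weightedS (1 / 2 + i * κ) h2 _ hS1 hfin 1 le_rfl U
      refine ⟨B, C, hC, fun _ N hN => ?_⟩
      have := H N hN
      simp only [one_pow, one_mul] at this
      exact this
    · exact ⟨0, 1, one_pos, fun h => absurd h hi⟩
  choose B C hC H using key
  refine ⟨M, ∑ i ∈ range (M + 1), B i, ∑ i ∈ range (M + 1), C i, ?_, hM, ?_⟩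
  · exact sum_pos (fun i _ => hC i) ⟨0, by simp⟩
  intro N hN
  have hNr : (3 : ℝ) ≤ N := by exact_mod_cast hN
  have hlN : 1 ≤ Real.log N := by
    rw [Real.le_log_iff_exp_le (by linarith)]
    linarith [Real.exp_one_lt_d9]
  refine ⟨(range (M + 1)).biUnion (fun i => (Icc 1 N).filter (fun a : ℕ => (N : ℝ) / Real.log N ^ U <
      ∑ d ∈ (SS (1 / 2 + i * κ) κ N).filter (fun d => Nat.Coprime a d), errMax N d a)), ?_, ?_⟩
  · calc ((((range (M + 1)).biUnion (fun i => (Icc 1 N).filter (fun a : ℕ => (N : ℝ) / Real.log N ^ U <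
        ∑ d ∈ (SS (1 / 2 + i * κ) κ N).filter (fun d => Nat.Coprime a d), errMax N d a))).card : ℕ) : ℝ) ≤
        ∑ i ∈ range (M + 1), ((((Icc 1 N).filter (fun a : ℕ => (N : ℝ) / Real.log N ^ U <
        ∑ d ∈ (SS (1 / 2 + i * κ) κ N).filter (fun d => Nat.Coprime a d), errMax N d a)).card : ℕ) : ℝ) := by
          exact_mod_cast card_biUnion_le
      _ ≤ ∑ i ∈ range (M + 1), C i * Real.log N ^ (∑ i ∈ range (M + 1), B i) := by
          apply sum_le_sum
          intro i hi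
          rw [mem_range] at hi
          refine (H i (by omega) N hN).trans ?_
          apply mul_le_mul_of_nonneg_left _ (hC i).le
          apply pow_le_pow_right₀ hlN
          exact single_le_sum (f := fun i => B i) (fun _ _ => Nat.zero_le _) (mem_range.2 hi)
      _ = _ := by rw [sum_mul]
  · intro a ha haN haE i hi
    by_contra hc
    push Not at hc
    apply haE
    rw [mem_biUnion]
    exact ⟨i, mem_range.2 (by omega), mem_filter.2 ⟨mem_Icc.2 ⟨ha, haN⟩, hc⟩⟩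

theorem dvd_dist (d p a : ℕ) : d ∣ Nat.dist p a ↔ p ≡ a [MOD d] := by
  rcases le_total p a with h | h
  · rw [Nat.dist_eq_sub_of_le h, Nat.modEq_iff_dvd' h]
  · rw [Nat.dist_comm, Nat.dist_eq_sub_of_le h, ← Nat.modEq_iff_dvd' h]
    exact ⟨fun h => h.symm, fun h => h.symm⟩

open Classical in
/-- the primes `p ≤ y` which do not divide `a` -/
noncomputable def Om (a y : ℕ) : Finset ℕ := (PP y).filter (fun p => ¬ p ∣ a)

/-- `li(y)` -/
noncomputable def li (y : ℝ) : ℝ := ∫ t in (2 : ℝ)..y, 1 / Real.log t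

/-- the error for one modulus -/
theorem err1 (N a y d : ℕ) (hN : 2 ≤ N) (ha : 1 ≤ a) (haN : a ≤ N) (hy : 2 ≤ y) (hyN : y ≤ N) :
    |(((Om a y).filter (fun p => d ∣ Nat.dist p a)).card : ℝ) - li y * gh a d| ≤
      if Nat.Coprime a d then errMax N d a + 2 * Real.log N else 0 := by
  classical
  have hNr : (2 : ℝ) ≤ N := by exact_mod_cast hN
  split_ifs with hc
  · have h1 : gh a d = 1 / (d.totient : ℝ) := by
      unfold gh
      rw [if_pos hc.symm]
    have hyr : (2 : ℝ) ≤ y := by exact_mod_cast hy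
    have hyNr : (y : ℝ) ≤ N := by exact_mod_cast hyN
    have h2 := Pool.Agent.W23.UB.err_le_errMax (N := N) (d := d) (l := a) hyr hyNr
    unfold err piR at h2
    rw [Nat.floor_natCast] at h2
    have h3 : ((Icc 1 y).filter (fun p => p.Prime ∧ p ≡ a [MOD d])).card =
        ((Om a y).filter (fun p => d ∣ Nat.dist p a)).card +
          ((PP y).filter (fun p => p ∣ a ∧ p ≡ a [MOD d])).card := by
      rw [← card_union_of_disjoint]
      · congr 1
        ext p
        unfold Om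
        rw [mem_union, mem_filter, mem_filter, mem_filter, mem_filter, mem_Icc, mem_PP, dvd_dist]
        constructor
        · rintro ⟨⟨h4, h5⟩, h6, h7⟩
          by_cases h8 : p ∣ a
          · exact Or.inr ⟨⟨h6, h5⟩, h8, h7⟩
          · exact Or.inl ⟨⟨⟨h6, h5⟩, h8⟩, h7⟩
        · rintro (⟨⟨⟨h4, h5⟩, h6⟩, h7⟩ | ⟨⟨h4, h5⟩, h6, h7⟩)
          · exact ⟨⟨h4.one_le, h5⟩, h4, h7⟩
          · exact ⟨⟨h4.one_le, h5⟩, h4, h7⟩
      · rw [disjoint_left]
        intro p hp hq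
        unfold Om at hp
        rw [mem_filter, mem_filter] at hp
        rw [mem_filter] at hq
        exact hp.1.2 hq.2.1
    have h4 : (((PP y).filter (fun p => p ∣ a ∧ p ≡ a [MOD d])).card : ℝ) ≤ 2 * Real.log N := by
      refine le_trans ?_ (card_pf a N ha haN)
      have h5 : (PP y).filter (fun p => p ∣ a ∧ p ≡ a [MOD d]) ⊆ a.primeFactors := by
        intro p hp
        rw [mem_filter, mem_PP] at hp
        rw [Nat.mem_primeFactors]
        exact ⟨hp.1.1, hp.2.1, by omega⟩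
      exact_mod_cast card_le_card h5
    rw [h3] at h2
    push_cast at h2
    rw [h1, mul_one_div]
    have h5 : (0 : ℝ) ≤ (((PP y).filter (fun p => p ∣ a ∧ p ≡ a [MOD d])).card : ℝ) := Nat.cast_nonneg _
    unfold li
    rw [abs_le] at h2 ⊢
    constructor <;> linarith [h2.1, h2.2]
  · have h1 : gh a d = 0 := by
      unfold gh
      rw [if_neg (fun h => hc h.symm)]
    have h2 : (Om a y).filter (fun p => d ∣ Nat.dist p a) = ∅ := by
      rw [filter_eq_empty_iff]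
      intro p hp hdp
      unfold Om at hp
      rw [mem_filter, mem_PP] at hp
      obtain ⟨q, hq, hq2⟩ := Nat.exists_prime_and_dvd (n := Nat.gcd a d) (by
        intro h
        exact hc h)
      have hqa : q ∣ a := hq2.trans (Nat.gcd_dvd_left _ _)
      have hqd : q ∣ d := hq2.trans (Nat.gcd_dvd_right _ _)
      have h3 := (dvd_dist q p a).1 (hqd.trans hdp)
      have h4 : q ∣ p := (Nat.ModEq.dvd_iff h3 dvd_rfl).2 hqa
      have h5 := (Nat.prime_dvd_prime_iff_eq hq hp.1.1).1 h4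
      rw [← h5] at hp
      exact hp.2 hqa
    rw [h2, h1]
    simp

/-- products over sets of primes -/
theorem gh_prod (a : ℕ) (T : Finset ℕ) (hT : ∀ p ∈ T, p.Prime) : gh a (∏ p ∈ T, p) = ∏ p ∈ T, gh a p := by
  classical
  induction T using Finset.induction_on with
  | empty => simp [gh_one]
  | insert q T hq ih =>
    rw [prod_insert hq, prod_insert hq, gh_mul, ih fun p hp => hT p (mem_insert_of_mem hp)]
    apply Nat.Coprime.prod_right
    intro p hp
    rw [Nat.coprime_primes (hT q (mem_insert_self _ _)) (hT p (mem_insert_of_mem hp))]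
    rintro rfl
    exact hq hp

open Classical in
theorem sum_biUnion_le' (I : Finset ℕ) (S : ℕ → Finset ℕ) (r : ℕ → ℝ) (hr : ∀ d, 0 ≤ r d) :
    ∑ d ∈ I.biUnion S, r d ≤ ∑ i ∈ I, ∑ d ∈ S i, r d := by
  induction I using Finset.induction_on with
  | empty => simp
  | insert i I hi ih =>
    rw [biUnion_insert, sum_insert hi]
    have h1 : ∑ d ∈ S i ∪ I.biUnion S, r d + ∑ d ∈ S i ∩ I.biUnion S, r d =
        ∑ d ∈ S i, r d + ∑ d ∈ I.biUnion S, r d := sum_union_inter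
    have h2 : 0 ≤ ∑ d ∈ S i ∩ I.biUnion S, r d := sum_nonneg fun d _ => hr d
    linarith

/-- **the error term** -/
theorem errG (τ : ℝ) (hτ1 : 1 / 2 ≤ τ) (hτ2 : τ < 5 / 9) (M : ℕ)
    (hM : M = ⌈(τ + (5 - 9 * τ) / 20 - 1 / 2) / ((5 - 9 * τ) / 20)⌉₊) (N a y : ℕ) (hN : 2 ≤ N) (ha : 1 ≤ a)
    (haN : a ≤ N) (hy : 2 ≤ y) (hyN : y ≤ N) (ζ ε₁ R : ℝ)
    (hR : ∀ i ≤ M,
      ∑ d ∈ (SS (1 / 2 + i * ((5 - 9 * τ) / 20)) ((5 - 9 * τ) / 20) N).filter (fun d => Nat.Coprime a d),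
        errMax N d a ≤ R) (w : Finset ℕ → ℝ) (hw : ∀ T, |w T| ≤ 5 * Real.log N)
    (hsup : ∀ T ⊆ PZ N ζ, w T ≠ 0 → ((∏ p ∈ T ∩ PZ N ε₁, p : ℕ) : ℝ) ≤ (N : ℝ) ^ ((5 - 9 * τ) / 20) ∧
      WFac (tt N) τ (∏ p ∈ T ∩ pr N ε₁ ζ, p)) :
    ∑ T ∈ (PZ N ζ).powerset, |w T| * |(((Om a y).filter (fun p => (∏ q ∈ T, q) ∣ Nat.dist p a)).card : ℝ) -
      li y * ∏ p ∈ T, gh a p| ≤ 5 * Real.log N * ((M + 1) * (R + 2 * Real.log N * (N : ℝ) ^ (5 / 9 : ℝ))) := by
  classical
  have hNr : (2 : ℝ) ≤ N := by exact_mod_cast hN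
  have hN0 : (0 : ℝ) < N := by linarith
  have hlN : 0 < Real.log N := Real.log_pos (by linarith)
  obtain ⟨κ, hκd⟩ : ∃ κ : ℝ, κ = (5 - 9 * τ) / 20 := ⟨_, rfl⟩
  rw [← hκd] at hR hsup hM
  have hκ : 0 < κ := by rw [hκd]; linarith
  have hMκ : M * κ < τ + 2 * κ - 1 / 2 := by
    have h1 := Nat.ceil_lt_add_one (show 0 ≤ (τ + κ - 1 / 2) / κ from div_nonneg (by linarith) hκ.le)
    rw [← hM] at h1
    have h2 := mul_lt_mul_of_pos_right h1 hκ
    rw [add_mul, div_mul_cancel₀ _ hκ.ne', one_mul] at h2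
    linarith
  obtain ⟨r, hr⟩ : ∃ r : ℕ → ℝ, r = fun d => |(((Om a y).filter (fun p => d ∣ Nat.dist p a)).card : ℝ) -
    li y * gh a d| := ⟨_, rfl⟩
  have hr0 : ∀ d, 0 ≤ r d := fun d => by rw [hr]; exact abs_nonneg _
  obtain ⟨D, hD⟩ : ∃ D : Finset ℕ, D = (range (M + 1)).biUnion (fun i : ℕ => SS (1 / 2 + i * κ) κ N) := ⟨_, rfl⟩
  have hPr : ∀ T ⊆ PZ N ζ, ∀ p ∈ T, p.Prime := fun T hT p hp => (PZ_mem N hN ζ p (hT hp)).1
  have hmemD : ∀ T ⊆ PZ N ζ, w T ≠ 0 → ∏ p ∈ T, p ∈ D := by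
    intro T hT h0
    obtain ⟨h1, h2⟩ := hsup T hT h0
    obtain ⟨h3, h4⟩ := split_T N ζ ε₁ T hT
    rw [h4] at h3 ⊢
    have h5 := fac_mem τ hτ1 hτ2 N hN (∏ p ∈ T ∩ PZ N ε₁, p) (∏ p ∈ T ∩ pr N ε₁ ζ, p) h3
      (by rw [← hκd]; exact h1) h2
    rw [← hκd] at h5
    obtain ⟨i, h6, h7⟩ := h5
    rw [hD, mem_biUnion]
    exact ⟨i, mem_range.2 (by omega), h7⟩
  -- from sets to moduli
  have hstep1 : ∑ T ∈ (PZ N ζ).powerset, |w T| *
      |(((Om a y).filter (fun p => (∏ q ∈ T, q) ∣ Nat.dist p a)).card : ℝ) - li y * ∏ p ∈ T, gh a p| ≤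
      5 * Real.log N * ∑ d ∈ D, r d := by
    have h1 : ∑ T ∈ (PZ N ζ).powerset, |w T| *
        |(((Om a y).filter (fun p => (∏ q ∈ T, q) ∣ Nat.dist p a)).card : ℝ) - li y * ∏ p ∈ T, gh a p| ≤
        ∑ T ∈ ((PZ N ζ).powerset).filter (fun T => w T ≠ 0), 5 * Real.log N * r (∏ p ∈ T, p) := by
      rw [sum_filter]
      apply sum_le_sum
      intro T hT
      rw [mem_powerset] at hT
      rw [← gh_prod a T (hPr T hT)]
      by_cases h0 : w T ≠ 0
      · rw [if_pos h0, hr]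
        exact mul_le_mul_of_nonneg_right (hw T) (abs_nonneg _)
      · rw [if_neg h0]
        rw [not_ne_iff] at h0
        rw [h0, abs_zero, zero_mul]
    refine h1.trans ?_
    rw [← mul_sum]
    apply mul_le_mul_of_nonneg_left _ (by linarith)
    rw [← sum_image (f := r) (g := fun T : Finset ℕ => ∏ p ∈ T, p)]
    · apply sum_le_sum_of_subset_of_nonneg
      · intro d hd
        rw [mem_image] at hd
        obtain ⟨T, hT, rfl⟩ := hd
        rw [mem_filter, mem_powerset] at hT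
        exact hmemD T hT.1 hT.2
      · intro d _ _
        exact hr0 d
    · intro T hT T' hT' h
      have h2 := mem_powerset.1 (mem_filter.1 (mem_coe.1 hT)).1
      have h3 := mem_powerset.1 (mem_filter.1 (mem_coe.1 hT')).1
      have h4 := congrArg Nat.primeFactors h
      simp only at h4
      rwa [Nat.primeFactors_prod (hPr T h2), Nat.primeFactors_prod (hPr T' h3)] at h4
  refine hstep1.trans ?_
  apply mul_le_mul_of_nonneg_left _ (by linarith)
  calc ∑ d ∈ D, r d ≤ ∑ i ∈ range (M + 1), ∑ d ∈ SS (1 / 2 + i * κ) κ N, r d := by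
        rw [hD]
        exact sum_biUnion_le' _ _ r hr0
    _ ≤ ∑ i ∈ range (M + 1), (R + 2 * Real.log N * (N : ℝ) ^ (5 / 9 : ℝ)) := by
        apply sum_le_sum
        intro i hi
        rw [mem_range] at hi
        have hi' : (i : ℝ) ≤ M := by exact_mod_cast (by omega : i ≤ M)
        have h2 : 1 / 2 + i * κ < 5 / 9 := by
          have : i * κ ≤ M * κ := mul_le_mul_of_nonneg_right hi' hκ.le
          linarith
        have h3 : ∀ d ∈ SS (1 / 2 + i * κ) κ N, 1 ≤ d ∧ (d : ℝ) ≤ (N : ℝ) ^ (5 / 9 : ℝ) := by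
          intro d hd
          unfold SS at hd
          rw [mem_filter, mem_Icc] at hd
          refine ⟨hd.1.1, ?_⟩
          have h4 : (d : ℝ) ≤ (N : ℝ) ^ (1 / 2 + i * κ) :=
            le_trans (by exact_mod_cast hd.1.2) (Nat.floor_le (by positivity))
          exact h4.trans (Real.rpow_le_rpow_of_exponent_le (by linarith) h2.le)
        have hcard : ((SS (1 / 2 + i * κ) κ N).card : ℝ) ≤ (N : ℝ) ^ (5 / 9 : ℝ) := by
          have h4 : SS (1 / 2 + i * κ) κ N ⊆ Icc 1 ⌊(N : ℝ) ^ (5 / 9 : ℝ)⌋₊ := by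
            intro d hd
            obtain ⟨h5, h6⟩ := h3 d hd
            exact mem_Icc.2 ⟨h5, Nat.le_floor h6⟩
          have h5 := card_le_card h4
          rw [Nat.card_Icc, Nat.add_sub_cancel] at h5
          exact le_trans (by exact_mod_cast h5) (Nat.floor_le (by positivity))
        calc ∑ d ∈ SS (1 / 2 + i * κ) κ N, r d ≤
            ∑ d ∈ SS (1 / 2 + i * κ) κ N, (if Nat.Coprime a d then errMax N d a + 2 * Real.log N else 0) := by
              apply sum_le_sum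
              intro d _
              rw [hr]
              exact err1 N a y d hN ha haN hy hyN
          _ = ∑ d ∈ (SS (1 / 2 + i * κ) κ N).filter (fun d => Nat.Coprime a d),
              (errMax N d a + 2 * Real.log N) := by rw [sum_filter]
          _ = ∑ d ∈ (SS (1 / 2 + i * κ) κ N).filter (fun d => Nat.Coprime a d), errMax N d a +
              ((SS (1 / 2 + i * κ) κ N).filter (fun d => Nat.Coprime a d)).card * (2 * Real.log N) := by
              rw [sum_add_distrib, sum_const, nsmul_eq_mul]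
          _ ≤ R + 2 * Real.log N * (N : ℝ) ^ (5 / 9 : ℝ) := by
              have h4 := hR i (by omega)
              have h5 : (((SS (1 / 2 + i * κ) κ N).filter (fun d => Nat.Coprime a d)).card : ℝ) ≤
                  (N : ℝ) ^ (5 / 9 : ℝ) :=
                le_trans (by exact_mod_cast card_le_card (filter_subset _ _)) hcard
              have h6 := mul_le_mul_of_nonneg_right h5 (show 0 ≤ 2 * Real.log N by linarith)
              linarith
    _ = (M + 1) * (R + 2 * Real.log N * (N : ℝ) ^ (5 / 9 : ℝ)) := by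
        rw [sum_const, card_range, nsmul_eq_mul]
        push_cast
        ring

end Pool.Agent.Q148.FN
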