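import Pool.Agent.Q148.FN.Dens
import Pool.Agent.W505.DC.MI

/-! Sums over primes and integrals. -/

set_option autoImplicit false

namespace Pool.Agent.Q148.FN

open Finset Filter
open Pool.Agent.W23.DC
open Pool.Agent.Y882

/-- the function of the sum over the second prime -/
noncomputable def GG (t : ℝ) : ℝ := Real.log ((1 - 2 * t) / t) / (1 - t)

theorem pr_filter (N : ℕ) (a b x y : ℝ) (hx : a ≤ x) (hy : y ≤ b) :
    (pr N a b).filter (fun p => x ≤ tt N p ∧ tt N p < y) = pr N x y := by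
  classical
  ext p
  unfold pr
  rw [mem_filter, mem_filter, mem_filter]
  constructor
  · rintro ⟨⟨h2, h3, h4, h5⟩, h6, h7⟩
    exact ⟨h2, h3, h6, h7⟩
  · rintro ⟨h2, h3, h6, h7⟩
    exact ⟨⟨h2, h3, by linarith, by linarith⟩, h6, h7⟩

theorem mer_g (ε₁ η : ℝ) (hε₁ : 0 < ε₁) (hη : 0 < η) : ∃ N0 : ℕ, ∀ N : ℕ, N0 ≤ N →
    Mer (pr N ε₁ 1) (tt N) (fun p => 1 / ((p : ℝ) - 1)) ε₁ 1 η := by
  classical
  obtain ⟨N1, H1⟩ := Pool.Agent.W378.DC.MP ε₁ η hε₁ hη
  refine ⟨N1, fun N hN x y hx hxy hy => ?_⟩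
  rw [pr_filter N ε₁ 1 x y hx hy]
  exact H1 N hN x y hx hxy hy

theorem g_nn (N : ℕ) (a b : ℝ) : ∀ p ∈ pr N a b, 0 ≤ 1 / ((p : ℝ) - 1) := by
  classical
  intro p hp
  unfold pr at hp
  rw [mem_filter] at hp
  have : (2 : ℝ) ≤ p := by exact_mod_cast hp.2.1.two_le
  exact div_nonneg zero_le_one (by linarith)

theorem integral_inner (θ b : ℝ) (hθ1 : 1 / 4 ≤ θ) (hθ2 : θ < 1 / 2) (hb1 : θ ≤ b) (hb2 : b < 1 - θ) :
    ∫ x in θ..b, 1 / (1 - θ - x) / x =
      (Real.log (b / (1 - θ - b)) + Real.log ((1 - 2 * θ) / θ)) / (1 - θ) := by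
  have hpos : ∀ x ∈ Set.Icc θ b, 0 < 1 - θ - x := fun x hx => by linarith [hx.2]
  rw [intervalIntegral.integral_eq_sub_of_hasDerivAt
      (f := fun x => 1 / (1 - θ) * (Real.log x - Real.log (1 - θ - x)))]
  · have h1 : (0 : ℝ) < b := by linarith
    have h2 : (0 : ℝ) < 1 - θ - b := by linarith
    have h3 : (0 : ℝ) < θ := by linarith
    have h4 : (0 : ℝ) < 1 - 2 * θ := by linarith
    have h5 : (1 - θ - θ) = 1 - 2 * θ := by ring
    rw [Real.log_div h1.ne' h2.ne', Real.log_div h4.ne' h3.ne', h5]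
    have : (1 - θ) ≠ 0 := by linarith
    field_simp
    ring
  · intro x hx
    rw [Set.uIcc_of_le hb1] at hx
    have g1 := hpos x hx
    have g2 : 0 < x := by linarith [hx.1]
    have d1 : HasDerivAt (fun x : ℝ => 1 - θ - x) (-1) x := by
      simpa using (hasDerivAt_id x).const_sub (1 - θ)
    have d2 := d1.log (by linarith)
    have d3 := ((Real.hasDerivAt_log g2.ne').sub d2).const_mul (1 / (1 - θ))
    have e : 1 / (1 - θ - x) / x = 1 / (1 - θ) * (x⁻¹ - -1 / (1 - θ - x)) := by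
      have : 1 - θ - x ≠ 0 := by linarith
      have : 1 - θ ≠ 0 := by linarith
      have := g2.ne'
      field_simp
      ring
    rw [e]
    exact d3
  · refine ContinuousOn.intervalIntegrable ?_
    rw [Set.uIcc_of_le hb1]
    refine ContinuousOn.div (ContinuousOn.div continuousOn_const (by fun_prop) fun x hx => ?_)
      continuousOn_id fun x hx => ?_
    · have := hpos x hx
      linarith
    · have := hx.1
      linarith

/-- the sum over the second prime -/
theorem inner (η : ℝ) (hη : 0 < η) : ∃ β : ℝ, 0 < β ∧ β ≤ 1 / 100 ∧ ∃ N0 : ℕ, ∀ N : ℕ, N0 ≤ N → ∀ θ : ℝ, 1 / 4 ≤ θ → θ ≤ 1 / 3 →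
    ∑ q ∈ pr N θ ((1 - θ) / 2 + β), 1 / ((q : ℝ) - 1) * (1 / (1 - θ - tt N q)) ≤ GG θ + η := by
  classical
  obtain ⟨β, hβ⟩ : ∃ β : ℝ, β = min (1 / 100) (η / 32) := ⟨_, rfl⟩
  have hβ0 : 0 < β := by rw [hβ]; positivity
  have hβ1 : β ≤ 1 / 100 := by rw [hβ]; exact min_le_left _ _
  have hβ2 : β ≤ η / 32 := by rw [hβ]; exact min_le_right _ _
  obtain ⟨κ, hκ⟩ : ∃ κ : ℝ, κ = η / 16 := ⟨_, rfl⟩
  have hκ0 : 0 < κ := by rw [hκ]; positivity
  obtain ⟨η₁, hη₁, HH⟩ := Pool.Agent.W505.DC.MI (1 / 4) (κ / 16) κ 4 (by norm_num)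
    (by norm_num) (by positivity) hκ0 (by norm_num)
  obtain ⟨N0, H0⟩ := mer_g (1 / 4) η₁ (by norm_num) hη₁
  refine ⟨β, hβ0, hβ1, N0, fun N hN θ hθ1 hθ2 => ?_⟩
  obtain ⟨b, hb⟩ : ∃ b : ℝ, b = (1 - θ) / 2 + β := ⟨_, rfl⟩
  rw [← hb]
  have hθb : θ ≤ b := by rw [hb]; linarith
  have hb1 : b ≤ 1 := by rw [hb]; linarith
  have hb2 : b < 1 - θ := by rw [hb]; linarith
  have hpos : ∀ x ∈ Set.Icc θ b, 1 / 4 ≤ 1 - θ - x := fun x hx => by
    have := hx.2
    rw [hb] at this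
    linarith
  have key := HH (pr N (1 / 4) 1) (tt N) (fun p => 1 / ((p : ℝ) - 1)) 1 le_rfl (g_nn N _ _)
    (H0 N hN) θ b (fun x => 1 / (1 - θ - x)) hθ1 hθb hb1
    (by
      refine ContinuousOn.div continuousOn_const (by fun_prop) fun x hx => ?_
      have := hpos x hx
      linarith)
    (by
      intro x hx
      have := hpos x hx
      rw [abs_of_nonneg (by positivity), div_le_iff₀ (by linarith)]
      linarith)
    (by
      intro x hx y hy hxy
      have g1 := hpos x hx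
      have g2 := hpos y hy
      have e : 1 / (1 - θ - x) - 1 / (1 - θ - y) = (x - y) / ((1 - θ - x) * (1 - θ - y)) := by
        have : 1 - θ - x ≠ 0 := by linarith
        have : 1 - θ - y ≠ 0 := by linarith
        field_simp
        ring
      have g3 : 1 / 16 ≤ (1 - θ - x) * (1 - θ - y) := by nlinarith
      rw [e, abs_div, abs_of_pos (show 0 < (1 - θ - x) * (1 - θ - y) by linarith),
        div_le_iff₀ (by linarith)]
      nlinarith)
  rw [pr_filter N (1 / 4) 1 θ b hθ1 hb1, integral_inner θ b hθ1 (by linarith) hθb hb2] at key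
  have k1 := (abs_le.1 key).2
  have k2 : Real.log (1 / (1 / 4)) ≤ 3 / 2 := by
    have h1 : Real.log (1 / (1 / 4)) = 2 * Real.log 2 := by
      rw [show (1 / (1 / 4) : ℝ) = 2 ^ 2 by norm_num, Real.log_pow]
      norm_num
    have h2 := Real.log_two_lt_d9
    rw [h1]
    linarith
  have k3 : Real.log (b / (1 - θ - b)) ≤ 8 * β := by
    have h1 : 0 < 1 - θ - b := by linarith
    have h2 : 0 < b := by linarith
    refine (Real.log_le_sub_one_of_pos (div_pos h2 h1)).trans ?_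
    rw [sub_le_iff_le_add, div_le_iff₀ h1]
    have h3 := hpos b ⟨hθb, le_rfl⟩
    have h4 : b - (1 - θ - b) = 2 * β := by rw [hb]; ring
    nlinarith
  have k4 : (Real.log (b / (1 - θ - b)) + Real.log ((1 - 2 * θ) / θ)) / (1 - θ) ≤ GG θ + 16 * β := by
    unfold GG
    rw [add_div]
    have h1 : Real.log (b / (1 - θ - b)) / (1 - θ) ≤ 16 * β := by
      rw [div_le_iff₀ (by linarith)]
      nlinarith
    linarith
  have k5 : κ * (2 * Real.log (1 / (1 / 4)) + 2) ≤ 5 * κ := by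
    have := mul_le_mul_of_nonneg_left (show 2 * Real.log (1 / (1 / 4)) + 2 ≤ 5 by linarith) hκ0.le
    linarith
  have k6 : ∑ q ∈ pr N θ b, 1 / ((q : ℝ) - 1) * (1 / (1 - θ - tt N q)) ≤
      (Real.log (b / (1 - θ - b)) + Real.log ((1 - 2 * θ) / θ)) / (1 - θ) +
        κ * (2 * Real.log (1 / (1 / 4)) + 2) := by linarith
  refine k6.trans ?_
  rw [hκ] at k5
  rw [hκ]
  linarith

theorem GG_cont : ContinuousOn GG (Set.Icc (1 / 4) (2 / 5)) := by
  unfold GG
  apply ContinuousOn.div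
  · apply ContinuousOn.log
    · apply ContinuousOn.div (by fun_prop) continuousOn_id
      intro x hx
      have := hx.1
      have : (0 : ℝ) < x := by linarith
      exact this.ne'
    · intro x hx
      have h1 := hx.1
      have h2 := hx.2
      have : 0 < (1 - 2 * x) / x := div_pos (by linarith) (by linarith)
      exact this.ne'
  · fun_prop
  · intro x hx
    have := hx.2
    linarith

theorem GG_nonneg (t : ℝ) (h1 : 1 / 4 ≤ t) (h2 : t ≤ 1 / 3) : 0 ≤ GG t := by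
  unfold GG
  apply div_nonneg _ (by linarith)
  apply Real.log_nonneg
  rw [le_div_iff₀ (by linarith)]
  linarith

theorem GG_nonpos (t : ℝ) (h1 : 1 / 3 ≤ t) (h2 : t ≤ 2 / 5) : GG t ≤ 0 := by
  unfold GG
  apply div_nonpos_of_nonpos_of_nonneg _ (by linarith)
  apply Real.log_nonpos
  · exact div_nonneg (by linarith) (by linarith)
  · rw [div_le_iff₀ (by linarith)]
    linarith

/-- the constant -/
noncomputable def II (u : ℝ) : ℝ := ∫ x in u..(1 / 3 : ℝ), GG x / x

end Pool.Agent.Q148.FN
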