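import Pool.Agent.Q148.FN.Gold
import Pool.Agent.Q148.BA.App

/-! The linear sieve at every level `τ < 5/9` for the numbers `|p - a|`, final form. -/

set_option autoImplicit false

namespace Pool.Agent.Q148.FN

open Finset Filter
open Pool.Agent.W23.DC
open Pool.Agent.Y882
open Pool.Agent.H442R2.FX
open Pool.Agent.H300R2.WEH
open Pool.Agent.Q148.BA (gh gh_prime gh_mul gh_one gh_nn gh_p1 gh_half PP mem_PP card_pf pi_unif sing_ge)
open Pool.Agent.Q148.KJ (PZ_mem)
open Pool.Agent.H560R3.GB (sing)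

theorem alg1 (κ c y N L s X V : ℝ) (hκ : 0 < κ) (hκ1 : κ ≤ 1)
    (hc : 0 < c) (hy0 : 0 ≤ y) (hy : y ≤ N) (hN : 0 < N) (hL : 0 < L) (hs : 1 ≤ s) (hV : 0 ≤ V)
    (h1 : X * L ≤ y + κ * N) (h2 : V ≤ (1 + κ) * (s * c / L)) :
    X * V ≤ c * (y + 3 * κ * N) * (s / L ^ 2) := by
  have h3 : X ≤ (y + κ * N) / L := by rw [le_div_iff₀ hL]; exact h1
  calc X * V ≤ ((y + κ * N) / L) * ((1 + κ) * (s * c / L)) := mul_le_mul h3 h2 hV (by positivity)
    _ = ((1 + κ) * (y + κ * N)) * c * (s / L ^ 2) := by field_simp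
    _ ≤ (y + 3 * κ * N) * c * (s / L ^ 2) := by
        apply mul_le_mul_of_nonneg_right _ (by positivity)
        apply mul_le_mul_of_nonneg_right _ hc.le
        have h4 : κ * y ≤ κ * N := mul_le_mul_of_nonneg_left hy hκ.le
        have h5 : κ * (κ * N) ≤ 1 * (κ * N) := mul_le_mul_of_nonneg_right hκ1 (by positivity)
        linarith
    _ = _ := by ring

theorem alg2 (κ c y N L s X V : ℝ) (hκ : 0 < κ) (hκ1 : κ ≤ 1)
    (hc : 0 < c) (hy : y ≤ N) (hN : 0 < N) (hL : 0 < L) (hs : 1 ≤ s) (hX : 0 ≤ X) (hV : 0 ≤ V)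
    (h1 : y - κ * N ≤ X * L) (h2 : (1 - κ) * (s * c / L) ≤ V) :
    c * (y - 2 * κ * N) * (s / L ^ 2) ≤ X * V := by
  rcases le_or_gt 0 (y - κ * N) with h | h
  · have h3 : (y - κ * N) / L ≤ X := by rw [div_le_iff₀ hL]; exact h1
    calc c * (y - 2 * κ * N) * (s / L ^ 2) ≤ c * ((1 - κ) * (y - κ * N)) * (s / L ^ 2) := by
          apply mul_le_mul_of_nonneg_right _ (by positivity)
          apply mul_le_mul_of_nonneg_left _ hc.le
          have h4 : κ * y ≤ κ * N := mul_le_mul_of_nonneg_left hy hκ.le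
          have h5 : 0 ≤ κ * (κ * N) := by positivity
          linarith
      _ = ((y - κ * N) / L) * ((1 - κ) * (s * c / L)) := by field_simp
      _ ≤ X * V := mul_le_mul h3 h2 (mul_nonneg (by linarith) (by positivity)) hX
  · have h3 : 0 ≤ X * V := mul_nonneg hX hV
    refine le_trans ?_ h3
    apply mul_nonpos_of_nonpos_of_nonneg _ (by positivity)
    apply mul_nonpos_of_nonneg_of_nonpos hc.le
    have : 0 < κ * N := by positivity
    linarith

theorem li_nonneg (y : ℝ) (hy : 2 ≤ y) : 0 ≤ li y := by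
  unfold li
  apply intervalIntegral.integral_nonneg hy
  intro t ht
  have : 0 < Real.log t := Real.log_pos (by linarith [ht.1])
  positivity

open Classical in
/-- the number of the primes `p ≤ y`, not dividing `a`, for which `|p - a|` has no small prime factor -/
noncomputable def SG (N a y : ℕ) (ζ : ℝ) : ℝ :=
  ((Om a y).filter (fun p => ∀ q ∈ PZ N ζ, ¬ q ∣ Nat.dist p a)).card

/-- **The linear sieve for `|p - a|` at every level `τ < 5/9`.** -/
theorem goldT (A0 : ℝ) (F f : ℝ → ℝ) (hSF : SF A0 F f) (τ ζ ε : ℝ) (hτ1 : 1 / 2 ≤ τ) (hτ2 : τ < 5 / 9)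
    (hζ : 0 < ζ) (hζτ : ζ ≤ τ) (hf : 0 ≤ f (τ / ζ)) (hε : 0 < ε) (hε1 : ε ≤ 1) : ∃ (B : ℕ) (C : ℝ) (N0 : ℕ), 0 < C ∧
    ∀ N : ℕ, N0 ≤ N → ∃ Ex : Finset ℕ, (Ex.card : ℝ) ≤ C * Real.log N ^ B ∧
    ∀ a : ℕ, 1 ≤ a → a ≤ N → Even a → a ∉ Ex → ∀ y : ℕ, y ≤ N →
      (f (τ / ζ) * (Real.exp (-Real.eulerMascheroniConstant) / ζ) * y - ε * N) * (sing a / Real.log N ^ 2) ≤
        SG N a y ζ ∧
      SG N a y ζ ≤
        (F (τ / ζ) * (Real.exp (-Real.eulerMascheroniConstant) / ζ) * y + ε * N) * (sing a / Real.log N ^ 2) := by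
  classical
  obtain ⟨c, hc⟩ : ∃ c : ℝ, c = Real.exp (-Real.eulerMascheroniConstant) / ζ := ⟨_, rfl⟩
  have hc0 : 0 < c := by rw [hc]; positivity
  rw [← hc]
  obtain ⟨Fs, hFs⟩ : ∃ Fs : ℝ, Fs = F (τ / ζ) := ⟨_, rfl⟩
  obtain ⟨fs, hfs⟩ : ∃ fs : ℝ, fs = f (τ / ζ) := ⟨_, rfl⟩
  have hs1 : 1 ≤ τ / ζ := by rw [le_div_iff₀ hζ]; linarith
  have hF1 : 1 ≤ Fs := by rw [hFs]; exact hSF.F1 _ hs1
  have hf1 : fs ≤ 1 := by rw [hfs]; exact hSF.f1 _ hs1
  rw [← hFs, ← hfs]
  rw [← hfs] at hf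
  -- the small parameter
  obtain ⟨δ, hδ⟩ : ∃ δ : ℝ, δ = ε / (16 * (c + 1) * (Fs + 1)) := ⟨_, rfl⟩
  have hδ0 : 0 < δ := by rw [hδ]; positivity
  have hδ1 : δ * (16 * (c + 1) * (Fs + 1)) = ε := by rw [hδ]; field_simp
  have hδ2 : δ ≤ 1 := by
    have : 1 ≤ 16 * (c + 1) * (Fs + 1) := by nlinarith
    nlinarith
  have hδc : δ * c * (Fs + 1) ≤ ε / 16 := by
    have h1 : 0 ≤ δ * (Fs + 1) := by positivity
    have h2 : δ * (16 * (c + 1) * (Fs + 1)) = 16 * (δ * c * (Fs + 1)) + 16 * (δ * (Fs + 1)) := by ring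
    linarith
  have hδc2 : δ * c ≤ ε / 16 := by
    refine le_trans ?_ hδc
    exact le_mul_of_one_le_right (by positivity) (by linarith)
  obtain ⟨s, hs⟩ : ∃ s : ℝ, s = (5 - 9 * τ) / 20 := ⟨_, rfl⟩
  have hs0 : 0 < s := by rw [hs]; linarith
  obtain ⟨ε₁, η, hε₁, hε₁ζ, hη, N1, HP⟩ := ptwR 1 A0 F f hSF τ ζ (τ + s) δ hζ hζτ (by linarith) (by linarith) hδ0
  obtain ⟨N2, HM⟩ := mer_gh ε₁ ζ η hε₁ (by linarith) hη
  obtain ⟨N3, HV⟩ := V_gh ζ δ hζ (by linarith) hδ0 hδ2
  obtain ⟨N4, HPi⟩ := pi_unif (δ / 2) (by linarith) (by linarith)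
  obtain ⟨M, B, C, hC, hM, HL⟩ := levelSS τ hτ1 hτ2 6
  have hM0 : (0 : ℝ) ≤ M := Nat.cast_nonneg _
  have e1 := Pool.Agent.H398R2.BV.ev_log (20 * (M + 1) / (ε / 4)) 8 (1 / 9) (by norm_num)
  have e2 := Real.tendsto_log_atTop.eventually_ge_atTop (10 + 2 / δ + 80 * (M + 1) / ε)
  obtain ⟨N5, H5⟩ := eventually_atTop.1 ((tendsto_natCast_atTop_atTop (R := ℝ)).eventually (e1.and e2))
  refine ⟨B, C, max (max (max N1 N2) (max N3 N4)) (max N5 3), hC, fun N hN => ?_⟩
  have hN1 : N1 ≤ N := ((le_max_left _ _).trans ((le_max_left _ _).trans (le_max_left _ _))).trans hN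
  have hN2 : N2 ≤ N := ((le_max_right _ _).trans ((le_max_left _ _).trans (le_max_left _ _))).trans hN
  have hN3 : N3 ≤ N := ((le_max_left _ _).trans ((le_max_right _ _).trans (le_max_left _ _))).trans hN
  have hN4 : N4 ≤ N := ((le_max_right _ _).trans ((le_max_right _ _).trans (le_max_left _ _))).trans hN
  have hN5 : N5 ≤ N := ((le_max_left _ _).trans (le_max_right _ _)).trans hN
  have hN6 : 3 ≤ N := ((le_max_right _ _).trans (le_max_right _ _)).trans hN
  have hNr : (3 : ℝ) ≤ N := by exact_mod_cast hN6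
  have hN0 : (0 : ℝ) < N := by linarith
  obtain ⟨f1, f2⟩ := H5 N hN5
  obtain ⟨Ex, hEx, HEx⟩ := HL N hN6
  refine ⟨Ex, hEx, fun a ha haN hae haE y hyN => ?_⟩
  obtain ⟨L, hL⟩ : ∃ L : ℝ, L = Real.log N := ⟨_, rfl⟩
  rw [← hL] at f1 f2 ⊢
  have hLδ : 0 < 2 / δ := by positivity
  have hLM : 0 ≤ 80 * (M + 1) / ε := by positivity
  have hL10 : 10 ≤ L := by linarith
  have hL0 : 0 < L := by linarith
  have hsa := sing_ge a
  have hT0 : 0 < sing a / L ^ 2 := by positivity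
  have hyNr : (y : ℝ) ≤ N := by exact_mod_cast hyN
  have hfc0 : 0 ≤ fs * c := by positivity
  rcases Nat.lt_or_ge y 2 with hy2 | hy2
  · -- no primes
    have h1 : Om a y = ∅ := by
      unfold Om
      rw [filter_eq_empty_iff]
      intro p hp
      rw [mem_PP] at hp
      have := hp.1.two_le
      omega
    have h2 : SG N a y ζ = 0 := by
      unfold SG
      rw [h1]
      simp
    rw [h2]
    have hy1 : (y : ℝ) ≤ 1 := by exact_mod_cast (by omega : y ≤ 1)
    have hcε : c ≤ ε * N := by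
      -- from the size of the logarithm
      have h3 : c * δ ≤ ε / 16 := by rw [mul_comm]; exact hδc2
      have h4 : 2 / δ ≤ N := by
        have h5 : L ≤ N := by rw [hL]; exact (Real.log_le_sub_one_of_pos hN0).trans (by linarith)
        linarith
      rw [div_le_iff₀ hδ0] at h4
      have h5 : c * 2 ≤ c * (N * δ) := mul_le_mul_of_nonneg_left h4 hc0.le
      have h6 : c * (N * δ) ≤ ε / 16 * N := by
        calc c * (N * δ) = (c * δ) * N := by ring
          _ ≤ ε / 16 * N := mul_le_mul_of_nonneg_right h3 hN0.le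
      have h7 : 0 < ε * N := by positivity
      linarith
    constructor
    · apply mul_nonpos_of_nonpos_of_nonneg _ hT0.le
      have h3 : fs * c * y ≤ 1 * c * 1 := by
        apply mul_le_mul _ hy1 (Nat.cast_nonneg _) (by positivity)
        exact mul_le_mul_of_nonneg_right hf1 hc0.le
      linarith
    · have : 0 ≤ (Fs * c * y + ε * N) := by positivity
      positivity
  have hy2r : (2 : ℝ) ≤ y := by exact_mod_cast hy2
  obtain ⟨wU, wL, c1, c2, c3⟩ := HP N hN1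
  have hR : ∀ i ≤ M,
      ∑ d ∈ (SS (1 / 2 + i * ((5 - 9 * τ) / 20)) ((5 - 9 * τ) / 20) N).filter (fun d => Nat.Coprime a d),
        errMax N d a ≤ N / Real.log N ^ 6 := HEx a ha haN haE
  have hsub : τ + s - τ = (5 - 9 * τ) / 20 := by rw [hs]; ring
  rw [hsub] at c2
  have hEU := errG τ hτ1 hτ2 M hM N a y (by omega) ha haN hy2 hyN ζ ε₁ _ hR wU (fun T => (c1 T).1)
    (fun T hT h0 => c2 T hT (Or.inl h0))
  have hEL := errG τ hτ1 hτ2 M hM N a y (by omega) ha haN hy2 hyN ζ ε₁ _ hR wL (fun T => (c1 T).2)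
    (fun T hT h0 => c2 T hT (Or.inr h0))
  rw [← hL] at hEU hEL hR
  -- size of the error
  obtain ⟨E, hE⟩ : ∃ E : ℝ, E = 5 * L * ((M + 1) * (N / L ^ 6 + 2 * L * (N : ℝ) ^ (5 / 9 : ℝ))) := ⟨_, rfl⟩
  rw [← hE] at hEU hEL
  have hEs : E ≤ ε / 4 * N * (sing a / L ^ 2) := by
    have h1 : ε / 4 * N * (1 / L ^ 2) ≤ ε / 4 * N * (sing a / L ^ 2) := by
      apply mul_le_mul_of_nonneg_left _ (by positivity)
      exact div_le_div_of_nonneg_right hsa (by positivity)
    refine le_trans ?_ h1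
    have h2 : 5 * L * ((M + 1) * (N / L ^ 6)) ≤ ε / 8 * N * (1 / L ^ 2) := by
      have h3 : 80 * (M + 1) ≤ ε * L := by
        have : 80 * (M + 1) / ε ≤ L := by linarith
        rw [div_le_iff₀ hε] at this
        linarith
      have h4 : 5 * L * ((M + 1) * (N / L ^ 6)) = 5 * (M + 1) * (N / L ^ 5) := by
        field_simp
      have h5 : ε / 8 * N * (1 / L ^ 2) = ε / 8 * L ^ 3 * (N / L ^ 5) := by
        field_simp
      rw [h4, h5]
      apply mul_le_mul_of_nonneg_right _ (by positivity)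
      have h6 : L ≤ L ^ 3 := by
        have : L ^ 3 = L * (L * L) := by ring
        rw [this]
        exact le_mul_of_one_le_right hL0.le (by nlinarith)
      have h7 : ε * L ≤ ε * L ^ 3 := mul_le_mul_of_nonneg_left h6 hε.le
      linarith
    have h3 : 5 * L * ((M + 1) * (2 * L * (N : ℝ) ^ (5 / 9 : ℝ))) ≤ ε / 8 * N * (1 / L ^ 2) := by
      have h4 : (20 * (M + 1) / (ε / 4)) * L ^ 8 ≤ (N : ℝ) ^ (1 / 9 : ℝ) := by
        rw [hL]; rw [hL] at f1; exact f1
      have h5 : (N : ℝ) = (N : ℝ) ^ (1 / 9 : ℝ) * ((N : ℝ) ^ (5 / 9 : ℝ) * (N : ℝ) ^ (1 / 3 : ℝ)) := by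
        rw [← Real.rpow_add hN0, ← Real.rpow_add hN0]
        norm_num
      have h6 : 1 ≤ (N : ℝ) ^ (1 / 3 : ℝ) := Real.one_le_rpow (by linarith) (by norm_num)
      have h7 : (20 * (M + 1) / (ε / 4)) * L ^ 8 * (N : ℝ) ^ (5 / 9 : ℝ) ≤ N := by
        calc (20 * (M + 1) / (ε / 4)) * L ^ 8 * (N : ℝ) ^ (5 / 9 : ℝ) ≤
            (N : ℝ) ^ (1 / 9 : ℝ) * (N : ℝ) ^ (5 / 9 : ℝ) := mul_le_mul_of_nonneg_right h4 (by positivity)
          _ ≤ (N : ℝ) ^ (1 / 9 : ℝ) * ((N : ℝ) ^ (5 / 9 : ℝ) * (N : ℝ) ^ (1 / 3 : ℝ)) := by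
              apply mul_le_mul_of_nonneg_left _ (by positivity)
              exact le_mul_of_one_le_right (by positivity) h6
          _ = N := h5.symm
      have h8 : 5 * L * ((M + 1) * (2 * L * (N : ℝ) ^ (5 / 9 : ℝ))) =
          ε / 8 * ((20 * (M + 1) / (ε / 4)) * L ^ 2 * (N : ℝ) ^ (5 / 9 : ℝ)) := by
        field_simp
        ring
      rw [h8, mul_assoc (ε / 8) (N : ℝ)]
      apply mul_le_mul_of_nonneg_left _ (by positivity)
      rw [mul_one_div, le_div_iff₀ (by positivity)]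
      refine le_trans ?_ h7
      have h9 : (20 * (M + 1) / (ε / 4)) * L ^ 2 * (N : ℝ) ^ (5 / 9 : ℝ) * L ^ 2 =
          (20 * (M + 1) / (ε / 4)) * (N : ℝ) ^ (5 / 9 : ℝ) * L ^ 4 := by ring
      have h10 : (20 * (M + 1) / (ε / 4)) * L ^ 8 * (N : ℝ) ^ (5 / 9 : ℝ) =
          (20 * (M + 1) / (ε / 4)) * (N : ℝ) ^ (5 / 9 : ℝ) * L ^ 8 := by ring
      rw [h9, h10]
      apply mul_le_mul_of_nonneg_left _ (by positivity)
      exact pow_le_pow_right₀ (by linarith) (by norm_num)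
    have h4 : E = 5 * L * ((M + 1) * (N / L ^ 6)) + 5 * L * ((M + 1) * (2 * L * (N : ℝ) ^ (5 / 9 : ℝ))) := by
      rw [hE]; ring
    rw [h4]
    have h5 : ε / 4 * N * (1 / L ^ 2) = ε / 8 * N * (1 / L ^ 2) + ε / 8 * N * (1 / L ^ 2) := by ring
    rw [h5]
    linarith
  -- the main quantities
  have hX0 := li_nonneg y hy2r
  have hg1 : ∀ p ∈ PZ N ζ, gh a p ≤ 1 := fun p hp => by
    have := gh_half a p hae (PZ_mem N (by omega) ζ p hp).1
    linarith
  have hmer := HM N hN2 a ha haN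
  have hpt := c3 ℕ (Om a y) (fun p => Nat.dist p a) (li y) (gh a) E hX0 (fun p _ => gh_nn a p) hg1
    (fun p hp _ => by
      have := gh_p1 a p (PZ_mem N (by omega) ζ p hp).1
      rw [Nat.cast_one]
      exact this) hmer hEU hEL
  obtain ⟨V, hV⟩ : ∃ V : ℝ, V = ∏ p ∈ PZ N ζ, (1 - gh a p) := ⟨_, rfl⟩
  rw [← hV, ← hFs, ← hfs] at hpt
  have hV0 : 0 ≤ V := by
    rw [hV]
    exact prod_nonneg fun p hp => by linarith [hg1 p hp]
  obtain ⟨v1, v2⟩ := HV N hN3 a ha haN hae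
  rw [← hV, ← hL] at v1 v2
  have hG : sing a * Real.exp (-Real.eulerMascheroniConstant) / (ζ * L) = sing a * c / L := by
    rw [hc]
    field_simp
  rw [hG] at v1 v2
  -- li against y / log N
  have hli : |li y * L - y| ≤ δ * N := by
    have h1 := HPi N hN4 y hyN
    rw [← hL] at h1
    have h2 : |((PP y).card : ℝ) - li y| ≤ N / L ^ 6 := by
      have h3 := Pool.Agent.W23.UB.err_le_errMax (N := N) (d := 1) (l := a) hy2r hyNr
      unfold err piR at h3
      rw [Nat.floor_natCast, Nat.totient_one, Nat.cast_one, div_one] at h3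
      have h4 : (Icc 1 y).filter (fun p => p.Prime ∧ p ≡ a [MOD 1]) = PP y := by
        unfold PP
        apply filter_congr
        intro p _
        exact ⟨fun h => h.1, fun h => ⟨h, Nat.modEq_one⟩⟩
      rw [h4] at h3
      refine le_trans h3 (le_trans ?_ (hR 0 (Nat.zero_le _)))
      apply single_le_sum (f := fun d => errMax N d a) (fun d _ => errMax_nonneg N d a)
      rw [mem_filter]
      refine ⟨?_, Nat.coprime_one_right a⟩
      unfold SS
      rw [mem_filter, mem_Icc]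
      have h5 : ∀ c : ℝ, 0 ≤ c → 1 ≤ ⌊(N : ℝ) ^ c⌋₊ := by
        intro c hc
        apply Nat.le_floor
        rw [Nat.cast_one]
        exact Real.one_le_rpow (by linarith) hc
      refine ⟨⟨le_rfl, h5 _ ?_⟩, Or.inl (h5 _ (by norm_num))⟩
      push_cast
      linarith
    have h3 : |li y * L - (PP y).card * L| ≤ δ / 2 * N := by
      rw [← sub_mul, abs_mul, abs_of_pos hL0, abs_sub_comm]
      calc |((PP y).card : ℝ) - li y| * L ≤ N / L ^ 6 * L := mul_le_mul_of_nonneg_right h2 hL0.le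
        _ = N / L ^ 5 := by field_simp
        _ ≤ N / L := by
            apply div_le_div_of_nonneg_left hN0.le hL0
            calc L = L ^ 1 := (pow_one L).symm
              _ ≤ L ^ 5 := pow_le_pow_right₀ (by linarith) (by norm_num)
        _ ≤ δ / 2 * N := by
            rw [div_le_iff₀ hL0]
            have h6 : 2 / δ ≤ L := by linarith
            rw [div_le_iff₀ hδ0] at h6
            nlinarith
    have h4 : li y * L - y = (li y * L - (PP y).card * L) + ((PP y).card * L - y) := by ring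
    rw [h4]
    refine (abs_add_le _ _).trans ?_
    linarith
  rw [abs_le] at hli
  have hXu : li y * L ≤ y + δ * N := by linarith [hli.2]
  have hXl : y - δ * N ≤ li y * L := by linarith [hli.1]
  have hy0 : (0 : ℝ) ≤ y := Nat.cast_nonneg _
  have A1 := alg1 δ c y N L (sing a) (li y) V hδ0 hδ2 hc0 hy0 hyNr hN0 hL0 hsa hV0
    hXu v2
  have A2 := alg2 δ c y N L (sing a) (li y) V hδ0 hδ2 hc0 hyNr hN0 hL0 hsa hX0 hV0 hXl v1
  obtain ⟨T, hT⟩ : ∃ T : ℝ, T = sing a / L ^ 2 := ⟨_, rfl⟩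
  rw [← hT] at A1 A2 hEs hT0 ⊢
  have hXV0 : 0 ≤ li y * V := mul_nonneg hX0 hV0
  have hSG : SG N a y ζ = (((Om a y).filter (fun n => ∀ p ∈ PZ N ζ, ¬ p ∣ Nat.dist n a)).card : ℝ) := rfl
  rw [hSG]
  obtain ⟨p1, p2⟩ := hpt
  constructor
  · refine le_trans ?_ p1
    have h1 : fs * (c * (y - 2 * δ * N) * T) ≤ fs * (li y * V) := mul_le_mul_of_nonneg_left A2 hf
    have h2 : δ * (li y * V) ≤ δ * (c * (y + 3 * δ * N) * T) := mul_le_mul_of_nonneg_left A1 hδ0.le
    have h3 : δ * (c * (y + 3 * δ * N) * T) ≤ ε / 4 * N * T := by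
      have h4 : y + 3 * δ * N ≤ 4 * N := by nlinarith
      calc δ * (c * (y + 3 * δ * N) * T) = (δ * c) * (y + 3 * δ * N) * T := by ring
        _ ≤ (ε / 16) * (4 * N) * T := by
            apply mul_le_mul_of_nonneg_right _ hT0.le
            apply mul_le_mul hδc2 h4 (by positivity) (by positivity)
        _ = _ := by ring
    have h5 : fs * (c * (y - 2 * δ * N) * T) = fs * c * y * T - (2 * fs * (δ * c)) * N * T := by ring
    have h6 : (2 * fs * (δ * c)) * N * T ≤ (ε / 8) * N * T := by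
      apply mul_le_mul_of_nonneg_right _ hT0.le
      apply mul_le_mul_of_nonneg_right _ hN0.le
      have h7 : fs * (δ * c) ≤ 1 * (ε / 16) := mul_le_mul hf1 hδc2 (by positivity) (by norm_num)
      linarith
    have h8 : (fs - δ) * (li y * V) = fs * (li y * V) - δ * (li y * V) := by ring
    have h9 : (fs * c * y - ε * N) * T = fs * c * y * T - ε * N * T := by ring
    have h10 : 0 ≤ ε * N * T := by positivity
    rw [h8, h9]
    linarith
  · refine p2.trans ?_
    have h1 : (Fs + δ) * (li y * V) ≤ (Fs + δ) * (c * (y + 3 * δ * N) * T) :=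
      mul_le_mul_of_nonneg_left A1 (by linarith)
    have h2 : (Fs + δ) * (c * (y + 3 * δ * N) * T) = Fs * c * y * T + (δ * c) * y * T +
        3 * ((Fs + δ) * (δ * c)) * N * T := by ring
    have h3 : (δ * c) * y * T ≤ (ε / 16) * N * T := by
      apply mul_le_mul_of_nonneg_right _ hT0.le
      exact mul_le_mul hδc2 hyNr hy0 (by positivity)
    have h4 : 3 * ((Fs + δ) * (δ * c)) * N * T ≤ (3 * ε / 16) * N * T := by
      apply mul_le_mul_of_nonneg_right _ hT0.le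
      apply mul_le_mul_of_nonneg_right _ hN0.le
      have h5 : (Fs + δ) * (δ * c) ≤ δ * c * (Fs + 1) := by
        calc (Fs + δ) * (δ * c) ≤ (Fs + 1) * (δ * c) := by
              apply mul_le_mul_of_nonneg_right _ (by positivity)
              linarith
          _ = _ := by ring
      linarith
    have h9 : (Fs * c * y + ε * N) * T = Fs * c * y * T + ε * N * T := by ring
    have h10 : 0 ≤ ε * N * T := by positivity
    rw [h9]
    linarith

end Pool.Agent.Q148.FN
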