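import Pool.Agent.Q148.FN.Inner

/-! The sum over the first prime. -/

set_option autoImplicit false

namespace Pool.Agent.Q148.FN

open Finset Filter
open Pool.Agent.W23.DC
open Pool.Agent.Y882

theorem GG_div_int (a b : ℝ) (ha : 1 / 4 ≤ a) (hab : a ≤ b) (hb : b ≤ 2 / 5) :
    IntervalIntegrable (fun x => GG x / x) MeasureTheory.volume a b := by
  apply ContinuousOn.intervalIntegrable
  rw [Set.uIcc_of_le hab]
  apply ContinuousOn.div (GG_cont.mono (Set.Icc_subset_Icc ha hb)) continuousOn_id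
  intro x hx
  have := hx.1
  have : (0 : ℝ) < x := by linarith
  exact this.ne'

/-- the sum over the first prime -/
theorem outer (u η : ℝ) (hu1 : 1 / 4 ≤ u) (hu2 : u < 1 / 3) (hη : 0 < η) :
    ∃ ω β : ℝ, 0 < ω ∧ ω ≤ η ∧ 0 < β ∧ β ≤ 1 / 15 ∧
      (∀ x ∈ Set.Icc (1 / 4 : ℝ) (2 / 5), ∀ y ∈ Set.Icc (1 / 4 : ℝ) (2 / 5), |x - y| ≤ β → |GG x - GG y| ≤ ω / 2) ∧
      ∃ N0 : ℕ, ∀ N : ℕ, N0 ≤ N →
        ∑ q ∈ pr N u (1 / 3 + β), 1 / ((q : ℝ) - 1) * (GG (tt N q) + ω) ≤ II u + η := by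
  classical
  obtain ⟨κ, hκ⟩ : ∃ κ : ℝ, κ = η / 16 := ⟨_, rfl⟩
  have hκ0 : 0 < κ := by rw [hκ]; positivity
  obtain ⟨ω, hω⟩ : ∃ ω : ℝ, ω = η / 4 := ⟨_, rfl⟩
  have hω0 : 0 < ω := by rw [hω]; positivity
  obtain ⟨H, hH⟩ := isCompact_Icc.exists_bound_of_continuousOn GG_cont
  have hu := isCompact_Icc.uniformContinuousOn_of_continuous GG_cont
  rw [Metric.uniformContinuousOn_iff_le] at hu
  obtain ⟨δ, hδ, hδ'⟩ := hu (min (ω / 2) κ) (lt_min (by positivity) hκ0)
  obtain ⟨β, hβ⟩ : ∃ β : ℝ, β = min δ (1 / 15) := ⟨_, rfl⟩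
  have hβ0 : 0 < β := by rw [hβ]; positivity
  have hβ1 : β ≤ 1 / 15 := by rw [hβ]; exact min_le_right _ _
  have hβ2 : β ≤ δ := by rw [hβ]; exact min_le_left _ _
  obtain ⟨η₁, hη₁, HH⟩ := Pool.Agent.W505.DC.MI (1 / 4) δ κ (|H| + ω) (by norm_num)
    (by norm_num) hδ hκ0 (by positivity)
  obtain ⟨N0, H0⟩ := mer_g (1 / 4) η₁ (by norm_num) hη₁
  refine ⟨ω, β, hω0, by rw [hω]; linarith, hβ0, hβ1, ?_, N0, fun N hN => ?_⟩
  · intro x hx y hy hxy
    have := hδ' x hx y hy (by rw [Real.dist_eq]; linarith)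
    rw [Real.dist_eq] at this
    exact this.trans (min_le_left _ _)
  have hub : u ≤ 1 / 3 + β := by linarith
  have hb1 : 1 / 3 + β ≤ 2 / 5 := by linarith
  have hsub : Set.Icc u (1 / 3 + β) ⊆ Set.Icc (1 / 4 : ℝ) (2 / 5) := Set.Icc_subset_Icc hu1 hb1
  have key := HH (pr N (1 / 4) 1) (tt N) (fun p => 1 / ((p : ℝ) - 1)) 1 le_rfl (g_nn N _ _)
    (H0 N hN) u (1 / 3 + β) (fun x => GG x + ω) hu1 hub (by linarith)
    ((GG_cont.mono hsub).add continuousOn_const)
    (by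
      intro x hx
      have h1 := hH x (hsub hx)
      rw [Real.norm_eq_abs] at h1
      calc |GG x + ω| ≤ |GG x| + |ω| := abs_add_le _ _
        _ ≤ |H| + ω := by
          rw [abs_of_pos hω0]
          linarith [le_abs_self H])
    (by
      intro x hx y hy hxy
      have h1 := hδ' x (hsub hx) y (hsub hy) (by rw [Real.dist_eq]; exact hxy)
      rw [Real.dist_eq] at h1
      have e : GG x + ω - (GG y + ω) = GG x - GG y := by ring
      rw [e]
      exact h1.trans (min_le_right _ _))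
  rw [pr_filter N (1 / 4) 1 u (1 / 3 + β) hu1 (by linarith)] at key
  have k1 := (abs_le.1 key).2
  have k2 : Real.log (1 / (1 / 4)) ≤ 3 / 2 := by
    have h1 : Real.log (1 / (1 / 4)) = 2 * Real.log 2 := by
      rw [show (1 / (1 / 4) : ℝ) = 2 ^ 2 by norm_num, Real.log_pow]
      norm_num
    have h2 := Real.log_two_lt_d9
    rw [h1]
    linarith
  have k5 : κ * (2 * Real.log (1 / (1 / 4)) + 2) ≤ 5 * κ := by
    have := mul_le_mul_of_nonneg_left (show 2 * Real.log (1 / (1 / 4)) + 2 ≤ 5 by linarith) hκ0.le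
    linarith
  have hi1 := GG_div_int u (1 / 3) hu1 hu2.le (by norm_num)
  have hi2 := GG_div_int (1 / 3) (1 / 3 + β) (by norm_num) (by linarith) hb1
  have hi3 : IntervalIntegrable (fun x : ℝ => ω / x) MeasureTheory.volume u (1 / 3 + β) := by
    apply ContinuousOn.intervalIntegrable
    rw [Set.uIcc_of_le hub]
    apply ContinuousOn.div continuousOn_const continuousOn_id
    intro x hx
    have := hx.1
    have : (0 : ℝ) < x := by linarith
    exact this.ne'
  have e1 : ∫ x in u..(1 / 3 + β), (GG x + ω) / x =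
      (∫ x in u..(1 / 3 : ℝ), GG x / x) + (∫ x in (1 / 3 : ℝ)..(1 / 3 + β), GG x / x) +
        ∫ x in u..(1 / 3 + β), ω / x := by
    rw [intervalIntegral.integral_add_adjacent_intervals hi1 hi2,
      ← intervalIntegral.integral_add (hi1.trans hi2) hi3]
    apply intervalIntegral.integral_congr
    intro x _
    simp only
    rw [add_div]
  have e2 : ∫ x in (1 / 3 : ℝ)..(1 / 3 + β), GG x / x ≤ 0 := by
    have h0 : 0 ≤ ∫ x in (1 / 3 : ℝ)..(1 / 3 + β), -(GG x / x) := by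
      apply intervalIntegral.integral_nonneg (by linarith)
      intro x hx
      have h1 := GG_nonpos x hx.1 (by linarith [hx.2])
      have h2 : (0 : ℝ) < x := by linarith [hx.1]
      rw [neg_nonneg]
      exact div_nonpos_of_nonpos_of_nonneg h1 h2.le
    rw [intervalIntegral.integral_neg] at h0
    linarith
  have e3 : ∫ x in u..(1 / 3 + β), ω / x ≤ ω := by
    have h0 : ∫ x in u..(1 / 3 + β), ω / x ≤ ∫ _x in u..(1 / 3 + β), 4 * ω := by
      apply intervalIntegral.integral_mono_on hub hi3 (by simp)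
      intro x hx
      have h1 : (1 : ℝ) / 4 ≤ x := hu1.trans hx.1
      rw [div_le_iff₀ (by linarith)]
      have h2 : 4 * ω * (1 / 4) ≤ 4 * ω * x := mul_le_mul_of_nonneg_left h1 (by linarith)
      linarith
    refine h0.trans ?_
    rw [intervalIntegral.integral_const, smul_eq_mul]
    have h1 : (1 / 3 + β - u) * (4 * ω) ≤ (1 / 4) * (4 * ω) :=
      mul_le_mul_of_nonneg_right (by linarith) (by linarith)
    linarith
  rw [e1] at k1
  unfold II
  have k6 : 5 * κ ≤ η / 2 := by rw [hκ]; linarith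
  have k7 : ω ≤ η / 4 := hω.le
  have k8 : ∑ q ∈ pr N u (1 / 3 + β), 1 / ((q : ℝ) - 1) * (GG (tt N q) + ω) ≤
      (∫ x in u..(1 / 3 : ℝ), GG x / x) + (∫ x in (1 / 3 : ℝ)..(1 / 3 + β), GG x / x) +
        (∫ x in u..(1 / 3 + β), ω / x) + κ * (2 * Real.log (1 / (1 / 4)) + 2) := by linarith
  refine k8.trans ?_
  linarith

end Pool.Agent.Q148.FN
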