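import Pool.Agent.Q148.FN.Core

/-! The linear sieve with well-factorable weights for an arbitrary finite sequence: the pointwise part. -/

set_option autoImplicit false

namespace Pool.Agent.Q148.FN

open Finset Filter
open Pool.Agent.W23.DC
open Pool.Agent.Y882
open Pool.Agent.Y882.JR

/-- products of indicators -/
theorem prod_ind (T : Finset ℕ) (hT : ∀ p ∈ T, p.Prime) (m : ℕ) :
    ∏ p ∈ T, (if p ∣ m then (1 : ℝ) else 0) = if (∏ p ∈ T, p) ∣ m then 1 else 0 := by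
  classical
  have h1 : (∀ p ∈ T, p ∣ m) ↔ (∏ p ∈ T, p) ∣ m := by
    constructor
    · intro h
      exact Finset.prod_primes_dvd m (fun p hp => (hT p hp).prime) h
    · intro h p hp
      exact (dvd_prod_of_mem (fun p => p) hp).trans h
  rw [Finset.prod_ite_zero]
  simp only [prod_const_one]
  by_cases h : ∀ p ∈ T, p ∣ m
  · rw [if_pos h, if_pos (h1.1 h)]
  · rw [if_neg h, if_neg (fun h' => h (h1.2 h'))]

open Classical in
/-- the sums of weights -/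
theorem wsum {ι : Type} (Ω : Finset ι) (v : ι → ℕ) (P : Finset ℕ) (hP : ∀ p ∈ P, p.Prime)
    (w : Finset ℕ → ℝ) (X : ℝ) (g : ℕ → ℝ) (E : ℝ)
    (hE : ∑ T ∈ P.powerset, |w T| *
      |((Ω.filter (fun n => (∏ p ∈ T, p) ∣ v n)).card : ℝ) - X * ∏ p ∈ T, g p| ≤ E) :
    |∑ n ∈ Ω, VV P w (fun p => if p ∣ v n then 1 else 0) - X * VV P w g| ≤ E := by
  have h1 : ∑ n ∈ Ω, VV P w (fun p => if p ∣ v n then 1 else 0) - X * VV P w g =
      ∑ T ∈ P.powerset, w T *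
        (((Ω.filter (fun n => (∏ p ∈ T, p) ∣ v n)).card : ℝ) - X * ∏ p ∈ T, g p) := by
    unfold VV
    rw [sum_comm, mul_sum, ← sum_sub_distrib]
    apply sum_congr rfl
    intro T hT
    rw [mem_powerset] at hT
    rw [mul_sub, ← mul_sum, card_filter]
    push_cast
    have h2 : ∀ n ∈ Ω, ∏ p ∈ T, (if p ∣ v n then (1 : ℝ) else 0) =
        if (∏ p ∈ T, p) ∣ v n then 1 else 0 := fun n _ => prod_ind T (fun p hp => hP p (hT hp)) _
    rw [sum_congr rfl h2]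
    ring
  rw [h1]
  refine (abs_sum_le_sum_abs _ _).trans (le_trans (le_of_eq ?_) hE)
  apply sum_congr rfl
  intro T _
  rw [abs_mul]

open Classical in
/-- **The linear sieve for a finite sequence**, with universal well-factorable weights. -/
theorem ptwR (κ : ℕ) (A0 : ℝ) (F f : ℝ → ℝ) (hSF : SF A0 F f) (τ ζ τ' δ : ℝ) (hζ : 0 < ζ)
    (h1 : ζ ≤ τ) (hτ : τ ≤ 1) (h5 : τ < τ') (hδ : 0 < δ) : ∃ ε₁ η : ℝ, 0 < ε₁ ∧ ε₁ ≤ ζ ∧ 0 < η ∧
      ∃ Y0 : ℕ, ∀ Y : ℕ, Y0 ≤ Y → ∃ wU wL : Finset ℕ → ℝ,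
      (∀ T, |wU T| ≤ 5 * Real.log Y ∧ |wL T| ≤ 5 * Real.log Y) ∧
      (∀ T ⊆ PZ Y ζ, (wU T ≠ 0 ∨ wL T ≠ 0) → ((∏ p ∈ T ∩ PZ Y ε₁, p : ℕ) : ℝ) ≤ (Y : ℝ) ^ (τ' - τ) ∧
        WFac (tt Y) τ (∏ p ∈ T ∩ pr Y ε₁ ζ, p)) ∧
      ∀ (ι : Type) (Ω : Finset ι) (v : ι → ℕ) (X : ℝ) (g : ℕ → ℝ) (E : ℝ), 0 ≤ X →
        (∀ p ∈ PZ Y ζ, 0 ≤ g p) → (∀ p ∈ PZ Y ζ, g p ≤ 1) →
        (∀ p ∈ PZ Y ζ, κ < p → g p ≤ κ / ((p : ℝ) - 1)) → Mer (pr Y ε₁ ζ) (tt Y) g ε₁ ζ η →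
        (∑ T ∈ (PZ Y ζ).powerset, |wU T| *
          |((Ω.filter (fun n => (∏ p ∈ T, p) ∣ v n)).card : ℝ) - X * ∏ p ∈ T, g p| ≤ E) →
        (∑ T ∈ (PZ Y ζ).powerset, |wL T| *
          |((Ω.filter (fun n => (∏ p ∈ T, p) ∣ v n)).card : ℝ) - X * ∏ p ∈ T, g p| ≤ E) →
        (f (τ / ζ) - δ) * (X * ∏ p ∈ PZ Y ζ, (1 - g p)) - E ≤
          ((Ω.filter (fun n => ∀ p ∈ PZ Y ζ, ¬ p ∣ v n)).card : ℝ) ∧
        ((Ω.filter (fun n => ∀ p ∈ PZ Y ζ, ¬ p ∣ v n)).card : ℝ) ≤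
          (F (τ / ζ) + δ) * (X * ∏ p ∈ PZ Y ζ, (1 - g p)) + E := by
  obtain ⟨ε₁, η, hε₁, hε₁ζ, hη, Y1, HC⟩ :=
    core6 κ A0 F f hSF τ ζ τ' δ hζ h1 hτ h5 hδ
  refine ⟨ε₁, η, hε₁, hε₁ζ, hη, Y1, fun Y hY => ?_⟩
  obtain ⟨wU, wL, c1, c2, c3, c4⟩ := HC Y hY
  refine ⟨wU, wL, c1, c2, ?_⟩
  intro ι Ω v X g E hX0 hg0 hg1 hg2 hmer e1 e2
  obtain ⟨m1, m2⟩ := c4 g hg0 hg1 hg2 hmer
  have hPr : ∀ p ∈ PZ Y ζ, p.Prime := by
    intro p hp
    unfold PZ at hp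
    rw [mem_filter] at hp
    exact hp.2.1
  have f1 := wsum Ω v (PZ Y ζ) hPr wU X g E e1
  have f2 := wsum Ω v (PZ Y ζ) hPr wL X g E e2
  set V := ∏ p ∈ PZ Y ζ, (1 - g p) with hV
  have hr : ((Ω.filter (fun n => ∀ p ∈ PZ Y ζ, ¬ p ∣ v n)).card : ℝ) =
      ∑ n ∈ Ω, (if ∀ p ∈ PZ Y ζ, ¬ p ∣ v n then (1 : ℝ) else 0) := by
    rw [card_filter]
    push_cast
    rfl
  constructor
  · have g3 : ∑ n ∈ Ω, VV (PZ Y ζ) wL (fun p => if p ∣ v n then 1 else 0) ≤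
        ((Ω.filter (fun n => ∀ p ∈ PZ Y ζ, ¬ p ∣ v n)).card : ℝ) := by
      rw [hr]
      exact sum_le_sum fun n _ => (c3 _).1
    have g4 := mul_le_mul_of_nonneg_left m1 hX0
    have g5 := neg_le_of_abs_le f2
    have g6 : (f (τ / ζ) - δ) * (X * V) = X * ((f (τ / ζ) - δ) * V) := by ring
    rw [g6]
    linarith
  · have g3 : ((Ω.filter (fun n => ∀ p ∈ PZ Y ζ, ¬ p ∣ v n)).card : ℝ) ≤
        ∑ n ∈ Ω, VV (PZ Y ζ) wU (fun p => if p ∣ v n then 1 else 0) := by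
      rw [hr]
      exact sum_le_sum fun n _ => (c3 _).2
    have g4 := mul_le_mul_of_nonneg_left m2 hX0
    have g5 := le_of_abs_le f1
    have g6 : (F (τ / ζ) + δ) * (X * V) = X * ((F (τ / ζ) + δ) * V) := by ring
    rw [g6]
    linarith

/-- the size of the support -/
theorem split_T (N : ℕ) (ζ ε₁ : ℝ) (T : Finset ℕ)
    (hT : T ⊆ PZ N ζ) : Squarefree (∏ p ∈ T, p) ∧
      ∏ p ∈ T, p = (∏ p ∈ T ∩ PZ N ε₁, p) * ∏ p ∈ T ∩ pr N ε₁ ζ, p := by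
  classical
  have hPr : ∀ p ∈ T, p.Prime := by
    intro p hp
    have := hT hp
    unfold PZ at this
    rw [mem_filter] at this
    exact this.2.1
  constructor
  · refine Finset.squarefree_prod_of_pairwise_isCoprime (fun p hp r hr hpr ↦ ?_) fun p hp ↦ ?_
    · simp only [← Nat.coprime_iff_isRelPrime]
      exact (Nat.coprime_primes (hPr p hp) (hPr r hr)).mpr hpr
    · exact (hPr p hp).squarefree
  · rw [← prod_union]
    · congr 1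
      ext p
      rw [mem_union, mem_inter, mem_inter]
      constructor
      · intro hp
        have h3 := hT hp
        unfold PZ at h3
        rw [mem_filter] at h3
        rcases lt_or_ge (tt N p) ε₁ with h | h
        · left
          refine ⟨hp, ?_⟩
          unfold PZ
          rw [mem_filter]
          exact ⟨h3.1, h3.2.1, h⟩
        · right
          refine ⟨hp, ?_⟩
          unfold pr
          rw [mem_filter]
          exact ⟨h3.1, h3.2.1, h, h3.2.2⟩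
      · rintro (h | h) <;> exact h.1
    · rw [disjoint_left]
      intro p hp hq
      rw [mem_inter] at hp hq
      have h3 := hp.2
      have h4 := hq.2
      unfold PZ at h3
      unfold pr at h4
      rw [mem_filter] at h3 h4
      linarith [h3.2.2, h4.2.2.1]

end Pool.Agent.Q148.FN
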