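import Pool.Agent.Q148.FN.Bx
import Pool.Agent.Q148.FN.Cons
import Pool.Agent.Y261.CH.Blv

/-! The switching principle: an upper bound for the number of the primes `p` with `n - p` a product of three primes. -/

set_option autoImplicit false

namespace Pool.Agent.Q148.FN

open Finset Filter
open Pool.Agent.W23.DC
open Pool.Agent.Y882
open Pool.Agent.Q148.BA (gh gh_prime gh_mul gh_one gh_nn gh_p1 gh_half PP mem_PP sing_ge)
open Pool.Agent.Q148.KJ (PZ_mem)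
open Pool.Agent.H560R3.GB (sing)

/-- from sets of primes to moduli -/
theorem sets_to_mod (P : Finset ℕ) (hP : ∀ p ∈ P, p.Prime) (w : Finset ℕ → ℝ) (A : ℝ) (hA : 0 ≤ A)
    (hw : ∀ T, |w T| ≤ A) (D : Finset ℕ) (r : ℕ → ℝ) (hr : ∀ d, 0 ≤ r d)
    (hmem : ∀ T ⊆ P, w T ≠ 0 → ∏ p ∈ T, p ∈ D) :
    ∑ T ∈ P.powerset, |w T| * r (∏ p ∈ T, p) ≤ A * ∑ d ∈ D, r d := by
  classical
  have h1 : ∑ T ∈ P.powerset, |w T| * r (∏ p ∈ T, p) ≤
      ∑ T ∈ (P.powerset).filter (fun T => w T ≠ 0), A * r (∏ p ∈ T, p) := by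
    rw [sum_filter]
    apply sum_le_sum
    intro T _
    by_cases h0 : w T ≠ 0
    · rw [if_pos h0]
      exact mul_le_mul_of_nonneg_right (hw T) (hr _)
    · rw [if_neg h0]
      rw [not_ne_iff] at h0
      rw [h0, abs_zero, zero_mul]
  refine h1.trans ?_
  rw [← mul_sum]
  apply mul_le_mul_of_nonneg_left _ hA
  rw [← sum_image (f := r) (g := fun T : Finset ℕ => ∏ p ∈ T, p)]
  · apply sum_le_sum_of_subset_of_nonneg
    · intro d hd
      rw [mem_image] at hd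
      obtain ⟨T, hT, rfl⟩ := hd
      rw [mem_filter, mem_powerset] at hT
      exact hmem T hT.1 hT.2
    · intro d _ _
      exact hr d
  · intro T hT T' hT' h
    have h2 := mem_powerset.1 (mem_filter.1 (mem_coe.1 hT)).1
    have h3 := mem_powerset.1 (mem_filter.1 (mem_coe.1 hT')).1
    have h4 := congrArg Nat.primeFactors h
    simp only at h4
    rwa [Nat.primeFactors_prod (fun p hp => hP p (h2 hp)), Nat.primeFactors_prod (fun p hp => hP p (h3 hp))] at h4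

/-- the size of a well-factorable number -/
theorem wfac_le (N : ℕ) (hN : 2 ≤ N) (τ : ℝ) (hτ : 0 ≤ τ) (e : ℕ) (hes : Squarefree e) (he : WFac (tt N) τ e) :
    (e : ℝ) ≤ (N : ℝ) ^ τ := by
  have hNr : (2 : ℝ) ≤ N := by exact_mod_cast hN
  have hN0 : (0 : ℝ) < N := by linarith
  have hL : 0 < Real.log N := Real.log_pos (by linarith)
  have he0 : e ≠ 0 := hes.ne_zero
  have he0' : (0 : ℝ) < e := by exact_mod_cast Nat.pos_of_ne_zero he0
  obtain ⟨u, v, huv, hu, hv⟩ := he τ 0 hτ le_rfl (by ring)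
  have hu0 : u ≠ 0 := by rintro rfl; rw [zero_mul] at huv; exact he0 huv.symm
  have hv0 : v ≠ 0 := by rintro rfl; rw [mul_zero] at huv; exact he0 huv.symm
  have hus : Squarefree u := hes.squarefree_of_dvd ⟨v, huv.symm⟩
  have hvs : Squarefree v := hes.squarefree_of_dvd ⟨u, by rw [mul_comm, huv]⟩
  rw [sz_eq N u hus hu0] at hu
  rw [sz_eq N v hvs hv0] at hv
  rw [div_le_iff₀ hL] at hu hv
  rw [← Real.log_le_log_iff he0' (by positivity), Real.log_rpow hN0]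
  have : (e : ℝ) = u * v := by rw [← Nat.cast_mul, huv]
  rw [this, Real.log_mul (by exact_mod_cast hu0) (by exact_mod_cast hv0)]
  linarith

open Classical in
/-- the error of one box -/
theorem box_err (U : ℕ) : ∃ X₀ : ℕ, ∀ n : ℕ, X₀ ≤ n → ∀ u ρ : ℝ, 1 / 4 ≤ u → u < 1 / 3 → 0 < ρ → ρ ≤ 1 / 10 →
    ∀ j < JJ n u ρ,
    ∑ d ∈ (Icc 1 ⌊(n : ℝ) ^ (4995 / 10000 : ℝ)⌋₊).filter (fun d => Squarefree d ∧ n.Coprime d),
      |(((bx n u ρ j ×ˢ TT n (xx n u ρ j)).filter (fun x => d ∣ Nat.dist (x.1 * x.2) n)).card : ℝ) -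
        ((bx n u ρ j).card : ℝ) * ((TT n (xx n u ρ j)).card : ℝ) * gh n d| ≤ n / Real.log n ^ U := by
  obtain ⟨X₀, HB⟩ := Pool.Agent.Y261.CH.blv 1 1 U le_rfl le_rfl
  have e1 := (tendsto_rpow_atTop (show (0 : ℝ) < 1 / 12 by norm_num)).eventually_ge_atTop 3
  obtain ⟨N2, H2⟩ := eventually_atTop.1 ((tendsto_natCast_atTop_atTop (R := ℝ)).eventually e1)
  refine ⟨max (max X₀ N2) 3, fun n hn u ρ hu1 hu2 hρ0 hρ1 j hj => ?_⟩
  have hn1 : X₀ ≤ n := ((le_max_left _ _).trans (le_max_left _ _)).trans hn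
  have hn2 : N2 ≤ n := ((le_max_right _ _).trans (le_max_left _ _)).trans hn
  have hn3 : 3 ≤ n := (le_max_right _ _).trans hn
  have hnr : (3 : ℝ) ≤ n := by exact_mod_cast hn3
  have hn0 : (0 : ℝ) < n := by linarith
  have hn1' : (1 : ℝ) ≤ n := by linarith
  have f2 := H2 n hn2
  obtain ⟨θ, g1, g2, g3, g4⟩ := xx_exp n hn3 u ρ hρ0 hu2 j hj
  have hx0 := xx_pos n (by omega) u ρ hρ0 j
  have hx1 := xx_pos n (by omega) u ρ hρ0 (j + 1)
  have c0 : 0 < ⌈xx n u ρ j⌉₊ := Nat.ceil_pos.2 hx0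
  have c1 : 0 < ⌈xx n u ρ (j + 1)⌉₊ := Nat.ceil_pos.2 hx1
  have hquarter : (n : ℝ) ^ (1 / 4 : ℝ) ≤ xx n u ρ j := by
    rw [g3]
    exact Real.rpow_le_rpow_of_exponent_le hn1' (by linarith)
  have h12 : (n : ℝ) ^ (1 / 4 : ℝ) = (n : ℝ) ^ (1 / 9 : ℝ) * ((n : ℝ) ^ (1 / 12 : ℝ) * (n : ℝ) ^ (1 / 18 : ℝ)) := by
    rw [← Real.rpow_add hn0, ← Real.rpow_add hn0]
    norm_num
  have h9 : 1 ≤ (n : ℝ) ^ (1 / 9 : ℝ) := Real.one_le_rpow hn1' (by norm_num)
  have h18 : 1 ≤ (n : ℝ) ^ (1 / 18 : ℝ) := Real.one_le_rpow hn1' (by norm_num)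
  have hbig : (n : ℝ) ^ (1 / 9 : ℝ) + 1 ≤ xx n u ρ j := by
    refine le_trans ?_ hquarter
    rw [h12]
    have h3 : 3 * 1 ≤ (n : ℝ) ^ (1 / 12 : ℝ) * (n : ℝ) ^ (1 / 18 : ℝ) := mul_le_mul f2 h18 (by norm_num) (by linarith)
    nlinarith
  have hM0 : (n : ℝ) ^ (1 / 9 : ℝ) ≤ ed n u ρ j := by
    unfold ed
    rw [Nat.cast_sub c0]
    have := Nat.le_ceil (xx n u ρ j)
    push_cast
    linarith
  have hM01 : ed n u ρ j ≤ ed n u ρ (j + 1) := by
    unfold ed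
    have := Nat.ceil_mono (xx_mono n (by omega) u ρ hρ0 (show j ≤ j + 1 by omega))
    omega
  have hM1x : (ed n u ρ (j + 1) : ℝ) ≤ xx n u ρ (j + 1) := by
    unfold ed
    rw [Nat.cast_sub c1]
    have := Nat.ceil_lt_add_one hx1.le
    push_cast
    linarith
  have hM1 : (ed n u ρ (j + 1) : ℝ) ≤ (n : ℝ) ^ (2 / 5 : ℝ) := by
    refine hM1x.trans ?_
    rw [g4]
    have h3 : (n : ℝ) ^ θ ≤ (n : ℝ) ^ (1 / 3 : ℝ) := Real.rpow_le_rpow_of_exponent_le hn1' g2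
    have h4 : (n : ℝ) ^ (2 / 5 : ℝ) = (n : ℝ) ^ (1 / 3 : ℝ) * (n : ℝ) ^ (1 / 15 : ℝ) := by
      rw [← Real.rpow_add hn0]
      norm_num
    have h5 : 2 ≤ (n : ℝ) ^ (1 / 15 : ℝ) := by
      have h6 : (n : ℝ) ^ (1 / 15 : ℝ) = ((n : ℝ) ^ (1 / 12 : ℝ)) ^ (4 / 5 : ℝ) := by
        rw [← Real.rpow_mul hn0.le]
        norm_num
      rw [h6]
      have h7 : (3 : ℝ) ^ (4 / 5 : ℝ) ≤ ((n : ℝ) ^ (1 / 12 : ℝ)) ^ (4 / 5 : ℝ) :=
        Real.rpow_le_rpow (by norm_num) f2 (by norm_num)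
      refine le_trans ?_ h7
      rw [← Real.rpow_le_rpow_iff (z := 5) (by norm_num) (by positivity) (by norm_num),
        ← Real.rpow_mul (by norm_num)]
      norm_num
    rw [h4]
    apply mul_le_mul h3 (by linarith) (by linarith) (by positivity)
  have hfl : ((⌊(n : ℝ) / xx n u ρ j⌋₊ : ℕ) : ℝ) ≤ n / xx n u ρ j := Nat.floor_le (by positivity)
  have hMY : ed n u ρ (j + 1) * ⌊(n : ℝ) / xx n u ρ j⌋₊ ≤ 5 * n := by
    have h3 : (ed n u ρ (j + 1) : ℝ) * ((⌊(n : ℝ) / xx n u ρ j⌋₊ : ℕ) : ℝ) ≤ 5 * n := by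
      calc (ed n u ρ (j + 1) : ℝ) * ((⌊(n : ℝ) / xx n u ρ j⌋₊ : ℕ) : ℝ) ≤
          xx n u ρ (j + 1) * (n / xx n u ρ j) := mul_le_mul hM1x hfl (Nat.cast_nonneg _) hx1.le
        _ = (1 + ρ) * n := by
            rw [g4, ← g3]
            field_simp
        _ ≤ 5 * n := mul_le_mul_of_nonneg_right (by linarith) hn0.le
    exact_mod_cast h3
  have hb := HB n hn1 (ed n u ρ j) (ed n u ρ (j + 1)) ⌊(n : ℝ) / xx n u ρ j⌋₊ hM0 hM01 hM1 hMY
    (TT n (xx n u ρ j)) (by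
      intro m hm
      unfold TT at hm
      rw [mem_filter, mem_Icc] at hm
      obtain ⟨⟨k1, k2⟩, q, r, hq, hr, k3, k4, rfl⟩ := hm
      refine ⟨k1, k2, fun p hp => ?_⟩
      rw [Nat.primeFactors_mul hq.ne_zero hr.ne_zero, mem_union, hq.primeFactors, hr.primeFactors, mem_singleton,
        mem_singleton] at hp
      have k5 : (n : ℝ) ^ (1 / 9 : ℝ) ≤ q := by linarith
      rcases hp with rfl | rfl
      · exact k5
      · exact k5.trans (by exact_mod_cast k4)) (fun _ => n)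
  simp only [Nat.cast_one, one_pow, one_mul] at hb
  refine le_trans (le_of_eq ?_) hb
  apply sum_congr rfl
  intro d hd
  rw [mem_filter] at hd
  have k1 : gh n d = 1 / (d.totient : ℝ) := by
    unfold gh
    rw [if_pos hd.2.2.symm]
  rw [k1, mul_one_div]
  have k2 : (bx n u ρ j ×ˢ TT n (xx n u ρ j)).filter (fun x => d ∣ Nat.dist (x.1 * x.2) n) =
      ((((Ioc (ed n u ρ j) (ed n u ρ (j + 1))).filter Nat.Prime) ×ˢ TT n (xx n u ρ j)).filter
        (fun x => x.1 * x.2 ≡ n [MOD d])) := by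
    unfold bx
    apply filter_congr
    intro x _
    rw [dvd_dist]
  rw [k2]
  rfl

open Classical in
/-- the number of the primes `p ≤ n` such that `n - p` is a product of three primes `≥ n ^ u` -/
noncomputable def Tr (n : ℕ) (u : ℝ) : ℝ :=
  (((PP n).filter (fun p => ∃ q r s : ℕ, q.Prime ∧ r.Prime ∧ s.Prime ∧ (n : ℝ) ^ u ≤ q ∧ q ≤ r ∧ r ≤ s ∧
    n = p + q * (r * s))).card : ℝ)

open Classical in
/-- the sifted pairs of a box -/
noncomputable def Sb (n : ℕ) (u ρ ζ : ℝ) (j : ℕ) : Finset (ℕ × ℕ) :=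
  (bx n u ρ j ×ˢ TT n (xx n u ρ j)).filter (fun x => ∀ q ∈ PZ n ζ, ¬ q ∣ Nat.dist (x.1 * x.2) n)

/-- the triples are in the boxes -/
theorem Tr_le (n : ℕ) (hn : 3 ≤ n) (u ρ ζ : ℝ) (hρ : 0 < ρ) (hu : u < 1 / 3) (hζ0 : 0 < ζ) :
    Tr n u ≤ (n : ℝ) ^ ζ + ∑ j ∈ range (JJ n u ρ), ((Sb n u ρ ζ j).card : ℝ) := by
  classical
  have hnr : (3 : ℝ) ≤ n := by exact_mod_cast hn
  have hn0 : (0 : ℝ) < n := by linarith
  have hsub : (PP n).filter (fun p => ∃ q r s : ℕ, q.Prime ∧ r.Prime ∧ s.Prime ∧ (n : ℝ) ^ u ≤ q ∧ q ≤ r ∧ r ≤ s ∧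
      n = p + q * (r * s)) ⊆ Icc 1 ⌊(n : ℝ) ^ ζ⌋₊ ∪
        (range (JJ n u ρ)).biUnion (fun j => (Sb n u ρ ζ j).image (fun x => n - x.1 * x.2)) := by
    intro p hp
    rw [mem_filter, mem_PP] at hp
    obtain ⟨⟨hp1, hp2⟩, q, r, s, hq, hr, hs, h1, h2, h3, h4⟩ := hp
    rw [mem_union]
    rcases le_or_gt (p : ℝ) ((n : ℝ) ^ ζ) with h5 | h5
    · left
      rw [mem_Icc]
      exact ⟨hp1.one_le, Nat.le_floor h5⟩
    · right
      have hq0 : (0 : ℝ) < q := by exact_mod_cast hq.pos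
      have hqrs : q * (r * s) ≤ n := by omega
      have hq3 : (q : ℝ) ≤ (n : ℝ) ^ (1 / 3 : ℝ) := by
        have h6 : q * (q * q) ≤ q * (r * s) := Nat.mul_le_mul_left _ (Nat.mul_le_mul h2 (h2.trans h3))
        have h7 : (q : ℝ) * (q * q) ≤ n := by exact_mod_cast h6.trans hqrs
        have h8 : (q : ℝ) = ((q : ℝ) ^ (3 : ℝ)) ^ (1 / 3 : ℝ) := by
          rw [← Real.rpow_mul hq0.le]
          norm_num
        rw [h8]
        apply Real.rpow_le_rpow (by positivity) _ (by norm_num)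
        have h9 : (q : ℝ) ^ (3 : ℝ) = q * (q * q) := by
          rw [show (3 : ℝ) = ((3 : ℕ) : ℝ) by norm_num, Real.rpow_natCast]
          ring
        rw [h9]
        exact h7
      obtain ⟨j, hj, hqj⟩ := ex_box n hn u ρ hρ hu q hq h1 hq3
      have hqj' := (mem_bx n (by omega) u ρ hρ j q).1 hqj
      have hx0 := xx_pos n (by omega) u ρ hρ j
      rw [mem_biUnion]
      refine ⟨j, mem_range.2 hj, ?_⟩
      rw [mem_image]
      refine ⟨(q, r * s), ?_, by simp only; omega⟩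
      unfold Sb
      rw [mem_filter, mem_product]
      refine ⟨⟨hqj, ?_⟩, ?_⟩
      · unfold TT
        rw [mem_filter, mem_Icc]
        refine ⟨⟨Nat.mul_pos hr.pos hs.pos, Nat.le_floor ?_⟩, r, s, hr, hs, ?_, h3, rfl⟩
        · rw [le_div_iff₀ hx0]
          have h6 : ((r * s : ℕ) : ℝ) * q ≤ n := by
            have : (r * s) * q ≤ n := by rw [mul_comm]; exact hqrs
            exact_mod_cast this
          have h7 : ((r * s : ℕ) : ℝ) * xx n u ρ j ≤ ((r * s : ℕ) : ℝ) * q :=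
            mul_le_mul_of_nonneg_left hqj'.2.1 (Nat.cast_nonneg _)
          linarith
        · have : (q : ℝ) ≤ r := by exact_mod_cast h2
          linarith [hqj'.2.1]
      · intro q' hq' hd
        simp only at hd
        have h6 : Nat.dist (q * (r * s)) n = p := by
          rw [Nat.dist_eq_sub_of_le hqrs]
          omega
        rw [h6] at hd
        obtain ⟨k1, k2, k3⟩ := PZ_mem n (by omega) ζ q' hq'
        have h7 := (Nat.prime_dvd_prime_iff_eq k1 hp1).1 hd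
        rw [h7] at k3
        linarith
  have h1 := (card_le_card hsub).trans (card_union_le _ _)
  have h2 : ((range (JJ n u ρ)).biUnion (fun j => (Sb n u ρ ζ j).image (fun x => n - x.1 * x.2))).card ≤
      ∑ j ∈ range (JJ n u ρ), (Sb n u ρ ζ j).card :=
    card_biUnion_le.trans (sum_le_sum fun j _ => card_image_le)
  rw [Nat.card_Icc, Nat.add_sub_cancel] at h1
  have h3 : (((PP n).filter (fun p => ∃ q r s : ℕ, q.Prime ∧ r.Prime ∧ s.Prime ∧ (n : ℝ) ^ u ≤ q ∧ q ≤ r ∧ r ≤ s ∧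
      n = p + q * (r * s))).card : ℝ) ≤ (⌊(n : ℝ) ^ ζ⌋₊ : ℝ) + ∑ j ∈ range (JJ n u ρ), ((Sb n u ρ ζ j).card : ℝ) := by
    exact_mod_cast h1.trans (Nat.add_le_add_left h2 _)
  have h4 : (⌊(n : ℝ) ^ ζ⌋₊ : ℝ) ≤ (n : ℝ) ^ ζ := Nat.floor_le (by positivity)
  unfold Tr
  linarith

end Pool.Agent.Q148.FN
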