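import Pool.Agent.Q148.FN.Sw

/-! The switching principle: the upper bound. -/

set_option autoImplicit false

namespace Pool.Agent.Q148.FN

open Finset Filter
open Pool.Agent.W23.DC
open Pool.Agent.Y882
open Pool.Agent.Q148.BA (gh gh_prime gh_mul gh_one gh_nn gh_p1 gh_half PP mem_PP sing_ge)
open Pool.Agent.Q148.KJ (PZ_mem)
open Pool.Agent.H560R3.GB (sing)

open Classical in
/-- no small prime factors -/
theorem no_small (n : ℕ) (hn : 3 ≤ n) (u ρ : ℝ) (hρ : 0 < ρ) (j : ℕ) (x : ℕ × ℕ)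
    (hx : x ∈ bx n u ρ j ×ˢ TT n (xx n u ρ j)) (q : ℕ) (hq : q.Prime) (hqx : q ∣ x.1 * x.2) :
    (n : ℝ) ^ u ≤ q := by
  have h0 : (n : ℝ) ^ u ≤ xx n u ρ j := by
    have := xx_mono n (by omega) u ρ hρ (Nat.zero_le j)
    unfold xx at this ⊢
    simpa using this
  rw [mem_product] at hx
  obtain ⟨h1, h2⟩ := hx
  rw [mem_bx n (by omega) u ρ hρ] at h1
  unfold TT at h2
  rw [mem_filter, mem_Icc] at h2
  obtain ⟨_, r, s, hr, hs, k1, k2, k3⟩ := h2
  rw [hq.dvd_mul, k3, hq.dvd_mul] at hqx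
  rcases hqx with h | h | h
  · rw [(Nat.prime_dvd_prime_iff_eq hq h1.1).1 h]
    exact h0.trans h1.2.1
  · rw [(Nat.prime_dvd_prime_iff_eq hq hr).1 h]
    exact h0.trans k1
  · rw [(Nat.prime_dvd_prime_iff_eq hq hs).1 h]
    exact h0.trans (k1.trans (by exact_mod_cast k2))

open Classical in
/-- **the error of one box**, summed over the weights -/
theorem err_box (U : ℕ) : ∃ X₀ : ℕ, ∀ n : ℕ, X₀ ≤ n → ∀ u ρ : ℝ, 1 / 4 ≤ u → u < 1 / 3 → 0 < ρ → ρ ≤ 1 / 10 →
    ∀ j < JJ n u ρ, ∀ (ε₁ : ℝ) (w : Finset ℕ → ℝ), (∀ T, |w T| ≤ 5 * Real.log n) →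
    (∀ T ⊆ PZ n (499 / 2000), w T ≠ 0 → ((∏ p ∈ T ∩ PZ n ε₁, p : ℕ) : ℝ) ≤ (n : ℝ) ^ (4995 / 10000 - 499 / 1000 : ℝ) ∧
      WFac (tt n) (499 / 1000) (∏ p ∈ T ∩ pr n ε₁ (499 / 2000), p)) →
    ∑ T ∈ (PZ n (499 / 2000)).powerset, |w T| *
      |(((bx n u ρ j ×ˢ TT n (xx n u ρ j)).filter (fun x => (∏ q ∈ T, q) ∣ Nat.dist (x.1 * x.2) n)).card : ℝ) -
        (((bx n u ρ j).card : ℝ) * ((TT n (xx n u ρ j)).card : ℝ)) * ∏ p ∈ T, gh n p| ≤
      5 * Real.log n * (n / Real.log n ^ U) := by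
  obtain ⟨X₀, HB⟩ := box_err U
  refine ⟨max X₀ 3, fun n hn u ρ hu1 hu2 hρ0 hρ1 j hj ε₁ w hw hsup => ?_⟩
  have hn1 : X₀ ≤ n := (le_max_left _ _).trans hn
  have hn3 : 3 ≤ n := (le_max_right _ _).trans hn
  have hnr : (3 : ℝ) ≤ n := by exact_mod_cast hn3
  have hn0 : (0 : ℝ) < n := by linarith
  have hn1' : (1 : ℝ) < n := by linarith
  have hL0 : 0 < Real.log n := Real.log_pos hn1'
  have hb := HB n hn1 u ρ hu1 hu2 hρ0 hρ1 j hj
  obtain ⟨r, hr⟩ : ∃ r : ℕ → ℝ, r = fun d =>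
      |(((bx n u ρ j ×ˢ TT n (xx n u ρ j)).filter (fun x => d ∣ Nat.dist (x.1 * x.2) n)).card : ℝ) -
        ((bx n u ρ j).card : ℝ) * ((TT n (xx n u ρ j)).card : ℝ) * gh n d| := ⟨_, rfl⟩
  have hr0 : ∀ d, 0 ≤ r d := fun d => by rw [hr]; exact abs_nonneg _
  have hPr : ∀ p ∈ PZ n (499 / 2000), p.Prime := fun p hp => (PZ_mem n (by omega) _ p hp).1
  have h1 : ∑ T ∈ (PZ n (499 / 2000)).powerset, |w T| *
      |(((bx n u ρ j ×ˢ TT n (xx n u ρ j)).filter (fun x => (∏ q ∈ T, q) ∣ Nat.dist (x.1 * x.2) n)).card : ℝ) -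
        (((bx n u ρ j).card : ℝ) * ((TT n (xx n u ρ j)).card : ℝ)) * ∏ p ∈ T, gh n p| =
      ∑ T ∈ (PZ n (499 / 2000)).powerset, |w T| * r (∏ p ∈ T, p) := by
    apply sum_congr rfl
    intro T hT
    rw [mem_powerset] at hT
    rw [hr]
    simp only
    rw [gh_prod n T fun p hp => hPr p (hT hp)]
  rw [h1]
  obtain ⟨D, hD⟩ : ∃ D : Finset ℕ, D = (Icc 1 ⌊(n : ℝ) ^ (4995 / 10000 : ℝ)⌋₊).filter (fun d => Squarefree d ∧
    ∀ q : ℕ, q.Prime → q ∣ d → (q : ℝ) < (n : ℝ) ^ (499 / 2000 : ℝ)) := ⟨_, rfl⟩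
  have h2 := sets_to_mod (PZ n (499 / 2000)) hPr w (5 * Real.log n) (by positivity) hw D r hr0 (by
    intro T hT h0
    obtain ⟨k1, k2⟩ := hsup T hT h0
    obtain ⟨s1, s2⟩ := split_T n (499 / 2000) ε₁ T hT
    rw [hD, mem_filter, mem_Icc]
    have hpos : 0 < ∏ p ∈ T, p := Nat.pos_of_ne_zero s1.ne_zero
    refine ⟨⟨hpos, Nat.le_floor ?_⟩, s1, ?_⟩
    · have hsq : Squarefree (∏ p ∈ T ∩ pr n ε₁ (499 / 2000), p) := by
        rw [s2] at s1
        exact s1.squarefree_of_dvd (dvd_mul_left _ _)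
      have k3 := wfac_le n (by omega) (499 / 1000) (by norm_num) _ hsq k2
      rw [s2]
      have h5 : (n : ℝ) ^ (4995 / 10000 : ℝ) = (n : ℝ) ^ (4995 / 10000 - 499 / 1000 : ℝ) * (n : ℝ) ^ (499 / 1000 : ℝ) := by
        rw [← Real.rpow_add hn0]
        norm_num
      rw [h5, Nat.cast_mul]
      exact mul_le_mul k1 k3 (Nat.cast_nonneg _) (by positivity)
    · intro q hq hqd
      rw [hq.prime.dvd_finsetProd_iff] at hqd
      obtain ⟨p, hp, hqp⟩ := hqd
      obtain ⟨g1, g2, g3⟩ := PZ_mem n (by omega) _ p (hT hp)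
      rw [(Nat.prime_dvd_prime_iff_eq hq g1).1 hqp]
      exact g3)
  refine h2.trans ?_
  apply mul_le_mul_of_nonneg_left _ (by positivity)
  refine le_trans ?_ hb
  have h3 : ∑ d ∈ D, r d = ∑ d ∈ D.filter (fun d => n.Coprime d), r d := by
    rw [sum_filter]
    apply sum_congr rfl
    intro d hd
    split_ifs with hc
    · rfl
    · rw [hD, mem_filter] at hd
      obtain ⟨_, k1, k2⟩ := hd
      rw [hr]
      simp only
      have h4 : gh n d = 0 := by
        unfold gh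
        rw [if_neg]
        intro h
        exact hc h.symm
      have h5 : (bx n u ρ j ×ˢ TT n (xx n u ρ j)).filter (fun x => d ∣ Nat.dist (x.1 * x.2) n) = ∅ := by
        rw [filter_eq_empty_iff]
        intro x hx hdx
        obtain ⟨q, hq, hqn, hqd⟩ := Nat.Prime.not_coprime_iff_dvd.1 hc
        have h6 : q ∣ Nat.dist (x.1 * x.2) n := hqd.trans hdx
        rw [dvd_dist] at h6
        have h7 : q ∣ x.1 * x.2 := (Nat.modEq_zero_iff_dvd.1 (h6.trans ((Nat.modEq_zero_iff_dvd).2 hqn)))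
        have h8 := no_small n hn3 u ρ hρ0 j x hx q hq h7
        have h9 := k2 q hq hqd
        have h10 : (n : ℝ) ^ (499 / 2000 : ℝ) ≤ (n : ℝ) ^ u :=
          Real.rpow_le_rpow_of_exponent_le hn1'.le (by linarith)
        linarith
      rw [h4, h5]
      simp
  rw [h3, hr]
  apply sum_le_sum_of_subset_of_nonneg
  · intro d hd
    rw [hD, mem_filter, mem_filter] at hd
    rw [mem_filter]
    exact ⟨hd.1.1, hd.1.2.1, hd.2⟩
  · intro d _ _
    exact abs_nonneg _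

theorem II_nonneg (u : ℝ) (hu1 : 1 / 4 ≤ u) (hu2 : u < 1 / 3) : 0 ≤ II u := by
  unfold II
  apply intervalIntegral.integral_nonneg hu2.le
  intro t ht
  exact div_nonneg (GG_nonneg t (hu1.trans ht.1) ht.2) (by linarith [ht.1])

/-- **the switching principle** -/
theorem sw (u η : ℝ) (hu1 : 1 / 4 ≤ u) (hu2 : u < 1 / 3) (hη : 0 < η) (hη1 : η ≤ 1) :
    ∃ N0 : ℕ, ∀ n : ℕ, N0 ≤ n → Even n →
      Tr n u ≤ (401 / 100 * II u + η) * (sing n * n / Real.log n ^ 2) := by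
  classical
  obtain ⟨F, f, hSF⟩ := SFu
  obtain ⟨ε₁, η', hε₁, hε₁ζ, hη', N1, HP⟩ := ptwR 1 _ F f hSF (499 / 1000) (499 / 2000) (4995 / 10000) (1 / 10000)
    (by norm_num) (by norm_num) (by norm_num) (by norm_num) (by norm_num)
  obtain ⟨N2, HM⟩ := mer_gh ε₁ (499 / 2000) η' hε₁ (by norm_num) hη'
  obtain ⟨N3, HV⟩ := V_gh (499 / 2000) (1 / 10000) (by norm_num) (by norm_num) (by norm_num) (by norm_num)
  obtain ⟨ρ, hρ0, hρ1, N4, HX⟩ := mass u (η / 8) hu1 hu2 (by linarith) (by linarith)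
  obtain ⟨N5, HE⟩ := err_box 7
  have hlr : 0 < Real.log (1 + ρ) := Real.log_pos (by linarith)
  obtain ⟨K, hK⟩ : ∃ K : ℝ, K = (1 / 3 - u) / Real.log (1 + ρ) + 1 := ⟨_, rfl⟩
  have hK1 : 1 ≤ K := by
    rw [hK]
    have : 0 ≤ (1 / 3 - u) / Real.log (1 + ρ) := div_nonneg (by linarith) hlr.le
    linarith
  have e1 := Pool.Agent.H398R2.BV.ev_log (8 / η) 2 (1 / 2) (by norm_num)
  have e2 := Real.tendsto_log_atTop.eventually_ge_atTop (1 + 40 * K / η)
  obtain ⟨N6, H6⟩ := eventually_atTop.1 ((tendsto_natCast_atTop_atTop (R := ℝ)).eventually (e1.and e2))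
  refine ⟨max (max (max N1 N2) (max N3 N4)) (max (max N5 N6) 3), fun n hn hne => ?_⟩
  have hn1 : N1 ≤ n := ((le_max_left _ _).trans ((le_max_left _ _).trans (le_max_left _ _))).trans hn
  have hn2 : N2 ≤ n := ((le_max_right _ _).trans ((le_max_left _ _).trans (le_max_left _ _))).trans hn
  have hn3 : N3 ≤ n := ((le_max_left _ _).trans ((le_max_right _ _).trans (le_max_left _ _))).trans hn
  have hn4 : N4 ≤ n := ((le_max_right _ _).trans ((le_max_right _ _).trans (le_max_left _ _))).trans hn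
  have hn5 : N5 ≤ n := ((le_max_left _ _).trans ((le_max_left _ _).trans (le_max_right _ _))).trans hn
  have hn6 : N6 ≤ n := ((le_max_right _ _).trans ((le_max_left _ _).trans (le_max_right _ _))).trans hn
  have hn7 : 3 ≤ n := ((le_max_right _ _).trans (le_max_right _ _)).trans hn
  have hnr : (3 : ℝ) ≤ n := by exact_mod_cast hn7
  have hn0 : (0 : ℝ) < n := by linarith
  obtain ⟨f1, f2⟩ := H6 n hn6
  obtain ⟨wU, wL, c1, c2, c3⟩ := HP n hn1
  have hmer := HM n hn2 n (by omega) le_rfl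
  obtain ⟨_, v2⟩ := HV n hn3 n (by omega) le_rfl hne
  have hmass := HX n hn4
  have hT := Tr_le n hn7 u ρ (499 / 2000) hρ0 hu2 (by norm_num)
  obtain ⟨L, hL⟩ : ∃ L : ℝ, L = Real.log n := ⟨_, rfl⟩
  rw [← hL] at f1 f2 v2 hmass ⊢
  have hKη : 0 < 40 * K / η := by positivity
  have hL1 : 1 ≤ L := by linarith
  have hL0 : 0 < L := by linarith
  have hsa := sing_ge n
  obtain ⟨V, hV⟩ : ∃ V : ℝ, V = ∏ p ∈ PZ n (499 / 2000), (1 - gh n p) := ⟨_, rfl⟩
  have hg1 : ∀ p ∈ PZ n (499 / 2000), gh n p ≤ 1 := fun p hp => by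
    have := gh_half n p hne (PZ_mem n (by omega) _ p hp).1
    linarith
  have hV0 : 0 ≤ V := by
    rw [hV]
    exact prod_nonneg fun p hp => by linarith [hg1 p hp]
  rw [← hV] at v2
  have hF : F (499 / 1000 / (499 / 2000)) = Real.exp Real.eulerMascheroniConstant := by
    have h1 : (499 / 1000 : ℝ) / (499 / 2000) = 2 := by norm_num
    rw [h1, hSF.F3 2 (by norm_num) (by norm_num)]
    ring
  -- one box
  have hbox : ∀ j ∈ range (JJ n u ρ), ((Sb n u ρ (499 / 2000) j).card : ℝ) ≤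
      (Real.exp Real.eulerMascheroniConstant + 1 / 10000) *
        ((((bx n u ρ j).card : ℝ) * ((TT n (xx n u ρ j)).card : ℝ)) * V) + 5 * L * (n / L ^ 7) := by
    intro j hj
    rw [mem_range] at hj
    have hEU := HE n hn5 u ρ hu1 hu2 hρ0 hρ1 j hj ε₁ wU (fun T => (c1 T).1)
      (fun T hT h0 => c2 T hT (Or.inl h0))
    have hEL := HE n hn5 u ρ hu1 hu2 hρ0 hρ1 j hj ε₁ wL (fun T => (c1 T).2)
      (fun T hT h0 => c2 T hT (Or.inr h0))
    have hpt := (c3 (ℕ × ℕ) (bx n u ρ j ×ˢ TT n (xx n u ρ j)) (fun x => Nat.dist (x.1 * x.2) n)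
      (((bx n u ρ j).card : ℝ) * ((TT n (xx n u ρ j)).card : ℝ)) (gh n) _ (by positivity)
      (fun p _ => gh_nn n p) hg1
      (fun p hp _ => by
        have := gh_p1 n p (PZ_mem n (by omega) _ p hp).1
        rw [Nat.cast_one]
        exact this) hmer hEU hEL).2
    rw [← hV, hF, ← hL] at hpt
    unfold Sb
    exact hpt
  have hsum := sum_le_sum hbox
  rw [sum_add_distrib, sum_const, card_range, nsmul_eq_mul, ← mul_sum, ← sum_mul] at hsum
  -- the main term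
  have hexp : Real.exp (-Real.eulerMascheroniConstant) ≤ 1 := by
    rw [Real.exp_le_one_iff]
    have := Real.eulerMascheroniSeq_lt_eulerMascheroniConstant 0
    have h0 : Real.eulerMascheroniSeq 0 = 0 := Real.eulerMascheroniSeq_zero
    linarith
  have hee := ee
  have hII : 0 ≤ II u := II_nonneg u hu1 hu2
  have hmain : (Real.exp Real.eulerMascheroniConstant + 1 / 10000) *
      ((∑ j ∈ range (JJ n u ρ), ((bx n u ρ j).card : ℝ) * ((TT n (xx n u ρ j)).card : ℝ)) * V) ≤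
      401 / 100 * (II u + η / 8) * (sing n * n / L ^ 2) := by
    have h1 : (∑ j ∈ range (JJ n u ρ), ((bx n u ρ j).card : ℝ) * ((TT n (xx n u ρ j)).card : ℝ)) * V ≤
        ((II u + η / 8) * ((n : ℝ) / L)) *
          ((1 + 1 / 10000) * (sing n * Real.exp (-Real.eulerMascheroniConstant) / (499 / 2000 * L))) :=
      mul_le_mul hmass v2 hV0 (by positivity)
    have h2 := mul_le_mul_of_nonneg_left h1 (show 0 ≤ Real.exp Real.eulerMascheroniConstant + 1 / 10000 by positivity)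
    refine h2.trans ?_
    have h3 : (Real.exp Real.eulerMascheroniConstant + 1 / 10000) *
        (((II u + η / 8) * ((n : ℝ) / L)) *
          ((1 + 1 / 10000) * (sing n * Real.exp (-Real.eulerMascheroniConstant) / (499 / 2000 * L)))) =
        ((1 + 1 / 10000) * (2000 / 499) *
          (Real.exp Real.eulerMascheroniConstant * Real.exp (-Real.eulerMascheroniConstant) +
            1 / 10000 * Real.exp (-Real.eulerMascheroniConstant))) * (II u + η / 8) * (sing n * n / L ^ 2) := by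
      field_simp
    rw [h3, hee]
    apply mul_le_mul_of_nonneg_right _ (by positivity)
    apply mul_le_mul_of_nonneg_right _ (by positivity)
    have h4 : 1 + 1 / 10000 * Real.exp (-Real.eulerMascheroniConstant) ≤ 1 + 1 / 10000 := by linarith
    calc (1 + 1 / 10000) * (2000 / 499) * (1 + 1 / 10000 * Real.exp (-Real.eulerMascheroniConstant)) ≤
        (1 + 1 / 10000) * (2000 / 499) * (1 + 1 / 10000) := by
          apply mul_le_mul_of_nonneg_left h4 (by norm_num)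
      _ ≤ 401 / 100 := by norm_num
  -- the error
  have hS1 : n / L ^ 2 ≤ sing n * n / L ^ 2 := by
    apply div_le_div_of_nonneg_right _ (by positivity)
    exact le_mul_of_one_le_left hn0.le hsa
  have herr : (JJ n u ρ : ℝ) * (5 * L * (n / L ^ 7)) ≤ η / 8 * (n / L ^ 2) := by
    have h1 : (JJ n u ρ : ℝ) ≤ K * L := by
      unfold JJ
      push_cast
      have h2 := Nat.floor_le (show 0 ≤ (1 / 3 - u) * Real.log n / Real.log (1 + ρ) from
        div_nonneg (mul_nonneg (by linarith) (by rw [← hL]; exact hL0.le)) hlr.le)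
      rw [← hL] at h2 ⊢
      have h3 : K * L = (1 / 3 - u) * L / Real.log (1 + ρ) + L := by
        rw [hK]; ring
      rw [h3]
      linarith
    calc (JJ n u ρ : ℝ) * (5 * L * (n / L ^ 7)) ≤ (K * L) * (5 * L * (n / L ^ 7)) :=
          mul_le_mul_of_nonneg_right h1 (by positivity)
      _ = (5 * K / L ^ 3) * (n / L ^ 2) := by field_simp
      _ ≤ η / 8 * (n / L ^ 2) := by
          apply mul_le_mul_of_nonneg_right _ (by positivity)
          rw [div_le_iff₀ (by positivity)]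
          have h4 : 40 * K / η ≤ L := by linarith
          rw [div_le_iff₀ hη] at h4
          have h5 : L ≤ L ^ 3 := by
            calc L = L ^ 1 := (pow_one L).symm
              _ ≤ L ^ 3 := pow_le_pow_right₀ hL1 (by norm_num)
          have h6 : η * L ≤ η * L ^ 3 := mul_le_mul_of_nonneg_left h5 hη.le
          linarith
  have hsmall : (n : ℝ) ^ (499 / 2000 : ℝ) ≤ η / 8 * (n / L ^ 2) := by
    have h1 : (n : ℝ) ^ (499 / 2000 : ℝ) ≤ (n : ℝ) ^ (1 / 2 : ℝ) :=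
      Real.rpow_le_rpow_of_exponent_le (by linarith) (by norm_num)
    refine h1.trans ?_
    have h2 : η / 8 * (n / L ^ 2) = η * n / (8 * L ^ 2) := by field_simp
    rw [h2, le_div_iff₀ (by positivity)]
    have h3 : 8 / η * L ^ 2 ≤ (n : ℝ) ^ (1 / 2 : ℝ) := f1
    have h4 : (n : ℝ) = (n : ℝ) ^ (1 / 2 : ℝ) * (n : ℝ) ^ (1 / 2 : ℝ) := by
      rw [← Real.rpow_add hn0]
      norm_num
    have h5 : 8 * L ^ 2 ≤ η * (n : ℝ) ^ (1 / 2 : ℝ) := by
      have h6 := mul_le_mul_of_nonneg_left h3 hη.le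
      have h7 : η * (8 / η * L ^ 2) = 8 * L ^ 2 := by field_simp
      linarith
    calc (n : ℝ) ^ (1 / 2 : ℝ) * (8 * L ^ 2) ≤ (n : ℝ) ^ (1 / 2 : ℝ) * (η * (n : ℝ) ^ (1 / 2 : ℝ)) :=
          mul_le_mul_of_nonneg_left h5 (by positivity)
      _ = η * ((n : ℝ) ^ (1 / 2 : ℝ) * (n : ℝ) ^ (1 / 2 : ℝ)) := by ring
      _ = η * n := by rw [← h4]
  obtain ⟨S, hS⟩ : ∃ S : ℝ, S = sing n * n / L ^ 2 := ⟨_, rfl⟩
  rw [← hS] at hS1 hmain ⊢
  have hS0 : 0 ≤ S := by rw [hS]; positivity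
  have h9 : η / 8 * (n / L ^ 2) ≤ η / 8 * S := mul_le_mul_of_nonneg_left hS1 (by positivity)
  have h10 : (401 / 100 * II u + η) * S = 401 / 100 * (II u + η / 8) * S + η / 8 * S + η / 8 * S +
    (1 - 401 / 800 - 1 / 4) * (η * S) := by ring
  have h11 : 0 ≤ (1 - 401 / 800 - 1 / 4) * (η * S) := by positivity
  rw [h10]
  linarith

end Pool.Agent.Q148.FN
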