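import Pool.Agent.Q148.FN.Outer
import Pool.Agent.Q148.BA.App

/-! The number of the products of two primes. -/

set_option autoImplicit false

namespace Pool.Agent.Q148.FN

open Finset Filter
open Pool.Agent.W23.DC
open Pool.Agent.Y882
open Pool.Agent.Q148.BA (PP mem_PP)

open Classical in
/-- the products `q r ≤ n / x` of two primes `x ≤ q ≤ r` -/
noncomputable def TT (n : ℕ) (x : ℝ) : Finset ℕ :=
  (Icc 1 ⌊(n : ℝ) / x⌋₊).filter (fun m => ∃ q r : ℕ, q.Prime ∧ r.Prime ∧ x ≤ q ∧ q ≤ r ∧ m = q * r)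

theorem pi_up (η : ℝ) (hη : 0 < η) : ∃ Y : ℝ, 0 < Y ∧ ∀ y : ℝ, Y ≤ y →
    ((PP ⌊y⌋₊).card : ℝ) ≤ (1 + η) * (y / Real.log y) := by
  have h0 := Pool.Agent.Cov.PNT.pi_tendsto
  have e1 := h0.eventually_le_const (show (1 : ℝ) < 1 + η by linarith)
  obtain ⟨Y, HY⟩ := eventually_atTop.1 (e1.and (eventually_ge_atTop 2))
  refine ⟨max Y 2, by positivity, fun y hy => ?_⟩
  obtain ⟨g1, g2⟩ := HY y ((le_max_left _ _).trans hy)
  have hy0 : 0 < y := by linarith
  have hl : 0 < Real.log y := Real.log_pos (by linarith)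
  have hcard : (Nat.primeCounting ⌊y⌋₊ : ℝ) = ((PP ⌊y⌋₊).card : ℝ) := by
    rw [Nat.primeCounting, Nat.primeCounting', Nat.count_eq_card_filter_range]
    congr 2
    ext p
    rw [mem_filter, mem_range, mem_PP]
    exact ⟨fun hp => ⟨hp.2, by omega⟩, fun hp => ⟨by omega, hp.1⟩⟩
  rw [hcard, div_le_iff₀ hy0] at g1
  rw [← mul_div_assoc, le_div_iff₀ hl]
  exact g1

theorem GG_le_one (t : ℝ) (h1 : 1 / 4 ≤ t) (h2 : t ≤ 1 / 3) : GG t ≤ 1 := by
  unfold GG
  rw [div_le_one (by linarith)]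
  have h3 : (1 - 2 * t) / t ≤ 2 := by
    rw [div_le_iff₀ (by linarith)]
    linarith
  have h4 : 0 < (1 - 2 * t) / t := div_pos (by linarith) (by linarith)
  have h6 : Real.log ((1 - 2 * t) / t) ≤ Real.log 2 + ((1 - 2 * t) / t / 2 - 1) := by
    have h7 : (1 - 2 * t) / t = 2 * ((1 - 2 * t) / t / 2) := by ring
    have h8 : 0 < (1 - 2 * t) / t / 2 := by linarith
    conv_lhs => rw [h7]
    rw [Real.log_mul (by norm_num) h8.ne']
    have := Real.log_le_sub_one_of_pos h8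
    linarith
  have h7 := Real.log_two_lt_d9
  have h8 : (1 - 2 * t) / t / 2 ≤ 1.3068 - t := by
    rw [div_div, div_le_iff₀ (by linarith)]
    nlinarith [mul_nonneg (show 0 ≤ t - 1 / 4 by linarith) (show 0 ≤ 1 / 3 - t by linarith)]
  linarith

theorem card_TT (η : ℝ) (hη : 0 < η) (hη1 : η ≤ 1) : ∃ N0 : ℕ, ∀ n : ℕ, N0 ≤ n → ∀ θ : ℝ, 1 / 4 ≤ θ → θ ≤ 1 / 3 →
    ((TT n ((n : ℝ) ^ θ)).card : ℝ) ≤ (n : ℝ) / ((n : ℝ) ^ θ * Real.log n) * (GG θ + η) := by
  classical
  obtain ⟨κ, hκ⟩ : ∃ κ : ℝ, κ = η / 4 := ⟨_, rfl⟩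
  have hκ0 : 0 < κ := by rw [hκ]; positivity
  obtain ⟨β, hβ0, hβ1, N1, H1⟩ := inner κ hκ0
  obtain ⟨Y, hY0, HY⟩ := pi_up κ hκ0
  have e1 := (tendsto_rpow_atTop (show (0 : ℝ) < 1 / 4 by norm_num)).eventually_ge_atTop Y
  obtain ⟨N2, H2⟩ := eventually_atTop.1 ((tendsto_natCast_atTop_atTop (R := ℝ)).eventually e1)
  refine ⟨max (max N1 N2) 3, fun n hn θ hθ1 hθ2 => ?_⟩
  have hn3 : 3 ≤ n := (le_max_right _ _).trans hn
  have hnr : (3 : ℝ) ≤ n := by exact_mod_cast hn3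
  have hn0 : (0 : ℝ) < n := by linarith
  have hl : 0 < Real.log n := Real.log_pos (by linarith)
  have f1 := H1 n ((le_max_left _ _).trans ((le_max_left _ _).trans hn)) θ hθ1 hθ2
  have f2 := H2 n ((le_max_right _ _).trans ((le_max_left _ _).trans hn))
  obtain ⟨x, hx⟩ : ∃ x : ℝ, x = (n : ℝ) ^ θ := ⟨_, rfl⟩
  have hx0 : 0 < x := by rw [hx]; positivity
  rw [← hx]
  have hlx : Real.log x = θ * Real.log n := by rw [hx, Real.log_rpow hn0]
  obtain ⟨Q, hQ⟩ : ∃ Q : Finset ℕ, Q = pr n θ ((1 - θ) / 2 + β) := ⟨_, rfl⟩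
  have hQm : ∀ q ∈ Q, q.Prime ∧ θ ≤ tt n q ∧ tt n q < (1 - θ) / 2 + β := by
    intro q hq
    rw [hQ] at hq
    unfold pr at hq
    rw [mem_filter] at hq
    exact hq.2
  have hsub : TT n x ⊆ Q.biUnion (fun q => (PP ⌊(n : ℝ) / x / q⌋₊).image (fun r => q * r)) := by
    intro m hm
    unfold TT at hm
    rw [mem_filter, mem_Icc] at hm
    obtain ⟨⟨h1, h2⟩, q, r, hq, hr, hxq, hqr, rfl⟩ := hm
    have hq0 : (0 : ℝ) < q := by exact_mod_cast hq.pos
    have h3 : ((q * r : ℕ) : ℝ) ≤ (n : ℝ) / x :=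
      le_trans (by exact_mod_cast h2) (Nat.floor_le (by positivity))
    push_cast at h3
    rw [mem_biUnion]
    refine ⟨q, ?_, ?_⟩
    · rw [hQ]
      unfold pr
      rw [mem_filter, mem_Icc]
      have hqr' : (q : ℝ) ≤ r := by exact_mod_cast hqr
      have h4 : (q : ℝ) * q ≤ n / x := le_trans (mul_le_mul_of_nonneg_left hqr' hq0.le) h3
      have h5 : Real.log q + Real.log q ≤ Real.log n - Real.log x := by
        rw [← Real.log_mul hq0.ne' hq0.ne', ← Real.log_div hn0.ne' hx0.ne']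
        exact Real.log_le_log (by positivity) h4
      have h6 : tt n q ≤ (1 - θ) / 2 := by
        unfold tt
        rw [div_le_iff₀ hl]
        rw [hlx] at h5
        linarith
      refine ⟨⟨hq.one_le, ?_⟩, hq, ?_, by linarith⟩
      · have h7 : Real.log q ≤ Real.log n := by
          unfold tt at h6
          rw [div_le_iff₀ hl] at h6
          have : (1 - θ) / 2 * Real.log n ≤ 1 * Real.log n :=
            mul_le_mul_of_nonneg_right (by linarith) hl.le
          linarith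
        have h8 := (Real.log_le_log_iff hq0 hn0).1 h7
        exact_mod_cast h8
      · unfold tt
        rw [le_div_iff₀ hl, ← hlx]
        exact Real.log_le_log hx0 hxq
    · rw [mem_image]
      refine ⟨r, ?_, rfl⟩
      rw [mem_PP]
      refine ⟨hr, Nat.le_floor ?_⟩
      rw [le_div_iff₀ hq0, mul_comm]
      exact h3
  have hcard : ((TT n x).card : ℝ) ≤ ∑ q ∈ Q, ((PP ⌊(n : ℝ) / x / q⌋₊).card : ℝ) := by
    have h1 := (card_le_card hsub).trans card_biUnion_le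
    have h2 : ∑ q ∈ Q, ((PP ⌊(n : ℝ) / x / q⌋₊).image (fun r => q * r)).card ≤
        ∑ q ∈ Q, (PP ⌊(n : ℝ) / x / q⌋₊).card := sum_le_sum fun q _ => card_image_le
    exact_mod_cast h1.trans h2
  refine hcard.trans ?_
  have hterm : ∀ q ∈ Q, ((PP ⌊(n : ℝ) / x / q⌋₊).card : ℝ) ≤
      (n : ℝ) / (x * Real.log n) * (1 + κ) * (1 / ((q : ℝ) - 1) * (1 / (1 - θ - tt n q))) := by
    intro q hq
    obtain ⟨hqp, g1, g2⟩ := hQm q hq
    have hq2 : (2 : ℝ) ≤ q := by exact_mod_cast hqp.two_le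
    have hq0 : (0 : ℝ) < q := by linarith
    have hlq : Real.log q = tt n q * Real.log n := by
      unfold tt
      field_simp
    have hly : Real.log ((n : ℝ) / x / q) = (1 - θ - tt n q) * Real.log n := by
      rw [Real.log_div (by positivity) hq0.ne', Real.log_div hn0.ne' hx0.ne', hlx, hlq]
      ring
    have g3 : 1 / 4 ≤ 1 - θ - tt n q := by linarith
    have hy : (n : ℝ) ^ (1 / 4 : ℝ) ≤ (n : ℝ) / x / q := by
      rw [← Real.log_le_log_iff (by positivity) (by positivity), Real.log_rpow hn0, hly]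
      exact mul_le_mul_of_nonneg_right g3 hl.le
    have h1 := HY _ (f2.trans hy)
    refine h1.trans ?_
    rw [hly]
    have h2 : (n : ℝ) / (x * Real.log n) * (1 + κ) * (1 / ((q : ℝ) - 1) * (1 / (1 - θ - tt n q))) =
        (1 + κ) * (((n : ℝ) / x * (1 / ((q : ℝ) - 1))) / ((1 - θ - tt n q) * Real.log n)) := by
      have : (q : ℝ) - 1 ≠ 0 := by linarith
      have : 1 - θ - tt n q ≠ 0 := by linarith
      field_simp
    rw [h2]
    apply mul_le_mul_of_nonneg_left _ (by linarith)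
    apply div_le_div_of_nonneg_right
    · rw [div_eq_mul_one_div ((n : ℝ) / x) (q : ℝ)]
      apply mul_le_mul_of_nonneg_left _ (by positivity)
      exact one_div_le_one_div_of_le (by linarith) (by linarith)
    · exact mul_nonneg (by linarith) hl.le
  refine (sum_le_sum hterm).trans ?_
  rw [← mul_sum]
  rw [← hQ] at f1
  have hA : 0 ≤ (n : ℝ) / (x * Real.log n) := by positivity
  have hG0 := GG_nonneg θ hθ1 hθ2
  have hG1 := GG_le_one θ hθ1 hθ2
  calc (n : ℝ) / (x * Real.log n) * (1 + κ) * ∑ q ∈ Q, 1 / ((q : ℝ) - 1) * (1 / (1 - θ - tt n q)) ≤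
      (n : ℝ) / (x * Real.log n) * (1 + κ) * (GG θ + κ) :=
        mul_le_mul_of_nonneg_left f1 (by positivity)
    _ = (n : ℝ) / (x * Real.log n) * ((1 + κ) * (GG θ + κ)) := by ring
    _ ≤ (n : ℝ) / (x * Real.log n) * (GG θ + η) := by
        apply mul_le_mul_of_nonneg_left _ hA
        have h1 : κ * GG θ ≤ κ * 1 := mul_le_mul_of_nonneg_left hG1 hκ0.le
        have h2 : κ * κ ≤ κ * 1 := mul_le_mul_of_nonneg_left (by rw [hκ]; linarith) hκ0.le
        have h3 : (1 + κ) * (GG θ + κ) = GG θ + κ + κ * GG θ + κ * κ := by ring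
        rw [h3]
        have h4 : 4 * κ = η := by rw [hκ]; ring
        linarith

end Pool.Agent.Q148.FN
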